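import Pool.Agent.Lib.MP_b1acb3_co.Uni.Basic

/-!
Statements of the modules of the classification of graphs with exactly one cycle.
-/

namespace Pool.Agent.Lib.MP_b1acb3_co.Uni

open Finset

/-- (A) -/
def StA : Prop := ∀ (n K : ℕ) (P : Fin K → Matrix (Fin n) (Fin n) ℝ)
  (F E : Finset (Fin K) → Finset (Fin n)) (η : ℝ), Markov P → 0 ≤ η → Grows P F η →
  (∀ Q c, c ∉ Q → E Q ⊆ F (insert c Q)) → ∀ Q, 0 < dfc F Q →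
  mu (E Q) ≤ (Q.card : ℝ) / K + (loss F Q / K + K * η) / dfc F Q ∧
  mh P F Q ≤ ((Q.card : ℝ) / K - mu (E Q)) + 2 * ((loss F Q / K + K * η) / dfc F Q)

/-- (B) -/
def StB : Prop := ∀ (n K : ℕ) (P : Fin K → Matrix (Fin n) (Fin n) ℝ)
  (F : Finset (Fin K) → Finset (Fin n)) (η : ℝ), Markov P → 0 ≤ η → Grows P F η →
  ∀ (Q : Finset (Fin K)) (c' : Fin K), c' ∉ Q →
  ∑ c ∈ Qᶜ.erase c', avg (fun y => app P c (F Q)ᶜ y * app P c' (F Q)ᶜ y) ≤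
  ∑ c ∈ Qᶜ.erase c',
    avg (fun y => app P c (F (insert c' Q))ᶜ y * app P c' (F (insert c' Q))ᶜ y) +
  (dfc F Q + dfc F (insert c' Q)) * ((dfc F Q - dfc F (insert c' Q)) / K + η)

/-- (C) -/
def StC : Prop := ∀ (n K : ℕ) (P : Fin K → Matrix (Fin n) (Fin n) ℝ)
  (F : Finset (Fin K) → Finset (Fin n)), Markov P → ∀ Q, 0 < dfc F Q →
  (1 - (Q.card : ℝ) / K) * (1 - 1 / dfc F Q) ≤ mh P F Q + offd P F Q

/-- (Chain) double counting of the pairs `(Q, Q ∪ {c})`. -/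
def StChain : Prop := ∀ (K i : ℕ) (g : Finset (Fin K) → Fin K → ℝ), i + 1 ≤ K →
  EQ K i (fun Q => ∑ c ∈ Qᶜ, g Q c) =
    (((K : ℝ) - i) / ((i : ℝ) + 1)) * EQ K (i + 1) (fun Q => ∑ c ∈ Q, g (Q.erase c) c)

/-- (O) expectation of (B) over the pairs `(Q, Q ∪ {c'})`. -/
def StO : Prop := ∀ (n K : ℕ) (P : Fin K → Matrix (Fin n) (Fin n) ℝ)
  (F : Finset (Fin K) → Finset (Fin n)) (η : ℝ) (i : ℕ), Markov P → 0 ≤ η → 4 * K * η ≤ 1 →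
  Grows P F η → i + 1 ≤ K → (∀ Q, Q.card = i ∨ Q.card = i + 1 → 1 / 2 ≤ dfc F Q) →
  EQ K i (offd P F) ≤ (((K : ℝ) - i) / ((i : ℝ) + 1)) * EQ K (i + 1) (mh P F) +
    (2 / K) * sE F i + 9 * K ^ 2 * η

/-- (R1) densities of the sets `R Q`. -/
def StR1 : Prop := ∀ (n K : ℕ) (P : Fin K → Matrix (Fin n) (Fin n) ℝ)
  (R : Finset (Fin K) → Finset (Fin n)) (θ : ℝ) (d : ℕ), Sys P R θ d →
  (∀ Q : Finset (Fin K), Q.Nonempty → 1 - K ^ 2 * θ ≤ K * mu (R Q)) ∧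
  (∀ Q Q' : Finset (Fin K), Q ⊆ Q' → mu (R Q) ≤ mu (R Q') + K * θ)

/-- (R2) `rem R j Q` misses `R U'`. -/
def StR2 : Prop := ∀ (n K : ℕ) (P : Fin K → Matrix (Fin n) (Fin n) ℝ)
  (R : Finset (Fin K) → Finset (Fin n)) (θ : ℝ) (d j : ℕ), Sys P R θ d → j ≤ d →
  ∀ Q U' : Finset (Fin K), Disjoint Q U' → U'.Nonempty → Q.card + U'.card + d = K + j →
  K * mu (R U') ≤ dfc (rem R j) Q + K ^ (j + 1) * θ

/-- (I) growth of `R'`. -/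
def StI : Prop := ∀ (n K : ℕ) (P : Fin K → Matrix (Fin n) (Fin n) ℝ)
  (R : Finset (Fin K) → Finset (Fin n)) (θ : ℝ) (d : ℕ), Sys P R θ d →
  ∀ Q : Finset (Fin K), 2 ≤ Q.card → (Q.card : ℝ) ≤ dfc (rem R 1) Q →
  dfc (rem R 1) Q - 3 * K ^ 3 * θ ≤ loss (rem R 1) Q

/-- (E) lower bound for the mean density of `R'`. -/
def StE : Prop := ∀ (n K : ℕ) (P : Fin K → Matrix (Fin n) (Fin n) ℝ)
  (R : Finset (Fin K) → Finset (Fin n)) (θ : ℝ) (d : ℕ), Sys P R θ d → 12 ≤ K →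
  ∀ i : ℕ, 2 ≤ i → 4 * i ≤ K →
  (i : ℝ) / K - (i : ℝ) / (2 * K) * EQ K i (bad R θ) - K ^ 4 * θ ≤
    EQ K i (fun Q => mu (rem R 1 Q))

/-- (L) the logarithmic potential. -/
def StL : Prop := ∀ (n K : ℕ) (P : Fin K → Matrix (Fin n) (Fin n) ℝ)
  (F : Finset (Fin K) → Finset (Fin n)) (η : ℝ) (i : ℕ), Markov P → 0 ≤ η →
  Grows P F η → i + 1 ≤ K → (∀ Q, Q.card = i ∨ Q.card = i + 1 → 1 / 2 ≤ dfc F Q) →
  lamE F (i + 1) ≤ lamE F i + 2 * K * η ∧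
  sE F i / K ≤ lamE F i - lamE F (i + 1) + 2 * K * η ∧ -(2 * K ^ 2 * η) ≤ sE F i ∧
  lamE F i ≤ Real.log K

/-- (T) the bad event is rare (`d = 2`). -/
def StT : Prop := ∀ (n K : ℕ) (P : Fin K → Matrix (Fin n) (Fin n) ℝ)
  (R : Finset (Fin K) → Finset (Fin n)) (θ : ℝ), Sys P R θ 2 → 12 ≤ K → 100 * K ^ 6 * θ ≤ 1 →
  ∀ i : ℕ, 2 ≤ i → 4 * i ≤ K →
  EQ K i (bad R θ) ≤ (2 / K) * sE (rem R 2) i + 10 * K ^ 3 * θ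

/-- (M) main inequality (`d = 2`). -/
def StM : Prop := ∀ (n K : ℕ) (P : Fin K → Matrix (Fin n) (Fin n) ℝ)
  (R : Finset (Fin K) → Finset (Fin n)) (θ : ℝ), Sys P R θ 2 → 12 ≤ K → 100 * K ^ 6 * θ ≤ 1 →
  ∀ i : ℕ, 2 ≤ i → 4 * (i + 1) ≤ K → K ≤ 8 * i + 7 →
  EQ K i (fun Q => 1 - 1 / dfc (rem R 2) Q) ≤
    6 * (sE (rem R 2) i / K) + 21 * (sE (rem R 2) (i + 1) / K) + 40 * K ^ 4 * θ

/-- (Rec) recurrence for the potential (`d = 2`). -/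
def StRec : Prop := ∀ (n K : ℕ) (P : Fin K → Matrix (Fin n) (Fin n) ℝ)
  (R : Finset (Fin K) → Finset (Fin n)) (θ : ℝ), Sys P R θ 2 → 12 ≤ K → 100 * K ^ 6 * θ ≤ 1 →
  ∀ i : ℕ, 2 ≤ i → 4 * (i + 2) ≤ K → K ≤ 8 * i + 7 →
  lamE (rem R 2) i ≤ 21 * (Real.log K + 1) * (lamE (rem R 2) i - lamE (rem R 2) (i + 2)) +
    300 * (Real.log K + 1) * K ^ 4 * θ

/-- (Seq) numerical consequence of the recurrence. -/
def StSeq : Prop := ∃ K₀ : ℕ, ∀ K : ℕ, K₀ ≤ K → ∀ (lam : ℕ → ℝ) (θ : ℝ), 0 ≤ θ →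
  θ * K ^ 20 ≤ 1 → (∀ i : ℕ, 2 ≤ i → 4 * i ≤ K → lam i ≤ Real.log K) →
  (∀ i : ℕ, 2 ≤ i → 4 * (i + 2) ≤ K → K ≤ 8 * i + 7 →
    lam i ≤ 21 * (Real.log K + 1) * (lam i - lam (i + 2)) +
      300 * (Real.log K + 1) * K ^ 4 * θ) →
  ∃ i : ℕ, 2 ≤ i ∧ 4 * i ≤ K ∧ lam i ≤ 1 / K ^ 8

/-- (Pair) from the potential to single pairs of colours (`d = 2`). -/
def StPair : Prop := ∃ K₀ : ℕ, ∀ K : ℕ, K₀ ≤ K → ∀ (n : ℕ)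
  (P : Fin K → Matrix (Fin n) (Fin n) ℝ) (R : Finset (Fin K) → Finset (Fin n)) (θ : ℝ),
  Sys P R θ 2 → θ * K ^ 20 ≤ 1 → ∀ i : ℕ, 2 ≤ i → 4 * i ≤ K → lamE (rem R 2) i ≤ 1 / K ^ 8 →
  ∀ a b : Fin K, a ≠ b → K * mu (R {a, b}) ≤ 1 + 1 / K ^ 5

/-- (Two) conclusion of the analytic part for `d = 2`. -/
def StTwo : Prop := ∃ K₀ : ℕ, ∀ K : ℕ, K₀ ≤ K → ∀ (n : ℕ)
  (P : Fin K → Matrix (Fin n) (Fin n) ℝ) (R : Finset (Fin K) → Finset (Fin n)) (θ : ℝ),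
  Sys P R θ 2 → θ * K ^ 20 ≤ 1 →
  ∀ a b : Fin K, a ≠ b → K * mu (R {a, b}) ≤ 1 + 1 / K ^ 5

/-- (Three) conclusion of the analytic part for `d ≥ 3`. -/
def StThree : Prop := ∃ K₀ : ℕ, ∀ K : ℕ, K₀ ≤ K → ∀ (n : ℕ)
  (P : Fin K → Matrix (Fin n) (Fin n) ℝ) (R : Finset (Fin K) → Finset (Fin n)) (θ : ℝ) (d : ℕ),
  3 ≤ d → d ≤ 4 → θ * K ^ 20 ≤ 1 → ¬ Sys P R θ d

/-! ### The structure of the colouring -/

/-- Number of ordered pairs of colour `b` between `nbr c x a` and `nbr c x a'`. -/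
noncomputable def ecount {n K : ℕ} (c : Sym2 (Fin n) → Fin K) (x : Fin n) (b a a' : Fin K) : ℕ :=
  ∑ z ∈ nbr c x a, (nbr c z b ∩ nbr c x a').card

/-- The hypotheses on the colouring: all colour degrees are nearly `n / K`, and two steps in the
colours `a ≠ b` in either order reach nearly only `n / K` vertices. -/
structure Struct {n K : ℕ} (c : Sym2 (Fin n) → Fin K) (ζ : ℝ) : Prop where
  deg : ∀ x a, (1 - ζ) * ((n : ℝ) / K) ≤ ((nbr c x a).card : ℝ)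
  two : ∀ x a b, a ≠ b → ∃ R : Finset (Fin n), (R.card : ℝ) ≤ (1 + ζ) * ((n : ℝ) / K) ∧
    ((∑ z ∈ nbr c x a, (nbr c z b \ R).card : ℕ) : ℝ) ≤ ζ * ((n : ℝ) / K) ^ 2 ∧
    ((∑ z ∈ nbr c x b, (nbr c z a \ R).card : ℕ) : ℝ) ≤ ζ * ((n : ℝ) / K) ^ 2

/-- (S1) a set `R` also for `a = b`. -/
def StS1 : Prop := ∀ (n K : ℕ) (c : Sym2 (Fin n) → Fin K) (ζ : ℝ), 2 ≤ K → 0 ≤ ζ →
  8 * K * ζ ≤ 1 → K ≤ ζ * n → Struct c ζ →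
  ∀ x a b, ∃ R : Finset (Fin n), (R.card : ℝ) ≤ (1 + 8 * K * ζ) * ((n : ℝ) / K) ∧
    ((∑ z ∈ nbr c x a, (nbr c z b \ R).card : ℕ) : ℝ) ≤ 8 * K * ζ * ((n : ℝ) / K) ^ 2

/-- (S2) every pair of classes has nearly no or nearly all pairs of colour `b`. -/
def StS2 : Prop := ∀ (n K : ℕ) (c : Sym2 (Fin n) → Fin K) (ζ : ℝ), 2 ≤ K → 0 ≤ ζ →
  800 * K ^ 2 * ζ ≤ 1 → K ≤ ζ * n → Struct c ζ →
  ∀ x b a a', (ecount c x b a a' : ℝ) ≤ 400 * K * ζ * ((n : ℝ) / K) ^ 2 ∨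
    (1 - 400 * K * ζ) * ((n : ℝ) / K) ^ 2 ≤ (ecount c x b a a' : ℝ)

/-- (S3) the Latin square. -/
def StS3 : Prop := ∀ (n K : ℕ) (c : Sym2 (Fin n) → Fin K) (ζ : ℝ), 2 ≤ K → 0 ≤ ζ →
  4000 * K ^ 2 * ζ ≤ 1 → K ≤ ζ * n → Struct c ζ →
  ∀ x : Fin n, ∃ σ : Fin K → Fin K → Fin K,
    (∀ b a, (1 - 400 * K * ζ) * ((n : ℝ) / K) ^ 2 ≤ (ecount c x b a (σ b a) : ℝ)) ∧
    (∀ b a, σ b (σ b a) = a) ∧ (∀ a a', ∃ b, σ b a = a')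

/-- (S4) the involutions commute. -/
def StS4 : Prop := ∀ (n K : ℕ) (c : Sym2 (Fin n) → Fin K) (ζ : ℝ), 2 ≤ K → 0 ≤ ζ →
  20000 * K ^ 2 * ζ ≤ 1 → K ≤ ζ * n → Struct c ζ →
  ∀ (x : Fin n) (σ : Fin K → Fin K → Fin K),
    (∀ b a, (1 - 400 * K * ζ) * ((n : ℝ) / K) ^ 2 ≤ (ecount c x b a (σ b a) : ℝ)) →
    ∀ b b' a, σ b (σ b' a) = σ b' (σ b a)

/-- (S5) commuting involutions generating a transitive group. -/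
def StS5 : Prop := ∀ (K : ℕ) (σ : Fin K → Fin K → Fin K), 0 < K →
  (∀ b a, σ b (σ b a) = a) → (∀ b b' a, σ b (σ b' a) = σ b' (σ b a)) →
  (∀ a a', ∃ b, σ b a = a') → ∃ r : ℕ, K = 2 ^ r

/-! ### From the colouring to the system, and from cycles to the graph -/

/-- (G1) a long rainbow path. -/
def StG1 : Prop := ∀ (K : ℕ) (θ : ℝ), 0 < K → 0 < θ → ∃ δ : ℝ, 0 < δ ∧ ∀ v : ℕ, ∃ n₀ : ℕ,
  ∀ n : ℕ, n₀ ≤ n → ∀ (c : Sym2 (Fin n) → Fin K) (B : Fin K → Matrix (Fin n) (Fin n) ℝ),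
  (∀ k i j, 0 ≤ B k i j) → (∀ k i j, B k i j ≤ (if c s(i, j) = k then 1 else 0) + δ) →
  ∀ (x : Fin n) (Q : Finset (Fin K)) (y : Fin n) (Z : Finset (Fin n)), Q.Nonempty → y ≠ x →
    y ∈ reach c (Cyc.nrm B) θ x Q → Z.card ≤ v →
    ∃ z : ℕ → Fin n, z 0 = x ∧ z Q.card = y ∧ (∀ i, i < Q.card → c s(z i, z (i + 1)) ∈ Q) ∧
      (∀ i j, i < Q.card → j < Q.card → c s(z i, z (i + 1)) = c s(z j, z (j + 1)) → i = j) ∧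
      (∀ i, 1 ≤ i → i < Q.card → z i ∉ Z) ∧
      (∀ i j, i ≤ Q.card → j ≤ Q.card → z i = z j → i = j)

/-- (G2) a rainbow cycle. -/
def StG2 : Prop := ∀ (K : ℕ) (θ : ℝ), 0 < K → 0 < θ → ∃ δ : ℝ, 0 < δ ∧ ∃ n₀ : ℕ,
  ∀ n : ℕ, n₀ ≤ n → ∀ (c : Sym2 (Fin n) → Fin K) (B : Fin K → Matrix (Fin n) (Fin n) ℝ),
  (∀ k i j, 0 ≤ B k i j) → (∀ k i j, B k i j ≤ (if c s(i, j) = k then 1 else 0) + δ) →
  ∀ (x : Fin n) (U U' : Finset (Fin K)), U.Nonempty → U'.Nonempty → Disjoint U U' →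
    θ < mu (reach c (Cyc.nrm B) θ x U ∩ reach c (Cyc.nrm B) θ x U') →
    HasRainbowCycle c (U.card + U'.card)

/-- (G3) the system of a colouring without rainbow cycle of length `K - d`. -/
def StG3 : Prop := ∀ (K : ℕ) (θ δ₀ : ℝ), 0 < K → 0 < θ → 0 < δ₀ →
  ∃ ε : ℝ, 0 < ε ∧ ∃ n₀ : ℕ, ∀ n : ℕ, n₀ ≤ n → ∀ (c : Sym2 (Fin n) → Fin K), IsBalanced ε c →
    ∃ B : Fin K → Matrix (Fin n) (Fin n) ℝ,
      (∀ k i j, B k i j ≤ (if c s(i, j) = k then 1 else 0) + δ₀) ∧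
      (∀ k i j, (if c s(i, j) = k then 1 else 0) ≤ B k i j + K * δ₀) ∧
      ∀ (d l : ℕ) (x : Fin n), l + d = K → ¬ HasRainbowCycle c l →
        Sys (Cyc.nrm B) (reach c (Cyc.nrm B) θ x) θ d

/-- (G4) the hypotheses `Struct` from small sets `R {a, b}`. -/
def StG4 : Prop := ∀ (n K : ℕ) (c : Sym2 (Fin n) → Fin K)
  (B : Fin K → Matrix (Fin n) (Fin n) ℝ) (θ δ ζ ε : ℝ), 0 < n → 2 ≤ K → 0 < θ → 0 < δ →
  (∀ k i j, (if c s(i, j) = k then 1 else 0) ≤ B k i j + K * δ) → IsBalanced ε c → ε ≤ ζ →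
  K * θ + K ^ 3 * δ ≤ ζ →
  (∀ x a b, a ≠ b → K * mu (reach c (Cyc.nrm B) θ x {a, b}) ≤ 1 + ζ) → Struct c ζ

/-- (G5) graph theory: the cycle of a graph that becomes a forest by deleting an edge. -/
def StG5 : Prop := ∀ (V : Type) [Fintype V] [DecidableEq V] (G : SimpleGraph V) (a : Sym2 V)
  (v : V) (p : G.Walk v v), (G.deleteEdges {a}).IsAcyclic → p.IsCycle →
  TreeLikeOutside G p.support.toFinset ∧ numEdgesIn G p.support.toFinset = p.length ∧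
  (∀ e ∈ G.edgeSet, (∀ x ∈ e, x ∈ p.support) → e ∈ p.edges)

/-- (G6) a rainbow cycle extends to a rainbow copy of `G`. -/
def StG6 : Prop := ∀ (V : Type) [Fintype V] [DecidableEq V] (G : SimpleGraph V) (v : V)
  (p : G.Walk v v), p.IsCycle → TreeLikeOutside G p.support.toFinset →
  (∀ e ∈ G.edgeSet, (∀ x ∈ e, x ∈ p.support) → e ∈ p.edges) →
  ∃ n₀ : ℕ, ∀ n : ℕ, n₀ ≤ n → ∀ c : Sym2 (Fin n) → Fin (numEdges G + 1), IsBalanced (1 / 2) c →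
    HasRainbowCycle c p.length → HasRainbowCopy G c

/-- (G7) the negative direction: the hypotheses of `Cyc.main_neg`. -/
def StG7 : Prop := ∀ (V : Type) [Fintype V] (G : SimpleGraph V) (a : Sym2 V)
  (v : V) (p : G.Walk v v), (G.deleteEdges {a}).IsAcyclic → p.IsCycle →
  p.length + 1 = numEdges G → ∃ e₀ ∈ G.edgeSet, ∀ v, Even {u | G.Adj v u ∧ s(v, u) ≠ e₀}.ncard

/-- (Z) Rainbow cycles of length `K - 2`, `K - 3` and `K - 4`. -/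
def StZ : Prop := ∃ K₀ : ℕ, ∀ K : ℕ, K₀ ≤ K → ∀ d l : ℕ, 2 ≤ d → d ≤ 4 → l + d = K →
  (d = 2 → ¬ ∃ r : ℕ, K = 2 ^ r) → ∃ ε : ℝ, 0 < ε ∧ ∃ n₀ : ℕ, ∀ n : ℕ, n₀ ≤ n →
  ∀ c : Sym2 (Fin n) → Fin K, IsBalanced ε c → HasRainbowCycle c l

/-- (Final) -/
def StFinal : Prop := ∃ e₀ : ℕ, ∀ (V : Type) [Fintype V] (G : SimpleGraph V) (a : Sym2 V)
  (v : V) (p : G.Walk v v), (G.deleteEdges {a}).IsAcyclic → p.IsCycle →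
  p.length < numEdges G → e₀ ≤ numEdges G →
  (ForcesRainbow G ↔ ¬ (p.length + 1 = numEdges G ∧ ∃ r : ℕ, numEdges G + 1 = 2 ^ r))

end Pool.Agent.Lib.MP_b1acb3_co.Uni
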