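import Pool.Agent.Lib.MP_b1acb3_co.Uni.Stmts

/-!
# The Latin square of the colour classes at a vertex
-/

namespace Pool.Agent.Lib.MP_b1acb3_co.Uni

open Finset

namespace S3

variable {n K : ℕ} {c : Sym2 (Fin n) → Fin K}

theorem mem_nbr {x y : Fin n} {a : Fin K} : y ∈ nbr c x a ↔ y ≠ x ∧ c s(x, y) = a := by
  simp [nbr]

theorem mem_nbr_comm {x y : Fin n} {a : Fin K} : y ∈ nbr c x a ↔ x ∈ nbr c y a := by
  rw [mem_nbr, mem_nbr, Sym2.eq_swap, ne_comm]

theorem sum_inter (x : Fin n) (S : Finset (Fin n)) :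
    ∑ a, (S ∩ nbr c x a).card = (S.erase x).card := by
  rw [Finset.card_eq_sum_card_fiberwise (f := fun y => c s(x, y)) (t := univ)
    (fun _ _ => Finset.mem_coe.mpr (mem_univ _))]
  refine Finset.sum_congr rfl fun a _ => ?_
  congr 1
  ext y
  simp only [mem_inter, mem_nbr, mem_filter, mem_erase]
  tauto

theorem sum_ecount (x : Fin n) (b a : Fin K) :
    ∑ a', ecount c x b a a' = ∑ z ∈ nbr c x a, ((nbr c z b).erase x).card := by
  unfold ecount
  rw [Finset.sum_comm]
  exact Finset.sum_congr rfl fun z _ => sum_inter x _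

theorem ecount_eq (x : Fin n) (b p q : Fin K) : ecount c x b p q =
    ∑ z ∈ nbr c x p, ∑ y ∈ nbr c x q, if y ∈ nbr c z b then 1 else 0 := by
  unfold ecount
  refine sum_congr rfl fun z _ => ?_
  rw [← Finset.card_filter]
  congr 1
  ext y
  simp only [mem_inter, mem_filter]
  tauto

theorem ecount_symm (x : Fin n) (b a a' : Fin K) : ecount c x b a a' = ecount c x b a' a := by
  rw [ecount_eq, ecount_eq, Finset.sum_comm]
  exact sum_congr rfl fun y _ => sum_congr rfl fun z _ => if_congr mem_nbr_comm rfl rfl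

theorem card_le {ζ : ℝ} (hS : Struct c ζ) (hζ : 0 ≤ ζ) (hK : 0 < K) (x : Fin n) (a : Fin K) :
    ((nbr c x a).card : ℝ) ≤ (1 + K * ζ) * ((n : ℝ) / K) := by
  have h1 := sum_inter (c := c) x univ
  simp only [univ_inter] at h1
  have h2 : (univ.erase x).card ≤ n := by
    have := Finset.card_le_univ (univ.erase x)
    rwa [Fintype.card_fin] at this
  rw [← h1, ← Finset.add_sum_erase univ _ (mem_univ a)] at h2
  have h3 : ((nbr c x a).card : ℝ) + ∑ a' ∈ univ.erase a, ((nbr c x a').card : ℝ) ≤ n := by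
    exact_mod_cast h2
  have h4 : ∑ a' ∈ univ.erase a, (1 - ζ) * ((n : ℝ) / K) ≤
      ∑ a' ∈ univ.erase a, ((nbr c x a').card : ℝ) :=
    Finset.sum_le_sum fun a' _ => hS.deg x a'
  rw [Finset.sum_const, Finset.card_erase_of_mem (mem_univ a), Finset.card_univ,
    Fintype.card_fin, nsmul_eq_mul, Nat.cast_sub (by omega)] at h4
  have hK' : (0 : ℝ) < K := by exact_mod_cast hK
  have h5 : (n : ℝ) = K * ((n : ℝ) / K) := by field_simp
  have h6 : 0 ≤ ζ * ((n : ℝ) / K) := by positivity
  push_cast at h4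
  nlinarith

/-- Two different large entries in a row are impossible. -/
theorem contra {ζ N e1 e2 : ℝ} {K : ℕ} (hK : 2 ≤ K) (hζ : 0 ≤ ζ) (h : 4000 * K ^ 2 * ζ ≤ 1)
    (hN : 0 < N) (h1 : (1 - 400 * K * ζ) * N ^ 2 ≤ e1) (h2 : (1 - 400 * K * ζ) * N ^ 2 ≤ e2)
    (h3 : e1 + e2 ≤ ((1 + K * ζ) * N) * ((1 + K * ζ) * N)) : False := by
  have hK' : (2 : ℝ) ≤ K := by exact_mod_cast hK
  have h4 : 8000 * (K * ζ) ≤ 1 := by
    have h5 : 0 ≤ K * ζ := by positivity
    nlinarith
  have h5 : 0 ≤ K * ζ := by positivity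
  have h6 : (1 + K * ζ) * (1 + K * ζ) < 2 * (1 - 400 * (K * ζ)) := by nlinarith
  have h7 : 0 < N ^ 2 := by positivity
  have h8 := mul_lt_mul_of_pos_right h6 h7
  nlinarith

end S3

open S3 in
theorem thmS3 (h : StS2) : StS3 := by
  intro n K c ζ hK hζ hK2 hn hS x
  have hK' : (2 : ℝ) ≤ K := by exact_mod_cast hK
  have hK0 : (0 : ℝ) < K := by linarith
  obtain ⟨N, hN⟩ : ∃ N : ℝ, N = (n : ℝ) / K := ⟨_, rfl⟩
  have hζN : 1 ≤ ζ * N := by
    rw [hN, ← mul_div_assoc, le_div_iff₀ hK0]
    linarith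
  have hN0 : 0 < N := by
    by_contra hcon
    push Not at hcon
    nlinarith
  have hKζ : 0 ≤ K * ζ := by positivity
  have h4 : 8000 * (K * ζ) ≤ 1 := by nlinarith
  have hζ1 : 16000 * ζ ≤ 1 := by nlinarith
  have hdeg : ∀ y a, (1 - ζ) * N ≤ ((nbr c y a).card : ℝ) := by
    intro y a
    rw [hN]
    exact hS.deg y a
  have hup : ∀ y a, ((nbr c y a).card : ℝ) ≤ (1 + K * ζ) * N := by
    intro y a
    rw [hN]
    exact card_le hS hζ (by omega) y a
  have h2 : ∀ b a a', (ecount c x b a a' : ℝ) ≤ 400 * K * ζ * N ^ 2 ∨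
      (1 - 400 * K * ζ) * N ^ 2 ≤ (ecount c x b a a' : ℝ) := by
    intro b a a'
    rw [hN]
    exact h n K c ζ hK hζ (by nlinarith [mul_nonneg (mul_nonneg hK0.le hK0.le) hζ]) hn hS x b a a'
  -- the large entry of a row
  have hex : ∀ b a, ∃ a', (1 - 400 * K * ζ) * N ^ 2 ≤ (ecount c x b a a' : ℝ) := by
    intro b a
    by_contra hcon
    push Not at hcon
    have h5 : ((∑ a', ecount c x b a a' : ℕ) : ℝ) ≤ K * (400 * K * ζ * N ^ 2) := by
      push_cast
      refine (Finset.sum_le_sum (g := fun _ => 400 * K * ζ * N ^ 2) fun a' _ => ?_).trans ?_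
      · rcases h2 b a a' with h6 | h6
        · exact h6
        · exact absurd h6 (not_le.mpr (hcon a'))
      · rw [Finset.sum_const, Finset.card_univ, Fintype.card_fin, nsmul_eq_mul]
    rw [sum_ecount] at h5
    push_cast at h5
    have h6 : ∑ z ∈ nbr c x a, ((1 - ζ) * N - 1) ≤
        ∑ z ∈ nbr c x a, (((nbr c z b).erase x).card : ℝ) := by
      refine Finset.sum_le_sum fun z _ => ?_
      have h7 : (nbr c z b).card ≤ ((nbr c z b).erase x).card + 1 := by
        have := Finset.pred_card_le_card_erase (s := nbr c z b) (a := x)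
        omega
      have h8 : ((nbr c z b).card : ℝ) ≤ (((nbr c z b).erase x).card : ℝ) + 1 := by
        exact_mod_cast h7
      linarith [hdeg z b]
    rw [Finset.sum_const, nsmul_eq_mul] at h6
    have h7 := hdeg x a
    have h8 : (1 - 2 * ζ) * N ≤ (1 - ζ) * N - 1 := by nlinarith
    have h9 : 0 ≤ (1 - 2 * ζ) * N := mul_nonneg (by linarith) hN0.le
    have h10 : 0 ≤ (1 - ζ) * N := mul_nonneg (by linarith) hN0.le
    have h11 : (1 - ζ) * N * ((1 - 2 * ζ) * N) ≤ ((nbr c x a).card : ℝ) * ((1 - ζ) * N - 1) :=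
      mul_le_mul h7 h8 h9 (by positivity)
    have h12 : (1 - ζ) * N * ((1 - 2 * ζ) * N) ≤ K * (400 * K * ζ * N ^ 2) :=
      h11.trans (h6.trans h5)
    have h13 : K * (400 * K * ζ * N ^ 2) ≤ 1 / 10 * N ^ 2 := by
      have h14 : K * (400 * K * ζ) ≤ 1 / 10 := by nlinarith
      nlinarith [sq_nonneg N]
    have h14 : 0 < N ^ 2 := by positivity
    have h15 : (1 - 3 * ζ) * N ^ 2 ≤ (1 - ζ) * N * ((1 - 2 * ζ) * N) := by
      nlinarith [mul_nonneg (mul_nonneg hζ hζ) h14.le]
    nlinarith
  choose σ hσ using hex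
  refine ⟨σ, ?_, ?_, ?_⟩
  · intro b a
    rw [← hN]
    exact hσ b a
  · intro b a
    by_contra hne
    have h5 := hσ b (σ b a)
    have h6 := hσ b a
    rw [ecount_symm] at h6
    have h7 : (ecount c x b (σ b a) (σ b (σ b a)) : ℝ) + ecount c x b (σ b a) a ≤
        ((1 + K * ζ) * N) * ((1 + K * ζ) * N) := by
      have h8 : ecount c x b (σ b a) (σ b (σ b a)) + ecount c x b (σ b a) a ≤
          ∑ a', ecount c x b (σ b a) a' := by
        rw [← Finset.sum_pair hne]
        exact Finset.sum_le_sum_of_subset (subset_univ _)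
      rw [sum_ecount] at h8
      have h9 : (ecount c x b (σ b a) (σ b (σ b a)) : ℝ) + ecount c x b (σ b a) a ≤
          ∑ z ∈ nbr c x (σ b a), (((nbr c z b).erase x).card : ℝ) := by exact_mod_cast h8
      refine h9.trans ((Finset.sum_le_sum (g := fun _ => (1 + K * ζ) * N) fun z _ => ?_).trans ?_)
      · refine le_trans ?_ (hup z b)
        exact_mod_cast Finset.card_le_card (Finset.erase_subset _ _)
      · rw [Finset.sum_const, nsmul_eq_mul]
        exact mul_le_mul_of_nonneg_right (hup x _) (by positivity)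
    exact contra hK hζ hK2 hN0 h5 h6 h7
  · intro a a'
    have hinj : Function.Injective (fun b => σ b a) := by
      intro b b' hbb
      by_contra hne
      have hbb' : σ b a = σ b' a := hbb
      have h5 := hσ b a
      have h6 := hσ b' a
      rw [← hbb'] at h6
      have h7 : (ecount c x b a (σ b a) : ℝ) + ecount c x b' a (σ b a) ≤
          ((1 + K * ζ) * N) * ((1 + K * ζ) * N) := by
        have h8 : ecount c x b a (σ b a) + ecount c x b' a (σ b a) ≤
            ∑ z ∈ nbr c x a, (nbr c x (σ b a)).card := by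
          unfold ecount
          rw [← Finset.sum_add_distrib]
          refine Finset.sum_le_sum fun z _ => ?_
          rw [← Finset.card_union_of_disjoint]
          · refine Finset.card_le_card ?_
            exact Finset.union_subset Finset.inter_subset_right Finset.inter_subset_right
          · rw [Finset.disjoint_left]
            intro y hy hy'
            rw [mem_inter, mem_nbr] at hy hy'
            exact hne (hy.1.2.symm.trans hy'.1.2)
        rw [Finset.sum_const, smul_eq_mul] at h8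
        have h9 : (ecount c x b a (σ b a) : ℝ) + ecount c x b' a (σ b a) ≤
            ((nbr c x a).card : ℝ) * (nbr c x (σ b a)).card := by exact_mod_cast h8
        exact h9.trans (mul_le_mul (hup _ _) (hup _ _) (by positivity) (by positivity))
      exact contra hK hζ hK2 hN0 h5 h6 h7
    exact Finite.surjective_of_injective hinj a'

end Pool.Agent.Lib.MP_b1acb3_co.Uni
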