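import Pool.Agent.Lib.MP_b1acb3_co.Uni.Stmts

/-!
(G1) Long rainbow paths from the sets `reach`.
-/

namespace Pool.Agent.Lib.MP_b1acb3_co.Uni

open Finset

theorem many_of_app {n K : ℕ} (hn : 0 < n) (c : Sym2 (Fin n) → Fin K)
    (B : Fin K → Matrix (Fin n) (Fin n) ℝ) (θ δ : ℝ) (hδ : 0 ≤ δ) (hK : 0 < K)
    (hδθ : K * δ ≤ θ / 2)
    (hB : ∀ k i j, B k i j ≤ (if c s(i, j) = k then 1 else 0) + δ) (a : Fin K)
    (S : Finset (Fin n)) (y : Fin n) (h : θ < app (Cyc.nrm B) a S y) :
    θ * n / (2 * K) < ((S.filter (fun j => c s(y, j) = a)).card : ℝ) := by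
  have hnR : (0 : ℝ) < n := by exact_mod_cast hn
  have hKR : (0 : ℝ) < K := by exact_mod_cast hK
  have h1 : app (Cyc.nrm B) a S y ≤
      (K : ℝ) / n * (((S.filter (fun j => c s(y, j) = a)).card : ℝ) + n * δ) := by
    unfold app Cyc.nrm
    simp only [Matrix.smul_apply, smul_eq_mul]
    rw [← mul_sum]
    apply mul_le_mul_of_nonneg_left _ (by positivity)
    calc ∑ j ∈ S, B a y j ≤ ∑ j ∈ S, ((if c s(y, j) = a then 1 else 0) + δ) :=
          sum_le_sum fun j _ => hB a y j
      _ = ((S.filter (fun j => c s(y, j) = a)).card : ℝ) + S.card * δ := by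
          rw [sum_add_distrib, sum_const, nsmul_eq_mul, sum_boole]
      _ ≤ _ := by
          have h2 : (S.card : ℝ) ≤ n := by
            have := card_le_univ S
            rw [Fintype.card_fin] at this
            exact_mod_cast this
          have := mul_le_mul_of_nonneg_right h2 hδ
          linarith
  have h3 : (K : ℝ) / n * (((S.filter (fun j => c s(y, j) = a)).card : ℝ) + n * δ) =
      (K : ℝ) / n * ((S.filter (fun j => c s(y, j) = a)).card : ℝ) + K * δ := by
    field_simp
  have h4 : θ / 2 < (K : ℝ) / n * ((S.filter (fun j => c s(y, j) = a)).card : ℝ) := by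
    linarith
  rw [div_mul_eq_mul_div, lt_div_iff₀ hnR] at h4
  rw [div_lt_iff₀ (by positivity)]
  linarith

theorem thmG1 : StG1 := by
  classical
  intro K θ hK hθ
  have hKR : (0 : ℝ) < K := by exact_mod_cast hK
  refine ⟨θ / (2 * K), by positivity, ?_⟩
  intro v
  obtain ⟨n₀, hn₀⟩ := exists_nat_gt (((v : ℝ) + K + 3) * (2 * K) / θ)
  refine ⟨n₀ + 1, ?_⟩
  intro n hn c B _ hB x Q y Z hQ hyx hy hZ
  have hn0 : 0 < n := by omega
  have hbig : (v : ℝ) + K + 3 < θ * n / (2 * K) := by
    rw [lt_div_iff₀ (by positivity)]
    rw [div_lt_iff₀ hθ] at hn₀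
    have h1 : (n₀ : ℝ) ≤ n := by
      have : n₀ ≤ n := by omega
      exact_mod_cast this
    have h2 := mul_le_mul_of_nonneg_left h1 hθ.le
    linarith
  have hδθ : (K : ℝ) * (θ / (2 * K)) ≤ θ / 2 := by
    apply le_of_eq
    field_simp
  -- induction
  have key : ∀ (k : ℕ) (Q : Finset (Fin K)) (y : Fin n) (Z : Finset (Fin n)),
      Q.card = k + 1 → y ≠ x → y ∈ reachN c (Cyc.nrm B) θ x (k + 1) Q →
      Z.card + (k + 1) ≤ v + K →
      ∃ z : ℕ → Fin n, z 0 = x ∧ z (k + 1) = y ∧ (∀ i, i < k + 1 → c s(z i, z (i + 1)) ∈ Q) ∧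
      (∀ i j, i < k + 1 → j < k + 1 → c s(z i, z (i + 1)) = c s(z j, z (j + 1)) → i = j) ∧
      (∀ i, 1 ≤ i → i < k + 1 → z i ∉ Z) ∧
      (∀ i j, i ≤ k + 1 → j ≤ k + 1 → z i = z j → i = j) := by
    intro k
    induction k with
    | zero =>
      intro Q y Z hQ hyx hy hZ
      refine ⟨fun i => if i = 0 then x else y, by simp, by simp, ?_, ?_, ?_, ?_⟩
      · intro i hi
        have hi0 : i = 0 := by omega
        subst hi0
        simp only [reachN, mem_filter, mem_univ, true_and] at hy
        simpa using hy.2
      · intro i j hi hj _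
        omega
      · intro i hi1 hi2
        omega
      · intro i j hi hj hij
        by_cases hi0 : i = 0
        · by_cases hj0 : j = 0
          · omega
          · simp only [hi0, hj0, if_true, if_false] at hij
            exact absurd hij.symm hyx
        · by_cases hj0 : j = 0
          · simp only [hi0, hj0, if_true, if_false] at hij
            exact absurd hij hyx
          · omega
    | succ k ih =>
      intro Q y Z hQ hyx hy hZ
      simp only [reachN, mem_filter, mem_univ, true_and] at hy
      obtain ⟨a, haQ, ha⟩ := hy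
      have h1 := many_of_app hn0 c B θ (θ / (2 * K)) (by positivity) hK hδθ hB a _ y ha
      have h2 : ∃ j ∈ (reachN c (Cyc.nrm B) θ x (k + 1) (Q.erase a)).filter
          (fun j => c s(y, j) = a), j ∉ insert x (insert y Z) := by
        by_contra hcon
        push Not at hcon
        have h3 := card_le_card (show _ ⊆ insert x (insert y Z) from fun j hj => hcon j hj)
        have h4 : (insert x (insert y Z)).card ≤ Z.card + 2 :=
          (card_insert_le _ _).trans (by have := card_insert_le y Z; omega)
        have h5 : (((reachN c (Cyc.nrm B) θ x (k + 1) (Q.erase a)).filter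
          (fun j => c s(y, j) = a)).card : ℝ) ≤ (v : ℝ) + K + 2 := by
          have h6 : ((reachN c (Cyc.nrm B) θ x (k + 1) (Q.erase a)).filter
            (fun j => c s(y, j) = a)).card ≤ v + K + 2 := by omega
          exact_mod_cast h6
        linarith
      obtain ⟨j, hj, hjZ⟩ := h2
      rw [mem_filter] at hj
      simp only [mem_insert, not_or] at hjZ
      obtain ⟨hjx, hjy, hjZ⟩ := hjZ
      have hQe : (Q.erase a).card = k + 1 := by
        rw [card_erase_of_mem haQ, hQ]
        omega
      obtain ⟨z, hz0, hz1, hz2, hz3, hz4, hz5⟩ := ih (Q.erase a) j (insert y Z) hQe hjx hj.1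
        (by have := card_insert_le y Z; omega)
      have hlast : c s(j, y) = a := by
        rw [Sym2.eq_swap]
        exact hj.2
      have hzy : ∀ i, i ≤ k + 1 → z i ≠ y := by
        intro i hi h
        rcases Nat.eq_zero_or_pos i with rfl | hi0
        · rw [hz0] at h
          exact hyx h.symm
        · rcases Nat.lt_or_ge i (k + 1) with h3 | h3
          · exact hz4 i hi0 h3 (h ▸ mem_insert_self y Z)
          · have : i = k + 1 := by omega
            rw [this, hz1] at h
            exact hjy h
      set z' : ℕ → Fin n := fun i => if i ≤ k + 1 then z i else y with hz'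
      have hz'1 : ∀ i, i ≤ k + 1 → z' i = z i := by
        intro i hi
        simp only [hz', if_pos hi]
      have hz'2 : z' (k + 1 + 1) = y := by
        simp only [hz']
        rw [if_neg (by omega)]
      have hcol : ∀ i, i < k + 1 → c s(z' i, z' (i + 1)) = c s(z i, z (i + 1)) := by
        intro i hi
        rw [hz'1 i (by omega), hz'1 (i + 1) (by omega)]
      have hcol2 : c s(z' (k + 1), z' (k + 1 + 1)) = a := by
        rw [hz'1 (k + 1) le_rfl, hz'2, hz1]
        exact hlast
      refine ⟨z', ?_, hz'2, ?_, ?_, ?_, ?_⟩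
      · rw [hz'1 0 (by omega), hz0]
      · intro i hi
        rcases Nat.lt_or_ge i (k + 1) with h3 | h3
        · rw [hcol i h3]
          exact mem_of_mem_erase (hz2 i h3)
        · have : i = k + 1 := by omega
          rw [this, hcol2]
          exact haQ
      · intro i i' hi hi' hii
        rcases Nat.lt_or_ge i (k + 1) with h3 | h3
        · rcases Nat.lt_or_ge i' (k + 1) with h4 | h4
          · rw [hcol i h3, hcol i' h4] at hii
            exact hz3 i i' h3 h4 hii
          · exfalso
            have h5 : i' = k + 1 := by omega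
            rw [h5, hcol2, hcol i h3] at hii
            exact ne_of_mem_erase (hz2 i h3) hii
        · rcases Nat.lt_or_ge i' (k + 1) with h4 | h4
          · exfalso
            have h5 : i = k + 1 := by omega
            rw [h5, hcol2, hcol i' h4] at hii
            exact ne_of_mem_erase (hz2 i' h4) hii.symm
          · omega
      · intro i hi1 hi2
        rw [hz'1 i (by omega)]
        rcases Nat.lt_or_ge i (k + 1) with h3 | h3
        · exact fun h => hz4 i hi1 h3 (mem_insert_of_mem h)
        · have : i = k + 1 := by omega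
          rw [this, hz1]
          exact hjZ
      · intro i i' hi hi' hii
        rcases Nat.lt_or_ge i (k + 1 + 1) with h3 | h3
        · rcases Nat.lt_or_ge i' (k + 1 + 1) with h4 | h4
          · rw [hz'1 i (by omega), hz'1 i' (by omega)] at hii
            exact hz5 i i' (by omega) (by omega) hii
          · exfalso
            have h5 : i' = k + 1 + 1 := by omega
            rw [h5, hz'2, hz'1 i (by omega)] at hii
            exact hzy i (by omega) hii
        · rcases Nat.lt_or_ge i' (k + 1 + 1) with h4 | h4
          · exfalso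
            have h5 : i = k + 1 + 1 := by omega
            rw [h5, hz'2, hz'1 i' (by omega)] at hii
            exact hzy i' (by omega) hii.symm
          · omega
  have hcard : 0 < Q.card := card_pos.2 hQ
  obtain ⟨k, hk⟩ : ∃ k, Q.card = k + 1 := ⟨Q.card - 1, by omega⟩
  have hQK : Q.card ≤ K := by
    have := card_le_univ Q
    rwa [Fintype.card_fin] at this
  unfold reach at hy
  rw [hk] at hy ⊢
  exact key k Q y Z hk hyx hy (by omega)

end Pool.Agent.Lib.MP_b1acb3_co.Uni
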