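import Pool.Agent.Lib.MP_b1acb3_co.Uni.Stmts

/-!
Modules (R1) and (R2): densities of the sets `R Q`.
-/

namespace Pool.Agent.Lib.MP_b1acb3_co.Uni

open Finset

namespace R

variable {n K : ℕ} {P : Fin K → Matrix (Fin n) (Fin n) ℝ} {R : Finset (Fin K) → Finset (Fin n)}
  {θ : ℝ} {d : ℕ}

/-- Adding the colours of `S`. -/
theorem grow_union (h : Sys P R θ d) (Q S : Finset (Fin K)) :
    Disjoint Q S → mu (R Q) ≤ mu (R (Q ∪ S)) + S.card * θ := by
  induction S using Finset.induction_on with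
  | empty =>
    intro _
    simp
  | insert c S hc ih =>
    intro hd
    rw [disjoint_insert_right] at hd
    have h1 := ih hd.2
    have hc2 : c ∉ Q ∪ S := by
      rw [mem_union, not_or]
      exact ⟨hd.1, hc⟩
    have h2 := mu_grow h.markov R θ h.nonneg h.grow (Q ∪ S) c hc2
    have h3 : insert c (Q ∪ S) = Q ∪ insert c S := by
      rw [union_insert]
    rw [h3] at h2
    rw [card_insert_of_notMem hc]
    push_cast
    linarith

theorem grow_sub (h : Sys P R θ d) (Q Q' : Finset (Fin K)) (hQ : Q ⊆ Q') :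
    mu (R Q) ≤ mu (R Q') + ((Q'.card : ℝ) - Q.card) * θ := by
  have h1 := grow_union h Q (Q' \ Q) disjoint_sdiff
  rw [union_sdiff_of_subset hQ] at h1
  have h2 : (((Q' \ Q).card : ℕ) : ℝ) = (Q'.card : ℝ) - Q.card := by
    rw [card_sdiff_of_subset hQ, Nat.cast_sub (card_le_card hQ)]
  rw [h2] at h1
  exact h1

theorem card_le (Q : Finset (Fin K)) : (Q.card : ℝ) ≤ K := by
  have := card_le_univ Q
  rw [Fintype.card_fin] at this
  exact_mod_cast this

theorem inter_rem (h : Sys P R θ d) (j : ℕ) (Q U' : Finset (Fin K))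
    (hQ : Disjoint Q U') (hU : U'.Nonempty) (hc : Q.card + U'.card + d = K + j) :
    mu (R U' ∩ rem R j Q) ≤ (K : ℝ) ^ j * θ := by
  have h1 : R U' ∩ rem R j Q = (Q.powersetCard j).biUnion (fun A => R U' ∩ R (Q \ A)) := by
    unfold rem
    rw [inter_biUnion]
  rw [h1]
  have h2 := mu_biUnion_le (Q.powersetCard j) (fun A => R U' ∩ R (Q \ A))
  have h3 : ∑ A ∈ Q.powersetCard j, mu (R U' ∩ R (Q \ A)) ≤ ∑ A ∈ Q.powersetCard j, θ := by
    apply sum_le_sum
    intro A hA
    rw [mem_powersetCard] at hA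
    by_cases hne : (Q \ A).Nonempty
    · rw [inter_comm]
      apply h.excl (Q \ A) U' hne hU
      · exact hQ.mono_left sdiff_subset
      · have h4 : (Q \ A).card = Q.card - A.card := card_sdiff_of_subset hA.1
        have h5 := card_le_card hA.1
        omega
    · rw [not_nonempty_iff_eq_empty] at hne
      rw [hne, h.empty, inter_empty, mu_empty]
      exact h.nonneg
  rw [sum_const, nsmul_eq_mul, card_powersetCard] at h3
  have h4 : ((Q.card.choose j : ℕ) : ℝ) ≤ (K : ℝ) ^ j := by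
    have h5 : Q.card ≤ K := by
      have := card_le_univ Q
      rwa [Fintype.card_fin] at this
    have h6 : Q.card.choose j ≤ K ^ j :=
      (Nat.choose_le_pow Q.card j).trans (Nat.pow_le_pow_left h5 j)
    exact_mod_cast h6
  calc _ ≤ _ := h2
    _ ≤ _ := h3
    _ ≤ _ := mul_le_mul_of_nonneg_right h4 h.nonneg

end R

/-- (R1) densities of the sets `R Q`. -/
theorem thmR1 : StR1 := by
  intro n K P R θ d h
  constructor
  · intro Q hQ
    obtain ⟨a, ha⟩ := hQ
    have h1 := Uni.R.grow_sub h {a} Q (singleton_subset_iff.2 ha)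
    have h2 := h.start a
    have h3 := Uni.R.card_le Q
    rw [card_singleton] at h1
    have hK : (0 : ℝ) < K := by
      have := h.markov.kpos
      exact_mod_cast this
    have h4 : ((Q.card : ℝ) - (1 : ℕ)) * θ ≤ ((K : ℝ) - 1) * θ := by
      apply mul_le_mul_of_nonneg_right _ h.nonneg
      push_cast
      linarith
    have h5 : 1 / (K : ℝ) - K * θ ≤ mu (R Q) := by
      linarith
    have h6 := mul_le_mul_of_nonneg_left h5 hK.le
    have h7 : (K : ℝ) * (1 / (K : ℝ) - K * θ) = 1 - K ^ 2 * θ := by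
      field_simp
    rw [h7] at h6
    exact h6
  · intro Q Q' hQ
    have h1 := Uni.R.grow_sub h Q Q' hQ
    have h2 := Uni.R.card_le Q'
    have h3 : ((Q'.card : ℝ) - Q.card) * θ ≤ K * θ := by
      apply mul_le_mul_of_nonneg_right _ h.nonneg
      have : (0 : ℝ) ≤ Q.card := Nat.cast_nonneg _
      linarith
    linarith

/-- (R2) `rem R j Q` misses `R U'`. -/
theorem thmR2 : StR2 := by
  intro n K P R θ d j h _ Q U' hQ hU hc
  have h1 := Uni.R.inter_rem h j Q U' hQ hU hc
  have h2 := mu_union_add_inter (R U') (rem R j Q)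
  have h3 := mu_le_one (R U' ∪ rem R j Q)
  have h4 : mu (R U') ≤ 1 - mu (rem R j Q) + (K : ℝ) ^ j * θ := by linarith
  have hK : (0 : ℝ) ≤ K := Nat.cast_nonneg K
  have h5 := mul_le_mul_of_nonneg_left h4 hK
  unfold dfc
  calc (K : ℝ) * mu (R U') ≤ K * (1 - mu (rem R j Q) + (K : ℝ) ^ j * θ) := h5
    _ = K * (1 - mu (rem R j Q)) + K ^ (j + 1) * θ := by ring

end Pool.Agent.Lib.MP_b1acb3_co.Uni
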