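import Pool.Agent.Lib.MP_b1acb3_co.Uni.Stmts

/-!
Conclusion of the analytic part for `d = 2`.
-/

namespace Pool.Agent.Lib.MP_b1acb3_co.Uni

open Finset

theorem small_theta {K : ℕ} {θ : ℝ} (hK : 12 ≤ K) (hθ : 0 ≤ θ) (h : θ * K ^ 20 ≤ 1) :
    100 * (K : ℝ) ^ 6 * θ ≤ 1 := by
  have hK' : (12 : ℝ) ≤ K := by exact_mod_cast hK
  have h1 : (100 : ℝ) ≤ (K : ℝ) ^ 14 := by
    calc (100 : ℝ) ≤ 12 ^ 14 := by norm_num
      _ ≤ (K : ℝ) ^ 14 := pow_le_pow_left₀ (by norm_num) hK' 14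
  calc 100 * (K : ℝ) ^ 6 * θ ≤ (K : ℝ) ^ 14 * (K : ℝ) ^ 6 * θ := by gcongr
    _ = θ * K ^ 20 := by ring
    _ ≤ 1 := h

theorem dfc_ge_half (h1 : StR1) (h2 : StR2) {n K : ℕ} (P : Fin K → Matrix (Fin n) (Fin n) ℝ)
    (R : Finset (Fin K) → Finset (Fin n)) (θ : ℝ) (hS : Sys P R θ 2) (hK : 12 ≤ K)
    (hθ : 100 * (K : ℝ) ^ 6 * θ ≤ 1) (Q : Finset (Fin K)) (hQ : Q.card < K) :
    1 - 2 * (K : ℝ) ^ 3 * θ ≤ dfc (rem R 2) Q ∧ 1 / 2 ≤ dfc (rem R 2) Q := by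
  have hne : Qᶜ.Nonempty := by
    rw [← card_pos, card_compl, Fintype.card_fin]
    omega
  have h3 := (h1 n K P R θ 2 hS).1 Qᶜ hne
  have h4 := h2 n K P R θ 2 2 hS le_rfl Q Qᶜ disjoint_compl_right hne (by
    rw [card_compl, Fintype.card_fin]
    omega)
  have hK' : (12 : ℝ) ≤ K := by exact_mod_cast hK
  have hθ0 := hS.nonneg
  have h5 : (K : ℝ) ^ 2 * θ ≤ (K : ℝ) ^ 3 * θ := by
    apply mul_le_mul_of_nonneg_right _ hθ0
    exact pow_le_pow_right₀ (by linarith) (by norm_num)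
  have h6 : (K : ℝ) ^ 3 * θ ≤ (K : ℝ) ^ 6 * θ := by
    apply mul_le_mul_of_nonneg_right _ hθ0
    exact pow_le_pow_right₀ (by linarith) (by norm_num)
  norm_num at h4
  constructor
  · linarith
  · linarith

theorem thmTwo (hRec : StRec) (hSeq : StSeq) (hPair : StPair) (hL : StL) (h1 : StR1)
    (h2 : StR2) : StTwo := by
  obtain ⟨K₁, hK₁⟩ := hSeq
  obtain ⟨K₂, hK₂⟩ := hPair
  refine ⟨max 12 (max K₁ K₂), ?_⟩
  intro K hK n P R θ hS hθ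
  have hK12 : 12 ≤ K := (le_max_left _ _).trans hK
  have hKK₁ : K₁ ≤ K := ((le_max_left _ _).trans (le_max_right _ _)).trans hK
  have hKK₂ : K₂ ≤ K := ((le_max_right _ _).trans (le_max_right _ _)).trans hK
  have hθ6 := small_theta hK12 hS.nonneg hθ
  obtain ⟨i, hi1, hi2, hi3⟩ := hK₁ K hKK₁ (lamE (rem R 2)) θ hS.nonneg hθ
    (by
      intro i hi hi4
      have hg := grows_rem hS.markov R θ hS.nonneg hS.grow 2
      refine (hL n K P (rem R 2) ((K : ℝ) ^ 2 * θ) i hS.markov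
        (mul_nonneg (by positivity) hS.nonneg) hg (by omega) ?_).2.2.2
      intro Q hQ
      exact (dfc_ge_half h1 h2 P R θ hS hK12 hθ6 Q (by omega)).2)
    (fun i hi hi2 hi3 => hRec n K P R θ hS hK12 hθ6 i hi hi2 hi3)
  exact hK₂ K hKK₂ n P R θ hS hθ i hi1 hi2 hi3

end Pool.Agent.Lib.MP_b1acb3_co.Uni
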