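import Pool.Agent.Lib.MP_b1acb3_co.Uni.Stmts

/-!
Module (B): comparison of the inner products for `Q` and `Q ∪ {c'}`.
-/

namespace Pool.Agent.Lib.MP_b1acb3_co.Uni

open Finset

variable {n K : ℕ} {P : Fin K → Matrix (Fin n) (Fin n) ℝ}

theorem B_sum_app (hP : Markov P) (c : Fin K) (S : Finset (Fin n)) :
    ∑ y, app P c S y = S.card := by
  rw [sum_app_symm hP c S univ, sum_congr rfl fun y _ => app_univ hP c y, sum_const,
    nsmul_eq_mul, mul_one]

theorem B_core (hP : Markov P) (A Bs : Finset (Fin n)) (c' : Fin K) (C : Finset (Fin K))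
    (η : ℝ) (hη : 0 ≤ η) (hB : ∀ y ∈ Bs, 1 - η ≤ app P c' A y) :
    ∑ c ∈ C, ∑ y, app P c A y * app P c' A y ≤
      ∑ c ∈ C, ∑ y, app P c Bs y * app P c' Bs y +
        (K * mu A + K * mu Bs) * ((A.card : ℝ) - Bs.card + η * n) := by
  have hKA : 0 ≤ K * mu A := mul_nonneg (Nat.cast_nonneg K) (mu_nonneg A)
  have hKB : 0 ≤ K * mu Bs := mul_nonneg (Nat.cast_nonneg K) (mu_nonneg Bs)
  have hcard : (Bs.card : ℝ) ≤ n := by
    have := card_le_univ Bs
    rw [Fintype.card_fin] at this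
    exact_mod_cast this
  have h0 : (Bs.card : ℝ) - η * n ≤ ∑ y ∈ Bs, app P c' A y := by
    have h : ∑ _y ∈ Bs, (1 - η) ≤ ∑ y ∈ Bs, app P c' A y := sum_le_sum hB
    rw [sum_const, nsmul_eq_mul] at h
    have h2 : η * Bs.card ≤ η * n := mul_le_mul_of_nonneg_left hcard hη
    linarith
  have h1 : ∑ y ∈ Bsᶜ, app P c' A y ≤ (A.card : ℝ) - Bs.card + η * n := by
    have h := sum_add_sum_compl Bs (fun y => app P c' A y)
    rw [B_sum_app hP c' A] at h
    linarith
  have h2 : ∑ c ∈ C, ∑ y ∈ Bsᶜ, app P c A y * app P c' A y ≤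
      K * mu A * ((A.card : ℝ) - Bs.card + η * n) := by
    rw [sum_comm]
    calc ∑ y ∈ Bsᶜ, ∑ c ∈ C, app P c A y * app P c' A y
        ≤ ∑ y ∈ Bsᶜ, K * mu A * app P c' A y := by
          apply sum_le_sum
          intro y _
          rw [← sum_mul]
          exact mul_le_mul_of_nonneg_right (sum_app_le hP C A y) (app_nonneg hP c' A y)
      _ = K * mu A * ∑ y ∈ Bsᶜ, app P c' A y := by rw [mul_sum]
      _ ≤ _ := mul_le_mul_of_nonneg_left h1 hKA
  have h3 : ∑ c ∈ C, ∑ y ∈ Bs, app P c A y * app P c' A y ≤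
      ∑ c ∈ C, ∑ j ∈ A, app P c Bs j := by
    apply sum_le_sum
    intro c _
    rw [← sum_app_symm hP c A Bs]
    apply sum_le_sum
    intro y _
    exact mul_le_of_le_one_right (app_nonneg hP c A y) (app_le_one hP c' A y)
  have h4 : ∑ c ∈ C, ∑ j ∈ A, app P c Bs j * (1 - app P c' Bs j) ≤
      K * mu Bs * ((A.card : ℝ) - Bs.card + η * n) := by
    rw [sum_comm]
    calc ∑ j ∈ A, ∑ c ∈ C, app P c Bs j * (1 - app P c' Bs j)
        ≤ ∑ j ∈ A, K * mu Bs * (1 - app P c' Bs j) := by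
          apply sum_le_sum
          intro j _
          rw [← sum_mul]
          exact mul_le_mul_of_nonneg_right (sum_app_le hP C Bs j)
            (by have := app_le_one hP c' Bs j; linarith)
      _ = K * mu Bs * ((A.card : ℝ) - ∑ j ∈ A, app P c' Bs j) := by
          rw [← mul_sum, sum_sub_distrib, sum_const, nsmul_eq_mul, mul_one]
      _ ≤ _ := by
          apply mul_le_mul_of_nonneg_left _ hKB
          rw [← sum_app_symm hP c' A Bs]
          linarith
  have h5 : ∑ c ∈ C, ∑ j ∈ A, app P c Bs j * app P c' Bs j ≤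
      ∑ c ∈ C, ∑ j, app P c Bs j * app P c' Bs j := by
    apply sum_le_sum
    intro c _
    exact sum_le_sum_of_subset_of_nonneg (subset_univ A)
      fun j _ _ => mul_nonneg (app_nonneg hP c Bs j) (app_nonneg hP c' Bs j)
  have h6 : ∑ c ∈ C, ∑ j ∈ A, app P c Bs j =
      ∑ c ∈ C, ∑ j ∈ A, app P c Bs j * app P c' Bs j +
        ∑ c ∈ C, ∑ j ∈ A, app P c Bs j * (1 - app P c' Bs j) := by
    rw [← sum_add_distrib]
    apply sum_congr rfl
    intro c _
    rw [← sum_add_distrib]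
    apply sum_congr rfl
    intro j _
    ring
  have h7 : ∑ c ∈ C, ∑ y, app P c A y * app P c' A y =
      ∑ c ∈ C, ∑ y ∈ Bs, app P c A y * app P c' A y +
        ∑ c ∈ C, ∑ y ∈ Bsᶜ, app P c A y * app P c' A y := by
    rw [← sum_add_distrib]
    apply sum_congr rfl
    intro c _
    rw [sum_add_sum_compl]
  rw [h7]
  have h8 : (K * mu A + K * mu Bs) * ((A.card : ℝ) - Bs.card + η * n) =
      K * mu A * ((A.card : ℝ) - Bs.card + η * n) +
        K * mu Bs * ((A.card : ℝ) - Bs.card + η * n) := by ring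
  linarith

theorem thmB : StB := by
  intro n K P F η hP hη hF Q c' hc'
  have hn : (0 : ℝ) < n := by exact_mod_cast hP.npos
  have hK : (0 : ℝ) < K := by exact_mod_cast hP.kpos
  have hB : ∀ y ∈ (F (insert c' Q))ᶜ, 1 - η ≤ app P c' (F Q)ᶜ y := by
    intro y hy
    rw [mem_compl] at hy
    rw [app_compl hP]
    have := hF Q c' hc' y hy
    linarith
  have h := B_core hP (F Q)ᶜ (F (insert c' Q))ᶜ c' (Qᶜ.erase c') η hη hB
  have h2 := div_le_div_of_nonneg_right h hn.le
  rw [add_div, sum_div, sum_div] at h2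
  unfold avg
  refine h2.trans (le_of_eq ?_)
  congr 1
  rw [dfc_eq hP.npos, dfc_eq hP.npos]
  have e : ∀ S : Finset (Fin n), (S.card : ℝ) = n * mu S := by
    intro S
    unfold mu
    field_simp
  rw [e (F Q)ᶜ, e (F (insert c' Q))ᶜ]
  field_simp

end Pool.Agent.Lib.MP_b1acb3_co.Uni
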