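import Pool.Agent.Lib.MP_b1acb3_co.Uni.Stmts

/-!
Module (C): the second moment of `kf`.
-/

namespace Pool.Agent.Lib.MP_b1acb3_co.Uni

open Finset

theorem thmC : StC := by
  intro n K P F hP Q hD
  set D := dfc F Q with hDdef
  set t : ℝ := (Q.card : ℝ) / K with ht
  have hk : avg (kf P F Q) = (1 - t) * D := avg_kf hP F Q
  -- the second moment
  have h2 : avg (fun y => kf P F Q y * kf P F Q y) =
      ∑ c' ∈ Qᶜ, ∑ c ∈ Qᶜ, avg (fun y => app P c (F Q)ᶜ y * app P c' (F Q)ᶜ y) := by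
    have h3 : (fun y => kf P F Q y * kf P F Q y) =
        fun y => ∑ c' ∈ Qᶜ, ∑ c ∈ Qᶜ, app P c (F Q)ᶜ y * app P c' (F Q)ᶜ y := by
      funext y
      unfold kf
      rw [sum_mul_sum, sum_comm]
    rw [h3, avg_sum]
    exact sum_congr rfl fun c' _ => avg_sum _ _
  have h4 : avg (fun y => kf P F Q y * kf P F Q y) ≤ (1 - t) * D + offd P F Q * D ^ 2 := by
    rw [h2]
    have h5 : ∀ c' ∈ Qᶜ, ∑ c ∈ Qᶜ, avg (fun y => app P c (F Q)ᶜ y * app P c' (F Q)ᶜ y) ≤
        avg (fun y => app P c' (F Q)ᶜ y) +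
          ∑ c ∈ Qᶜ.erase c', avg (fun y => app P c (F Q)ᶜ y * app P c' (F Q)ᶜ y) := by
      intro c' hc'
      rw [← add_sum_erase _ _ hc']
      have h6 : avg (fun y => app P c' (F Q)ᶜ y * app P c' (F Q)ᶜ y) ≤
          avg (fun y => app P c' (F Q)ᶜ y) := by
        apply avg_mono
        intro y
        have h7 := app_nonneg hP c' (F Q)ᶜ y
        have h8 := app_le_one hP c' (F Q)ᶜ y
        nlinarith
      linarith
    refine (sum_le_sum h5).trans ?_
    rw [sum_add_distrib]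
    have h9 : ∑ c' ∈ Qᶜ, avg (fun y => app P c' (F Q)ᶜ y) = (1 - t) * D := by
      rw [← hk]
      exact (avg_sum _ _).symm
    have h10 : offd P F Q * D ^ 2 = ∑ c' ∈ Qᶜ, ∑ c ∈ Qᶜ.erase c',
        avg (fun y => app P c (F Q)ᶜ y * app P c' (F Q)ᶜ y) := by
      unfold offd
      rw [← hDdef]
      exact div_mul_cancel₀ _ (by positivity)
    rw [h9, h10]
  have h11 : mh P F Q * D ^ 2 = (1 - t) * D ^ 2 - avg (fun y => kf P F Q y * kf P F Q y) := by
    unfold mh
    rw [← hDdef, div_mul_cancel₀ _ (by positivity)]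
    have h12 : (fun y => kf P F Q y * (D - kf P F Q y)) =
        fun y => D * kf P F Q y - kf P F Q y * kf P F Q y := by
      funext y
      ring
    rw [h12, avg_sub, avg_mul_left, hk]
    ring
  have h13 : (1 - t) * (1 - 1 / D) * D ^ 2 ≤ (mh P F Q + offd P F Q) * D ^ 2 := by
    have h14 : (1 - t) * (1 - 1 / D) * D ^ 2 = (1 - t) * D ^ 2 - (1 - t) * D := by
      field_simp
    rw [h14, add_mul, h11]
    linarith
  exact le_of_mul_le_mul_right h13 (by positivity)

end Pool.Agent.Lib.MP_b1acb3_co.Uni
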