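import Pool.Agent.Lib.MP_b1acb3_co.Uni.Stmts

/-!
Module (Chain): double counting of the pairs `(Q, Q ∪ {c})`.
-/

namespace Pool.Agent.Lib.MP_b1acb3_co.Uni

open Finset

theorem Chain_sum (K i : ℕ) (g : Finset (Fin K) → Fin K → ℝ) :
    ∑ Q ∈ powersetCard i (univ : Finset (Fin K)), ∑ c ∈ Qᶜ, g Q c =
      ∑ Q ∈ powersetCard (i + 1) (univ : Finset (Fin K)), ∑ c ∈ Q, g (Q.erase c) c := by
  rw [sum_sigma', sum_sigma']
  refine sum_bij' (fun x _ => ⟨insert x.2 x.1, x.2⟩) (fun x _ => ⟨x.1.erase x.2, x.2⟩)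
    ?_ ?_ ?_ ?_ ?_
  · rintro ⟨Q, c⟩ h
    simp only [mem_sigma, mem_powersetCard, mem_compl] at h ⊢
    refine ⟨⟨subset_univ _, ?_⟩, mem_insert_self _ _⟩
    rw [card_insert_of_notMem h.2, h.1.2]
  · rintro ⟨Q, c⟩ h
    simp only [mem_sigma, mem_powersetCard, mem_compl] at h ⊢
    refine ⟨⟨subset_univ _, ?_⟩, notMem_erase _ _⟩
    rw [card_erase_of_mem h.2, h.1.2, Nat.add_sub_cancel]
  · rintro ⟨Q, c⟩ h
    simp only [mem_sigma, mem_powersetCard, mem_compl] at h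
    simp only [erase_insert h.2]
  · rintro ⟨Q, c⟩ h
    simp only [mem_sigma, mem_powersetCard] at h
    simp only [insert_erase h.2]
  · rintro ⟨Q, c⟩ h
    simp only [mem_sigma, mem_powersetCard, mem_compl] at h
    simp only [erase_insert h.2]

theorem thmChain : StChain := by
  intro K i g hi
  unfold EQ
  rw [Chain_sum K i g]
  set S := ∑ Q ∈ powersetCard (i + 1) (univ : Finset (Fin K)), ∑ c ∈ Q, g (Q.erase c) c
  have h1 : ((K.choose (i + 1) : ℕ) : ℝ) * ((i : ℝ) + 1) = (K.choose i : ℝ) * ((K : ℝ) - i) := by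
    have h2 := Nat.choose_succ_right_eq K i
    have h3 : (((K - i : ℕ)) : ℝ) = (K : ℝ) - i := Nat.cast_sub (by omega)
    rw [← h3]
    exact_mod_cast h2
  have h4 : (0 : ℝ) < (K.choose (i + 1) : ℝ) := by exact_mod_cast Nat.choose_pos hi
  have h5 : (0 : ℝ) < (K.choose i : ℝ) := by exact_mod_cast Nat.choose_pos (by omega)
  have h6 : (0 : ℝ) < (i : ℝ) + 1 := by positivity
  rw [div_mul_div_comm, div_eq_div_iff h5.ne' (mul_pos h6 h4).ne']
  linear_combination S * h1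

end Pool.Agent.Lib.MP_b1acb3_co.Uni
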