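import Pool.Agent.Lib.MP_b1acb3_co.Uni.Stmts

/-!
(E) lower bound for the mean density of `R'`.
-/

namespace Pool.Agent.Lib.MP_b1acb3_co.Uni

open Finset

namespace ModE

theorem EQ_mono {K i : ℕ} {f g : Finset (Fin K) → ℝ} (h : ∀ Q, Q.card = i → f Q ≤ g Q) :
    EQ K i f ≤ EQ K i g := by
  unfold EQ
  apply div_le_div_of_nonneg_right _ (Nat.cast_nonneg _)
  apply sum_le_sum
  intro Q hQ
  exact h Q (mem_powersetCard.1 hQ).2

theorem EQ_congr {K i : ℕ} {f g : Finset (Fin K) → ℝ} (h : ∀ Q, Q.card = i → f Q = g Q) :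
    EQ K i f = EQ K i g :=
  le_antisymm (EQ_mono fun Q hQ => (h Q hQ).le) (EQ_mono fun Q hQ => (h Q hQ).ge)

theorem EQ_add {K i : ℕ} (f g : Finset (Fin K) → ℝ) :
    EQ K i (fun Q => f Q + g Q) = EQ K i f + EQ K i g := by
  unfold EQ
  rw [sum_add_distrib, add_div]

theorem EQ_mul {K i : ℕ} (a : ℝ) (f : Finset (Fin K) → ℝ) :
    EQ K i (fun Q => a * f Q) = a * EQ K i f := by
  unfold EQ
  rw [← mul_sum, mul_div_assoc]

theorem EQ_const {K i : ℕ} (hi : i ≤ K) (a : ℝ) : EQ K i (fun _ => a) = a := by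
  unfold EQ
  rw [sum_const, card_powersetCard, card_univ, Fintype.card_fin, nsmul_eq_mul]
  have : ((K.choose i : ℕ) : ℝ) ≠ 0 := by
    have := Nat.choose_pos hi
    positivity
  field_simp

theorem EQ_nonneg {K i : ℕ} {f : Finset (Fin K) → ℝ} (h : ∀ Q, 0 ≤ f Q) : 0 ≤ EQ K i f :=
  div_nonneg (sum_nonneg fun Q _ => h Q) (Nat.cast_nonneg _)

theorem EQ_step (hC : StChain) {K i : ℕ} (hi : i + 1 ≤ K) (f : Finset (Fin K) → ℝ) :
    EQ K i (fun Q => ∑ c ∈ Qᶜ, f (insert c Q)) = ((K : ℝ) - i) * EQ K (i + 1) f := by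
  rw [hC K i (fun Q c => f (insert c Q)) hi]
  have h1 : EQ K (i + 1) (fun Q => ∑ c ∈ Q, f (insert c (Q.erase c))) =
      EQ K (i + 1) (fun Q => ((i : ℝ) + 1) * f Q) := by
    apply EQ_congr
    intro Q hQ
    rw [sum_congr rfl fun c hc => by rw [insert_erase hc], sum_const, hQ, nsmul_eq_mul]
    push_cast
    ring
  rw [h1, EQ_mul]
  have : ((i : ℝ) + 1) ≠ 0 := by positivity
  field_simp

theorem bad_nonneg {n K : ℕ} (R : Finset (Fin K) → Finset (Fin n)) (θ : ℝ)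
    (Q : Finset (Fin K)) : 0 ≤ bad R θ Q := by
  unfold bad
  split_ifs <;> norm_num

theorem card_compl_cast {K : ℕ} (Q : Finset (Fin K)) : ((Qᶜ.card : ℕ) : ℝ) = K - Q.card := by
  rw [card_compl, Fintype.card_fin, Nat.cast_sub (by
    have := card_le_univ Q
    rwa [Fintype.card_fin] at this)]

variable {n K : ℕ} {P : Fin K → Matrix (Fin n) (Fin n) ℝ}
  {R : Finset (Fin K) → Finset (Fin n)} {θ : ℝ} {d : ℕ}

theorem bad_mono (hS : Sys P R θ d) (Q : Finset (Fin K)) (c : Fin K) (hc : c ∉ Q) :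
    bad R θ Q ≤ bad R θ (insert c Q) := by
  unfold bad
  by_cases h : 3 / 4 - (Q.card : ℝ) * K * θ ≤ mu (rem R 1 Q)
  · rw [if_pos h, if_pos]
    have h1 := mu_grow hS.markov (rem R 1) ((K : ℝ) ^ 1 * θ)
      (mul_nonneg (by positivity) hS.nonneg) (grows_rem hS.markov R θ hS.nonneg hS.grow 1) Q c hc
    rw [card_insert_of_notMem hc]
    push_cast
    nlinarith
  · rw [if_neg h]
    split_ifs <;> norm_num

/-- the loss as a sum -/
theorem sum_dfc (F : Finset (Fin K) → Finset (Fin n)) (Q : Finset (Fin K)) :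
    ∑ c ∈ Qᶜ, dfc F (insert c Q) = ((K : ℝ) - Q.card) * dfc F Q - loss F Q := by
  unfold loss
  rw [sum_sub_distrib, sum_const, nsmul_eq_mul, card_compl_cast]
  ring

theorem loss_ge (hS : Sys P R θ d) (Q : Finset (Fin K)) :
    -(((K : ℝ) - Q.card) * (K ^ 2 * θ)) ≤ loss (rem R 1) Q := by
  unfold loss
  have h : ∑ _c ∈ Qᶜ, (-((K : ℝ) ^ 2 * θ)) ≤
      ∑ c ∈ Qᶜ, (dfc (rem R 1) Q - dfc (rem R 1) (insert c Q)) := by
    apply sum_le_sum
    intro c hc
    have h1 := dfc_grow hS.markov (rem R 1) ((K : ℝ) ^ 1 * θ)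
      (mul_nonneg (by positivity) hS.nonneg) (grows_rem hS.markov R θ hS.nonneg hS.grow 1) Q c
      (mem_compl.1 hc)
    nlinarith
  rw [sum_const, nsmul_eq_mul, card_compl_cast] at h
  linarith

/-- one step, pointwise -/
theorem point (hI : StI) (hS : Sys P R θ d) {i : ℕ} (hi : 2 ≤ i) (hK : 4 * (i + 1) ≤ K)
    (Q : Finset (Fin K)) (hQ : Q.card = i) :
    ∑ c ∈ Qᶜ, dfc (rem R 1) (insert c Q) / ((K : ℝ) - i - 1) ≤
      ((K : ℝ) - i) * (dfc (rem R 1) Q / ((K : ℝ) - i) + 1 / (2 * K) * bad R θ Q +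
        3 * K ^ 3 * θ) := by
  have hθ := hS.nonneg
  have hKi : (4 : ℝ) * (i + 1) ≤ K := by exact_mod_cast hK
  have hi2 : (2 : ℝ) ≤ i := by exact_mod_cast hi
  have hK0 : (0 : ℝ) < K := by linarith
  set a : ℝ := (K : ℝ) - i with ha
  have ha1 : 1 ≤ a - 1 := by rw [ha]; linarith
  have ha0 : 0 < a := by linarith
  have ha10 : 0 < a - 1 := by linarith
  set Φ := dfc (rem R 1) Q with hΦ
  have hΦ0 : 0 ≤ Φ := dfc_nonneg _ _
  have hb0 := bad_nonneg R θ Q
  rw [← sum_div, sum_dfc, hQ, ← ha, ← hΦ, div_le_iff₀ ha10]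
  have e1 : a * (Φ / a + 1 / (2 * K) * bad R θ Q + 3 * K ^ 3 * θ) =
      Φ + a * (1 / (2 * K) * bad R θ Q) + a * (3 * K ^ 3 * θ) := by
    field_simp
  rw [e1]
  have hp : 0 ≤ 3 * (K : ℝ) ^ 3 * θ := by positivity
  by_cases h : (i : ℝ) ≤ Φ
  · have h1 := hI n K P R θ d hS Q (by omega) (by rw [hQ]; exact h)
    rw [← hΦ] at h1
    have h2 : 0 ≤ a * (1 / (2 * (K : ℝ)) * bad R θ Q) := by positivity
    have h3 : 3 * (K : ℝ) ^ 3 * θ ≤ a * (3 * K ^ 3 * θ) * (a - 1) := by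
      have : 1 ≤ a * (a - 1) := by nlinarith
      nlinarith
    nlinarith [mul_nonneg h2 ha10.le]
  · push Not at h
    have hbad : bad R θ Q = 1 := by
      unfold bad
      rw [if_pos]
      have h4 : mu (rem R 1 Q) = 1 - Φ / K := by
        rw [hΦ]; unfold dfc; field_simp; ring
      rw [h4]
      have h5 : Φ / K ≤ 1 / 4 := by
        rw [div_le_iff₀ hK0]; linarith
      have h6 : 0 ≤ (Q.card : ℝ) * K * θ := by positivity
      linarith
    rw [hbad, mul_one]
    have h1 := loss_ge hS Q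
    rw [hQ, ← ha] at h1
    -- Φ ≤ a / 3 and 1/(2K) is large enough
    have h7 : 3 * Φ ≤ a := by rw [ha]; linarith
    have h8 : 2 * (K : ℝ) ≤ 3 * (a - 1) := by rw [ha]; linarith
    have h9 : Φ ≤ a * (1 / (2 * K)) * (a - 1) := by
      have : a * (1 / (2 * (K : ℝ))) * (a - 1) = a * (a - 1) / (2 * K) := by ring
      rw [this, le_div_iff₀ (by positivity)]
      nlinarith
    have h10 : a * ((K : ℝ) ^ 2 * θ) ≤ a * (3 * K ^ 3 * θ) * (a - 1) := by
      have h11 : (K : ℝ) ^ 2 * θ ≤ 3 * K ^ 3 * θ := by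
        have : (K : ℝ) ^ 2 ≤ 3 * K ^ 3 := by nlinarith [sq_nonneg (K : ℝ), pow_pos hK0 2]
        exact mul_le_mul_of_nonneg_right this hθ
      have h12 : 3 * (K : ℝ) ^ 3 * θ ≤ 3 * K ^ 3 * θ * (a - 1) := by nlinarith
      nlinarith
    nlinarith

theorem base (hS : Sys P R θ d) (hK : 12 ≤ K) (Q : Finset (Fin K)) (hQ : Q.card = 2) :
    dfc (rem R 1) Q / ((K : ℝ) - 2) ≤ 1 + 2 * K * θ := by
  have hθ := hS.nonneg
  have hK12 : (12 : ℝ) ≤ K := by exact_mod_cast hK
  obtain ⟨a, b, hab, rfl⟩ := card_eq_two.1 hQ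
  have hsub : R {a} ∪ R {b} ⊆ rem R 1 {a, b} := by
    intro y hy
    rw [mem_rem]
    rcases mem_union.1 hy with h | h
    · refine ⟨{b}, by simp, card_singleton _, ?_⟩
      have : ({a, b} : Finset (Fin K)) \ {b} = {a} := by
        ext x; simp only [mem_sdiff, mem_insert, mem_singleton]
        constructor
        · rintro ⟨h1 | h1, h2⟩
          · exact h1
          · exact absurd h1 h2
        · rintro rfl; exact ⟨Or.inl rfl, hab⟩
      rw [this]; exact h
    · refine ⟨{a}, by simp, card_singleton _, ?_⟩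
      have : ({a, b} : Finset (Fin K)) \ {a} = {b} := by
        ext x; simp only [mem_sdiff, mem_insert, mem_singleton]
        constructor
        · rintro ⟨h1 | h1, h2⟩
          · exact absurd h1 h2
          · exact h1
        · rintro rfl; exact ⟨Or.inr rfl, fun h => hab h.symm⟩
      rw [this]; exact h
  have h1 := mu_mono hsub
  have h2 := mu_union_add_inter (R {a}) (R {b})
  rw [disjoint_iff_inter_eq_empty.1 (hS.disj a b hab), mu_empty, add_zero] at h2
  have h3 := hS.start a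
  have h4 := hS.start b
  have hK0 : (0 : ℝ) < K := by linarith
  have h5 : 2 / (K : ℝ) - 2 * θ ≤ mu (rem R 1 {a, b}) := by
    have : 2 / (K : ℝ) = 1 / K + 1 / K := by ring
    linarith
  rw [div_le_iff₀ (by linarith)]
  unfold dfc
  have h6 : (K : ℝ) * (2 / K - 2 * θ) ≤ K * mu (rem R 1 {a, b}) :=
    mul_le_mul_of_nonneg_left h5 hK0.le
  have h7 : (K : ℝ) * (2 / K - 2 * θ) = 2 - 2 * K * θ := by field_simp
  have h8 : 0 ≤ 2 * (K : ℝ) * θ := by positivity
  nlinarith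

end ModE

/-- (E) -/
theorem thmE (hI : StI) (hC : StChain) (_h1 : StR1) : StE := by
  intro n K P R θ d hS hK
  have hθ := hS.nonneg
  have hK12 : (12 : ℝ) ≤ K := by exact_mod_cast hK
  have hK0 : (0 : ℝ) < K := by linarith
  -- the claim
  have claim : ∀ i : ℕ, 2 ≤ i → 4 * i ≤ K →
      EQ K i (fun Q => dfc (rem R 1) Q / ((K : ℝ) - i)) ≤
        1 + (i : ℝ) / (2 * K) * EQ K i (bad R θ) + 3 * i * K ^ 3 * θ + 2 * K * θ := by
    intro i hi
    induction i, hi using Nat.le_induction with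
    | base =>
      intro h4
      have h5 : EQ K 2 (fun Q => dfc (rem R 1) Q / ((K : ℝ) - (2 : ℕ))) ≤
          EQ K 2 (fun _ => 1 + 2 * K * θ) := by
        apply ModE.EQ_mono
        intro Q hQ
        have := ModE.base hS hK Q hQ
        push_cast
        exact this
      rw [ModE.EQ_const (by omega)] at h5
      have h6 : 0 ≤ ((2 : ℕ) : ℝ) / (2 * K) * EQ K 2 (bad R θ) :=
        mul_nonneg (by positivity) (ModE.EQ_nonneg (ModE.bad_nonneg R θ))
      have h7 : 0 ≤ 3 * ((2 : ℕ) : ℝ) * K ^ 3 * θ := by positivity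
      refine h5.trans ?_
      push_cast at h6 h7 ⊢
      linarith
    | succ i hi ih =>
      intro h4
      have ih' := ih (by omega)
      have hKi : (4 : ℝ) * (i + 1) ≤ K := by exact_mod_cast h4
      have hi2 : (2 : ℝ) ≤ i := by exact_mod_cast hi
      have ha : 0 < (K : ℝ) - i := by linarith
      have hstep := ModE.EQ_step hC (K := K) (i := i) (by omega)
        (fun Q => dfc (rem R 1) Q / ((K : ℝ) - i - 1))
      have hle : EQ K i (fun Q => ∑ c ∈ Qᶜ, dfc (rem R 1) (insert c Q) / ((K : ℝ) - i - 1)) ≤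
          EQ K i (fun Q => ((K : ℝ) - i) * (dfc (rem R 1) Q / ((K : ℝ) - i) +
            1 / (2 * K) * bad R θ Q + 3 * K ^ 3 * θ)) := by
        apply ModE.EQ_mono
        intro Q hQ
        exact ModE.point hI hS hi h4 Q hQ
      rw [hstep, ModE.EQ_mul, ModE.EQ_add, ModE.EQ_add, ModE.EQ_mul,
        ModE.EQ_const (by omega)] at hle
      have hle2 := le_of_mul_le_mul_left hle ha
      -- monotonicity of bad
      have hbad : EQ K i (bad R θ) ≤ EQ K (i + 1) (bad R θ) := by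
        have hs := ModE.EQ_step hC (K := K) (i := i) (by omega) (bad R θ)
        have hl : EQ K i (fun Q => ((K : ℝ) - i) * bad R θ Q) ≤
            EQ K i (fun Q => ∑ c ∈ Qᶜ, bad R θ (insert c Q)) := by
          apply ModE.EQ_mono
          intro Q hQ
          have h9 : ∑ _c ∈ Qᶜ, bad R θ Q ≤ ∑ c ∈ Qᶜ, bad R θ (insert c Q) :=
            sum_le_sum fun c hc => ModE.bad_mono hS Q c (mem_compl.1 hc)
          rw [sum_const, nsmul_eq_mul, ModE.card_compl_cast, hQ] at h9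
          exact h9
        rw [hs, ModE.EQ_mul] at hl
        exact le_of_mul_le_mul_left hl ha
      have e1 : (fun Q => dfc (rem R 1) Q / ((K : ℝ) - ((i + 1 : ℕ) : ℝ))) =
          (fun Q => dfc (rem R 1) Q / ((K : ℝ) - i - 1)) := by
        funext Q
        push_cast
        rw [sub_sub]
      rw [e1]
      have h10 : (i : ℝ) / (2 * K) * EQ K i (bad R θ) + 1 / (2 * K) * EQ K i (bad R θ) ≤
          ((i + 1 : ℕ) : ℝ) / (2 * K) * EQ K (i + 1) (bad R θ) := by
        have : (i : ℝ) / (2 * K) * EQ K i (bad R θ) + 1 / (2 * K) * EQ K i (bad R θ) =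
            ((i + 1 : ℕ) : ℝ) / (2 * K) * EQ K i (bad R θ) := by
          push_cast; ring
        rw [this]
        exact mul_le_mul_of_nonneg_left hbad (by positivity)
      push_cast at h10 ⊢
      linarith
  intro i hi h4
  have hKi : (4 : ℝ) * i ≤ K := by exact_mod_cast h4
  have hi2 : (2 : ℝ) ≤ i := by exact_mod_cast hi
  have ha : 0 < (K : ℝ) - i := by linarith
  have hc := claim i hi h4
  have e2 : EQ K i (fun Q => mu (rem R 1 Q)) =
      1 - (1 - (i : ℝ) / K) * EQ K i (fun Q => dfc (rem R 1) Q / ((K : ℝ) - i)) := by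
    have h5 : EQ K i (fun Q => mu (rem R 1 Q)) =
        EQ K i (fun Q => 1 + (-(1 - (i : ℝ) / K)) * (dfc (rem R 1) Q / ((K : ℝ) - i))) := by
      apply ModE.EQ_congr
      intro Q _
      unfold dfc
      field_simp
      ring
    rw [h5, ModE.EQ_add, ModE.EQ_mul, ModE.EQ_const (by omega)]
    ring
  rw [e2]
  set b := EQ K i (bad R θ) with hb
  have hb0 : 0 ≤ b := ModE.EQ_nonneg (ModE.bad_nonneg R θ)
  have ht0 : 0 ≤ (i : ℝ) / K := by positivity
  have ht1 : (i : ℝ) / K ≤ 1 := by rw [div_le_one hK0]; linarith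
  have h6 : (1 - (i : ℝ) / K) * EQ K i (fun Q => dfc (rem R 1) Q / ((K : ℝ) - i)) ≤
      (1 - (i : ℝ) / K) * (1 + (i : ℝ) / (2 * K) * b + 3 * i * K ^ 3 * θ + 2 * K * θ) :=
    mul_le_mul_of_nonneg_left hc (by linarith)
  have hX : 0 ≤ (i : ℝ) / (2 * K) * b + 3 * i * K ^ 3 * θ + 2 * K * θ := by positivity
  have h7 : (1 - (i : ℝ) / K) * (1 + (i : ℝ) / (2 * K) * b + 3 * i * K ^ 3 * θ + 2 * K * θ) ≤
      1 - (i : ℝ) / K + ((i : ℝ) / (2 * K) * b + 3 * i * K ^ 3 * θ + 2 * K * θ) := by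
    nlinarith [mul_nonneg ht0 hX]
  have h8 : 3 * (i : ℝ) * K ^ 3 * θ + 2 * K * θ ≤ K ^ 4 * θ := by
    have h9 : 3 * (i : ℝ) * K ^ 3 + 2 * K ≤ K ^ 4 := by
      have h10 : 0 ≤ ((K : ℝ) - 4 * i) * K ^ 3 := mul_nonneg (by linarith) (by positivity)
      have h11 : (8 : ℝ) ≤ K ^ 3 := by
        have : (12 : ℝ) ^ 3 ≤ (K : ℝ) ^ 3 := pow_le_pow_left₀ (by norm_num) hK12 3
        linarith
      have h12 : 8 * (K : ℝ) ≤ K ^ 4 := by
        have : (K : ℝ) ^ 4 = K ^ 3 * K := by ring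
        rw [this]
        exact mul_le_mul_of_nonneg_right h11 hK0.le
      nlinarith
    nlinarith
  linarith

end Pool.Agent.Lib.MP_b1acb3_co.Uni
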