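import Pool.Agent.Lib.MP_b1acb3_co.Uni.Stmts
import Pool.Agent.Lib.MP_b1acb3_co.Cyc.Final

/-!
(G3) The system of a colouring without a rainbow cycle of length `K - d`.
-/

namespace Pool.Agent.Lib.MP_b1acb3_co.Uni

open Finset

theorem markov_nrm {n K : ℕ} (hn : 0 < n) (hK : 0 < K) (B : Fin K → Matrix (Fin n) (Fin n) ℝ)
    (hB : Cyc.Exact B) : Markov (Cyc.nrm B) := by
  have hnR : (0 : ℝ) < n := by exact_mod_cast hn
  have hKR : (0 : ℝ) < K := by exact_mod_cast hK
  refine ⟨hn, hK, ?_, ?_, ?_, ?_⟩
  · intro c i j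
    simp only [Cyc.nrm, Matrix.smul_apply, smul_eq_mul]
    exact mul_nonneg (by positivity) (hB.nonneg c i j)
  · intro c i j
    simp only [Cyc.nrm, Matrix.smul_apply, smul_eq_mul]
    rw [hB.symm c i j]
  · intro c i
    simp only [Cyc.nrm, Matrix.smul_apply, smul_eq_mul]
    rw [← mul_sum, hB.row c i]
    field_simp
  · intro i j
    simp only [Cyc.nrm, Matrix.smul_apply, smul_eq_mul]
    rw [← mul_sum, hB.tot i j, mul_one]

theorem reach_singleton {n K : ℕ} (c : Sym2 (Fin n) → Fin K)
    (P : Fin K → Matrix (Fin n) (Fin n) ℝ) (θ : ℝ) (x : Fin n) (a : Fin K) :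
    reach c P θ x {a} = nbr c x a := by
  classical
  unfold reach nbr
  rw [card_singleton]
  ext y
  simp [reachN]

theorem reach_pair {n K : ℕ} (c : Sym2 (Fin n) → Fin K)
    (P : Fin K → Matrix (Fin n) (Fin n) ℝ) (θ : ℝ) (x : Fin n) (a b : Fin K) (hab : a ≠ b)
    (y : Fin n) (hy : y ∉ reach c P θ x {a, b}) :
    app P b (nbr c x a) y ≤ θ ∧ app P a (nbr c x b) y ≤ θ := by
  classical
  have h1 : ({a, b} : Finset (Fin K)).card = 2 := card_pair hab
  unfold reach at hy
  rw [h1] at hy
  have h2 : ∀ e : Fin K, reachN c P θ x 1 {e} = nbr c x e := by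
    intro e
    ext y
    simp [reachN, nbr]
  have hy' : ∀ e ∈ ({a, b} : Finset (Fin K)),
      app P e (reachN c P θ x 1 (({a, b} : Finset (Fin K)).erase e)) y ≤ θ := by
    intro e he
    by_contra hcon
    push Not at hcon
    exact hy (mem_filter.2 ⟨mem_univ y, e, he, hcon⟩)
  constructor
  · have h3 := hy' b (by simp)
    have h4 : ({a, b} : Finset (Fin K)).erase b = {a} := by
      rw [pair_comm]
      exact erase_insert (by simpa using hab.symm)
    rw [h4, h2] at h3
    exact h3
  · have h3 := hy' a (by simp)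
    have h4 : ({a, b} : Finset (Fin K)).erase a = {b} := erase_insert (by simpa using hab)
    rw [h4, h2] at h3
    exact h3

theorem thmG3 (h : StG2) : StG3 := by
  classical
  intro K θ δ₀ hK hθ hδ₀
  have hKR : (0 : ℝ) < K := by exact_mod_cast hK
  obtain ⟨δ₁, hδ₁, n₁, hn₁⟩ := h K θ hK hθ
  obtain ⟨ε₁, hε₁, hex⟩ := Cyc.exact_kernels K hK (min δ₀ δ₁) (lt_min hδ₀ hδ₁)
  refine ⟨min ε₁ (K * θ), lt_min hε₁ (by positivity), max n₁ 1, ?_⟩
  intro n hn c hc
  have hnn₁ : n₁ ≤ n := (le_max_left _ _).trans hn
  have hn0 : 0 < n := (le_max_right _ _).trans hn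
  have hnR : (0 : ℝ) < n := by exact_mod_cast hn0
  obtain ⟨B, hB, hBle⟩ := hex n hn0 c (Cyc.balanced_mono (min_le_left _ _) hc)
  have hle0 : min δ₀ δ₁ ≤ δ₀ := min_le_left _ _
  have hle1 : min δ₀ δ₁ ≤ δ₁ := min_le_right _ _
  refine ⟨B, fun k i j => (hBle k i j).trans (by linarith), ?_, ?_⟩
  · intro k i j
    by_cases hk : c s(i, j) = k
    · rw [if_pos hk]
      have h1 := hB.tot i j
      rw [← add_sum_erase univ _ (mem_univ k)] at h1
      have h2 : ∑ k' ∈ univ.erase k, B k' i j ≤ ∑ k' ∈ univ.erase k, δ₀ := by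
        apply sum_le_sum
        intro k' hk'
        have h3 := hBle k' i j
        rw [if_neg (by
          rw [hk]
          exact (ne_of_mem_erase hk').symm)] at h3
        linarith
      rw [sum_const, nsmul_eq_mul] at h2
      have h4 : ((univ.erase k).card : ℝ) ≤ K := by
        have := card_le_univ (univ.erase k)
        rw [Fintype.card_fin] at this
        exact_mod_cast this
      have h5 := mul_le_mul_of_nonneg_right h4 hδ₀.le
      linarith
    · rw [if_neg hk]
      have := hB.nonneg k i j
      positivity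
  · intro d l x hl hno
    refine ⟨markov_nrm hn0 hK B hB, hθ.le, ?_, ?_, ?_, ?_, ?_⟩
    · intro Q a ha y hy
      unfold reach at hy ⊢
      rw [card_insert_of_notMem ha] at hy
      rcases Nat.eq_zero_or_pos Q.card with h1 | h1
      · rw [h1]
        simp only [reachN, app_empty]
        exact hθ.le
      · obtain ⟨k, hk⟩ : ∃ k, Q.card = k + 1 := ⟨Q.card - 1, by omega⟩
        rw [hk] at hy ⊢
        simp only [reachN, mem_filter, mem_univ, true_and, not_exists, not_and, not_lt] at hy
        have h2 := hy a (mem_insert_self a Q)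
        rwa [erase_insert ha] at h2
    · unfold reach
      rw [card_empty]
      rfl
    · intro a
      rw [reach_singleton]
      have h1 := hc x a
      have h2 : (nbr c x a).card = colourDegree c x a := rfl
      unfold mu
      rw [h2, le_div_iff₀ hnR]
      have h3 : (1 / (K : ℝ) - θ) * n ≤ (1 - min ε₁ (K * θ)) * n / K := by
        have h4 : min ε₁ (K * θ) ≤ K * θ := min_le_right _ _
        rw [le_div_iff₀ hKR]
        have h5 : (1 / (K : ℝ) - θ) * n * K = (1 - K * θ) * n := by
          field_simp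
        rw [h5]
        exact mul_le_mul_of_nonneg_right (by linarith) hnR.le
      linarith
    · intro a b hab
      rw [reach_singleton, reach_singleton, disjoint_left]
      intro y hy hy2
      simp only [nbr, mem_filter, mem_univ, true_and] at hy hy2
      exact hab (hy.2.symm.trans hy2.2)
    · intro U U' hU hU' hdis hcard
      by_contra hcon
      push Not at hcon
      apply hno
      have h1 := hn₁ n hnn₁ c B hB.nonneg (fun k i j => (hBle k i j).trans (by linarith)) x U U'
        hU hU' hdis hcon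
      have h2 : U.card + U'.card = l := by omega
      rwa [h2] at h1

end Pool.Agent.Lib.MP_b1acb3_co.Uni
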