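import Pool.Agent.Lib.MP_b1acb3_co.Uni.G3

/-!
(G4) The hypotheses `Struct` from small sets `reach {a, b}`.
-/

namespace Pool.Agent.Lib.MP_b1acb3_co.Uni

open Finset

theorem sum_small {n K : ℕ} (c : Sym2 (Fin n) → Fin K) (B : Fin K → Matrix (Fin n) (Fin n) ℝ)
    (θ δ ζ : ℝ) (hn : 0 < n) (hK : 0 < K) (hθ : 0 < θ) (hδ : 0 < δ)
    (hB : ∀ k i j, (if c s(i, j) = k then 1 else 0) ≤ B k i j + K * δ)
    (hsmall : K * θ + K ^ 3 * δ ≤ ζ) (b : Fin K) (S R : Finset (Fin n))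
    (hR : ∀ y, y ∉ R → app (Cyc.nrm B) b S y ≤ θ) :
    ((∑ z ∈ S, (nbr c z b \ R).card : ℕ) : ℝ) ≤ ζ * ((n : ℝ) / K) ^ 2 := by
  classical
  have hnR : (0 : ℝ) < n := by exact_mod_cast hn
  have hKR : (0 : ℝ) < K := by exact_mod_cast hK
  have h1 : ∀ z, ((nbr c z b \ R).card : ℝ) ≤ ∑ y ∈ Rᶜ, (if c s(y, z) = b then (1 : ℝ) else 0) := by
    intro z
    rw [sum_boole]
    have : (nbr c z b \ R).card ≤ (Rᶜ.filter (fun y => c s(y, z) = b)).card := by
      apply card_le_card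
      intro y hy
      simp only [nbr, mem_sdiff, mem_filter, mem_univ, true_and] at hy
      rw [mem_filter, mem_compl]
      refine ⟨hy.2, ?_⟩
      rw [Sym2.eq_swap]
      exact hy.1.2
    exact_mod_cast this
  have hcardS : (S.card : ℝ) ≤ n := by
    have := card_le_univ S
    rw [Fintype.card_fin] at this
    exact_mod_cast this
  have hcardR : ((Rᶜ).card : ℝ) ≤ n := by
    have := card_le_univ Rᶜ
    rw [Fintype.card_fin] at this
    exact_mod_cast this
  have h2 : ∀ y ∈ Rᶜ, ∑ z ∈ S, (if c s(y, z) = b then (1 : ℝ) else 0) ≤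
      (n : ℝ) / K * θ + n * (K * δ) := by
    intro y hy
    have h3 : ∑ z ∈ S, (if c s(y, z) = b then (1 : ℝ) else 0) ≤
        ∑ z ∈ S, (B b y z + K * δ) := sum_le_sum fun z _ => hB b y z
    rw [sum_add_distrib, sum_const, nsmul_eq_mul] at h3
    have h4 : ∑ z ∈ S, B b y z = (n : ℝ) / K * app (Cyc.nrm B) b S y := by
      unfold app Cyc.nrm
      simp only [Matrix.smul_apply, smul_eq_mul]
      rw [← mul_sum]
      field_simp
    rw [h4] at h3
    have h5 := hR y (mem_compl.1 hy)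
    have h6 : (n : ℝ) / K * app (Cyc.nrm B) b S y ≤ (n : ℝ) / K * θ :=
      mul_le_mul_of_nonneg_left h5 (by positivity)
    have h7 : (S.card : ℝ) * (K * δ) ≤ n * (K * δ) :=
      mul_le_mul_of_nonneg_right hcardS (by positivity)
    linarith
  push_cast
  calc ∑ z ∈ S, ((nbr c z b \ R).card : ℝ)
      ≤ ∑ z ∈ S, ∑ y ∈ Rᶜ, (if c s(y, z) = b then (1 : ℝ) else 0) :=
        sum_le_sum fun z _ => h1 z
    _ = ∑ y ∈ Rᶜ, ∑ z ∈ S, (if c s(y, z) = b then (1 : ℝ) else 0) := sum_comm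
    _ ≤ ∑ y ∈ Rᶜ, ((n : ℝ) / K * θ + n * (K * δ)) := sum_le_sum h2
    _ = (Rᶜ).card * ((n : ℝ) / K * θ + n * (K * δ)) := by rw [sum_const, nsmul_eq_mul]
    _ ≤ n * ((n : ℝ) / K * θ + n * (K * δ)) :=
        mul_le_mul_of_nonneg_right hcardR (by positivity)
    _ = (K * θ + K ^ 3 * δ) * ((n : ℝ) / K) ^ 2 := by
        field_simp
    _ ≤ ζ * ((n : ℝ) / K) ^ 2 := mul_le_mul_of_nonneg_right hsmall (by positivity)

theorem thmG4 : StG4 := by
  classical
  intro n K c B θ δ ζ ε hn hK hθ hδ hB hc hεζ hsmall hmu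
  have hnR : (0 : ℝ) < n := by exact_mod_cast hn
  have hK0 : 0 < K := by omega
  have hKR : (0 : ℝ) < K := by exact_mod_cast hK0
  refine ⟨?_, ?_⟩
  · intro x a
    have h1 := hc x a
    have h2 : (nbr c x a).card = colourDegree c x a := rfl
    rw [h2]
    have h3 : (1 - ζ) * ((n : ℝ) / K) ≤ (1 - ε) * n / K := by
      rw [mul_div_assoc]
      exact mul_le_mul_of_nonneg_right (by linarith) (by positivity)
    linarith
  · intro x a b hab
    refine ⟨reach c (Cyc.nrm B) θ x {a, b}, ?_, ?_, ?_⟩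
    · have h1 := hmu x a b hab
      unfold mu at h1
      have h2 : (K : ℝ) * (((reach c (Cyc.nrm B) θ x {a, b}).card : ℝ) / n) =
          ((reach c (Cyc.nrm B) θ x {a, b}).card : ℝ) / ((n : ℝ) / K) := by
        field_simp
      rw [h2, div_le_iff₀ (by positivity)] at h1
      exact h1
    · exact sum_small c B θ δ ζ hn hK0 hθ hδ hB hsmall b _ _
        (fun y hy => (reach_pair c _ θ x a b hab y hy).1)
    · exact sum_small c B θ δ ζ hn hK0 hθ hδ hB hsmall a _ _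
        (fun y hy => (reach_pair c _ θ x a b hab y hy).2)

end Pool.Agent.Lib.MP_b1acb3_co.Uni
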