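import Pool.Agent.Lib.MP_b1acb3_co.Uni.Stmts
import Pool.Agent.Lib.MP_b1acb3_co.Cyc.Graph

/-!
(G5), (G7) The graph theory of a graph that becomes a forest by deleting an edge.
-/

namespace Pool.Agent.Lib.MP_b1acb3_co.Uni

open Finset

theorem cycle_card {V : Type} [DecidableEq V] {G : SimpleGraph V} {v : V} {p : G.Walk v v}
    (hp : p.IsCycle) : p.support.toFinset.card = p.length := by
  have h1 : p.support = v :: p.support.tail := p.cons_tail_support.symm
  have h2 : v ∈ p.support.tail := by
    apply SimpleGraph.Walk.end_mem_tail_support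
    exact hp.not_nil
  have h3 : p.support.toFinset = p.support.tail.toFinset := by
    rw [h1, List.toFinset_cons, List.tail_cons]
    exact insert_eq_of_mem (List.mem_toFinset.2 h2)
  rw [h3, List.toFinset_card_of_nodup hp.support_nodup, List.length_tail,
    SimpleGraph.Walk.length_support]
  omega

theorem mem_edges_of_acyclic {V : Type} {G : SimpleGraph V} {a : Sym2 V} {v : V}
    {p : G.Walk v v} (hac : (G.deleteEdges {a}).IsAcyclic) (hp : p.IsCycle) : a ∈ p.edges := by
  by_contra hcon
  have h1 : ∀ e ∈ p.edges, e ∉ ({a} : Set (Sym2 V)) := by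
    intro e he h
    rw [Set.mem_singleton_iff] at h
    exact hcon (h ▸ he)
  exact hac _ (SimpleGraph.Walk.IsCycle.toDeleteEdges G ({a} : Set (Sym2 V)) hp h1)

theorem two_nbrs {V : Type} [Finite V] {G : SimpleGraph V} {v : V} {p : G.Walk v v}
    (hp : p.IsCycle) (X : Finset V) (hX : ∀ w ∈ p.support, w ∈ X) (w : V) (hw : w ∈ p.support) :
    p.toSubgraph.neighborSet w ⊆ {u | u ∈ X ∧ G.Adj w u} ∧
      (p.toSubgraph.neighborSet w).ncard = 2 := by
  refine ⟨?_, hp.ncard_neighborSet_toSubgraph_eq_two hw⟩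
  intro u hu
  have h1 : p.toSubgraph.Adj w u := hu
  exact ⟨hX u (SimpleGraph.Walk.mem_support_of_adj_toSubgraph h1.symm), h1.adj_sub⟩

theorem thmG5 : StG5 := by
  classical
  intro V _ _ G a v p hac hp
  set W := p.support.toFinset with hW
  have hmemW : ∀ w, w ∈ W ↔ w ∈ p.support := fun w => List.mem_toFinset
  have hcard : W.card = p.length := cycle_card hp
  have hWne : W.Nonempty := ⟨v, by rw [hmemW]; exact p.start_mem_support⟩
  have ha := mem_edges_of_acyclic hac hp
  have hle : ∀ X : Finset V, X.Nonempty → numEdgesIn G X ≤ X.card := by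
    intro X hX
    have h1 := Cyc.edges_le G {a} 1 (by simp) (by rw [coe_singleton]; exact hac) X hX
    omega
  -- the edges of the cycle
  have hsub : ((p.edges.toFinset : Finset (Sym2 V)) : Set (Sym2 V)) ⊆
      {e ∈ G.edgeSet | ∀ x ∈ e, x ∈ W} := by
    intro e he
    rw [mem_coe, List.mem_toFinset] at he
    refine ⟨p.edges_subset_edgeSet he, ?_⟩
    intro x hx
    rw [hmemW]
    exact SimpleGraph.Walk.mem_support_of_mem_edges he hx
  have hedges : (p.edges.toFinset).card = p.length := by
    rw [List.toFinset_card_of_nodup hp.isCircuit.isTrail.edges_nodup, SimpleGraph.Walk.length_edges]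
  have hfin : {e ∈ G.edgeSet | ∀ x ∈ e, x ∈ W}.Finite := Set.toFinite _
  have hge : p.length ≤ numEdgesIn G W := by
    unfold numEdgesIn
    rw [← hedges, ← Set.ncard_coe_finset]
    exact Set.ncard_le_ncard hsub hfin
  have heq : numEdgesIn G W = p.length := by
    have := hle W hWne
    omega
  have hset : ((p.edges.toFinset : Finset (Sym2 V)) : Set (Sym2 V)) =
      {e ∈ G.edgeSet | ∀ x ∈ e, x ∈ W} := by
    apply Set.eq_of_subset_of_ncard_le hsub _ hfin
    rw [Set.ncard_coe_finset, hedges]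
    exact le_of_eq heq
  refine ⟨?_, heq, ?_⟩
  · intro X hWX
    by_contra hcon
    push Not at hcon
    have hXsub : ∀ w ∈ p.support, w ∈ X := fun w hw => hWX.1 ((hmemW w).2 hw)
    have hXne : X.Nonempty := hWne.mono hWX.1
    have hdeg : ∀ x ∈ X, 2 ≤ {y | y ∈ X ∧ G.Adj x y}.ncard := by
      intro x hx
      by_cases hxW : x ∈ W
      · have h1 := two_nbrs hp X hXsub x ((hmemW x).1 hxW)
        rw [← h1.2]
        exact Set.ncard_le_ncard h1.1 (Set.toFinite _)
      · exact hcon x hx hxW
    have hhand := Cyc.handshake G X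
    have hsum : ∑ x ∈ X, 2 = ∑ x ∈ X, {y | y ∈ X ∧ G.Adj x y}.ncard := by
      apply le_antisymm (sum_le_sum hdeg)
      rw [hhand, sum_const, smul_eq_mul]
      have := hle X hXne
      omega
    have hdeg2 : ∀ x ∈ X, 2 = {y | y ∈ X ∧ G.Adj x y}.ncard :=
      (sum_eq_sum_iff_of_le hdeg).1 hsum
    have hnb : ∀ w ∈ W, ∀ u ∈ X, G.Adj w u → u ∈ W := by
      intro w hw u hu hwu
      have h1 := two_nbrs hp X hXsub w ((hmemW w).1 hw)
      have h2 : p.toSubgraph.neighborSet w = {y | y ∈ X ∧ G.Adj w y} := by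
        apply Set.eq_of_subset_of_ncard_le h1.1 _ (Set.toFinite _)
        rw [h1.2, ← hdeg2 w (hWX.1 hw)]
      have h3 : u ∈ p.toSubgraph.neighborSet w := by
        rw [h2]
        exact ⟨hu, hwu⟩
      rw [hmemW]
      exact SimpleGraph.Walk.mem_support_of_adj_toSubgraph (SimpleGraph.Subgraph.Adj.symm h3)
    set Y := X \ W with hY
    have hYne : Y.Nonempty := by
      obtain ⟨x, hx, hxW⟩ := exists_of_ssubset hWX
      exact ⟨x, mem_sdiff.2 ⟨hx, hxW⟩⟩
    have hdegY : ∀ y ∈ Y, {u | u ∈ Y ∧ G.Adj y u}.ncard = 2 := by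
      intro y hy
      rw [mem_sdiff] at hy
      rw [hdeg2 y hy.1]
      congr 1
      ext u
      simp only [Set.mem_ofPred_eq, hY, mem_sdiff]
      constructor
      · rintro ⟨⟨h1, _⟩, h2⟩
        exact ⟨h1, h2⟩
      · rintro ⟨h1, h2⟩
        exact ⟨⟨h1, fun h3 => hy.2 (hnb u h3 y hy.1 h2.symm)⟩, h2⟩
    have hhandY := Cyc.handshake G Y
    rw [sum_congr rfl hdegY, sum_const, smul_eq_mul] at hhandY
    have hforest := Cyc.forest_edges (G.deleteEdges {a}) hac (Y.card - 1) Y (by
      have := card_pos.2 hYne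
      omega)
    have hsame : numEdgesIn (G.deleteEdges {a}) Y = numEdgesIn G Y := by
      unfold numEdgesIn
      congr 1
      ext e
      simp only [Set.mem_sep_iff, SimpleGraph.edgeSet_deleteEdges, Set.mem_sdiff,
        Set.mem_singleton_iff]
      constructor
      · rintro ⟨⟨h1, _⟩, h2⟩
        exact ⟨h1, h2⟩
      · rintro ⟨h1, h2⟩
        refine ⟨⟨h1, ?_⟩, h2⟩
        rintro rfl
        induction e with
        | _ x y =>
          have h3 := h2 x (Sym2.mem_mk_left x y)
          rw [mem_sdiff] at h3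
          exact h3.2 ((hmemW x).2 (SimpleGraph.Walk.fst_mem_support_of_mem_edges p ha))
    omega
  · intro e he hx
    have h1 : e ∈ {e ∈ G.edgeSet | ∀ x ∈ e, x ∈ W} :=
      ⟨he, fun x hxe => (hmemW x).2 (hx x hxe)⟩
    rw [← hset, mem_coe, List.mem_toFinset] at h1
    exact h1

theorem thmG7 : StG7 := by
  classical
  intro V _ G a v p hac hp hlen
  have hsub : ((p.edges.toFinset : Finset (Sym2 V)) : Set (Sym2 V)) ⊆ G.edgeSet := by
    intro e he
    rw [mem_coe, List.mem_toFinset] at he
    exact p.edges_subset_edgeSet he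
  have hedges : (p.edges.toFinset).card = p.length := by
    rw [List.toFinset_card_of_nodup hp.isCircuit.isTrail.edges_nodup, SimpleGraph.Walk.length_edges]
  have hdiff : (G.edgeSet \ ((p.edges.toFinset : Finset (Sym2 V)) : Set (Sym2 V))).ncard = 1 := by
    have h1 := Set.ncard_sdiff_add_ncard_of_subset hsub (Set.toFinite _)
    rw [Set.ncard_coe_finset, hedges] at h1
    unfold numEdges at hlen
    omega
  obtain ⟨e₀, he₀⟩ := Set.ncard_eq_one.1 hdiff
  have h1 : e₀ ∈ G.edgeSet \ ((p.edges.toFinset : Finset (Sym2 V)) : Set (Sym2 V)) := by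
    rw [he₀]
    exact Set.mem_singleton e₀
  refine ⟨e₀, h1.1, ?_⟩
  intro w
  have h2 : {u | G.Adj w u ∧ s(w, u) ≠ e₀} = p.toSubgraph.neighborSet w := by
    ext u
    simp only [Set.mem_ofPred_eq, SimpleGraph.Subgraph.mem_neighborSet,
      SimpleGraph.Walk.adj_toSubgraph_iff_mem_edges]
    constructor
    · rintro ⟨h3, h4⟩
      by_contra hcon
      have h5 : s(w, u) ∈ G.edgeSet \ ((p.edges.toFinset : Finset (Sym2 V)) : Set (Sym2 V)) := by
        refine ⟨h3, ?_⟩
        rw [mem_coe, List.mem_toFinset]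
        exact hcon
      rw [he₀] at h5
      exact h4 h5
    · intro h3
      refine ⟨p.adj_of_mem_edges h3, ?_⟩
      intro h4
      apply h1.2
      rw [mem_coe, List.mem_toFinset, ← h4]
      exact h3
  rw [h2]
  by_cases hw : w ∈ p.support
  · rw [hp.ncard_neighborSet_toSubgraph_eq_two hw]
    exact even_two
  · have h3 : p.toSubgraph.neighborSet w = ∅ := by
      rw [Set.eq_empty_iff_forall_notMem]
      intro u hu
      exact hw (SimpleGraph.Walk.mem_support_of_adj_toSubgraph hu)
    rw [h3]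
    simp

end Pool.Agent.Lib.MP_b1acb3_co.Uni
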