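import Pool.Agent.Lib.MP_b1acb3_co.Uni.Stmts
import Pool.Agent.Lib.MP_b1acb3_co.Deg2

/-!
A rainbow cycle extends to a rainbow copy of the graph.
-/

namespace Pool.Agent.Lib.MP_b1acb3_co.Uni

open Finset

theorem thmG6 : StG6 := by
  classical
  intro V _ _ G v p hp hW hedge
  set K := numEdges G + 1 with hKdef
  have hK : 0 < K := Nat.succ_pos _
  refine ⟨2 * K * Fintype.card V + 1 + Fintype.card V, ?_⟩
  intro n hn c hc hz
  have hbig : 2 * K * Fintype.card V < n := by omega
  have hlow : ∀ i k, Fintype.card V < colourDegree c i k := by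
    intro i k
    have h6 := hc i k
    have hKR : (0 : ℝ) < (numEdges G + 1 : ℕ) := by exact_mod_cast hK
    have h7 : (2 * (numEdges G + 1 : ℕ) * Fintype.card V : ℝ) < n := by exact_mod_cast hbig
    have h8 : (Fintype.card V : ℝ) < (1 - 1 / 2) * n / (numEdges G + 1 : ℕ) := by
      rw [lt_div_iff₀ hKR]
      linarith
    exact_mod_cast h8.trans_le h6
  obtain ⟨z, hz0, hzinj, hzcol⟩ := hz
  set W : Finset V := p.support.toFinset with hWdef
  have hl : 3 ≤ p.length := hp.three_le_length
  have hmemW : ∀ x, x ∈ W ↔ x ∈ p.support := fun x => by rw [hWdef, List.mem_toFinset]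
  -- the index of a vertex of the cycle
  have hidx : ∀ x : V, ∃ i : ℕ, x ∈ W → i < p.length ∧ p.getVert i = x := by
    intro x
    by_cases hx : x ∈ W
    · rw [hmemW, SimpleGraph.Walk.mem_support_iff_exists_getVert] at hx
      obtain ⟨m, hm, hml⟩ := hx
      rcases Nat.eq_or_lt_of_le hml with h | h
      · refine ⟨0, fun _ => ⟨by omega, ?_⟩⟩
        rw [h, SimpleGraph.Walk.getVert_length] at hm
        rw [SimpleGraph.Walk.getVert_zero]
        exact hm
      · exact ⟨m, fun _ => ⟨h, hm⟩⟩
    · exact ⟨0, fun h => absurd h hx⟩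
  choose idx hidx using hidx
  have hf : Set.InjOn (fun x => z (idx x)) (W : Set V) := by
    intro x hx y hy hxy
    have h1 := hidx x hx
    have h2 := hidx y hy
    have h3 := hzinj (idx x) (idx y) h1.1 h2.1 hxy
    rw [← h1.2, ← h2.2, h3]
  obtain ⟨g, hg, hgW⟩ := extend_inj W (fun x => z (idx x)) hf (by omega)
  have hmem : ∀ i, i < p.length → p.getVert i ∈ W := by
    intro i hi
    rw [hmemW]
    exact SimpleGraph.Walk.getVert_mem_support p i
  have hgz : ∀ i, i < p.length → g (p.getVert i) = z i := by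
    intro i hi
    rw [hgW _ (hmem i hi)]
    have h1 := hidx _ (hmem i hi)
    have h2 : idx (p.getVert i) = i := by
      apply hp.getVert_injOn' _ _ h1.2
      · show idx (p.getVert i) ≤ p.length - 1
        omega
      · show i ≤ p.length - 1
        omega
    simp only [h2]
  have hgz' : ∀ i, i ≤ p.length → g (p.getVert i) = z i := by
    intro i hi
    rcases Nat.eq_or_lt_of_le hi with h | h
    · rw [h, SimpleGraph.Walk.getVert_length, hz0, ← hgz 0 (by omega),
        SimpleGraph.Walk.getVert_zero]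
    · exact hgz i h
  -- the edges inside `W`
  have hcase : ∀ e ∈ edgesIn G W, ∃ i, i < p.length ∧ e = s(p.getVert i, p.getVert (i + 1)) ∧
      c (e.map g) = c s(z i, z (i + 1)) := by
    intro e he
    rw [mem_edgesIn] at he
    have h1 := hedge e he.1 (fun x hx => (hmemW x).1 (he.2 x hx))
    obtain ⟨i, hi, hie⟩ : ∃ i < p.length, s(p.getVert i, p.getVert (i + 1)) = e := by
      induction e using Sym2.ind with
      | _ a b => exact (SimpleGraph.Walk.mk_mem_edges_iff_exists p).1 h1
    refine ⟨i, hi, hie.symm, ?_⟩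
    rw [← hie, Sym2.map_mk, hgz' i hi.le, hgz' (i + 1) hi]
  have hinj : Set.InjOn (fun e : Sym2 V => c (e.map g)) (edgesIn G W : Set (Sym2 V)) := by
    intro a ha b hb hab
    obtain ⟨i, hi, hai, hac⟩ := hcase a ha
    obtain ⟨j, hj, hbj, hbc⟩ := hcase b hb
    simp only at hab
    rw [hac, hbc] at hab
    have := hzcol i j hi hj hab
    rw [hai, hbj, this]
  obtain ⟨g', hg1, hg2⟩ := extend G W hW c hlow g hg hinj ((univ : Finset V).card - W.card) univ
    (subset_univ _) (by have := card_le_card (subset_univ W); omega)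
  refine ⟨g', hg1, ?_⟩
  intro a ha b hb hab
  exact hg2 ((mem_edgesIn G univ a).2 ⟨ha, fun _ _ => mem_univ _⟩)
    ((mem_edgesIn G univ b).2 ⟨hb, fun _ _ => mem_univ _⟩) hab

end Pool.Agent.Lib.MP_b1acb3_co.Uni
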