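import Pool.Agent.Lib.MP_b1acb3_co.Uni.Stmts

/-!
Module (I): growth of the family `rem R 1`.
-/

namespace Pool.Agent.Lib.MP_b1acb3_co.Uni

open Finset

variable {n K : ℕ} {P : Fin K → Matrix (Fin n) (Fin n) ℝ}

/-- `R Q` is contained in `rem R 1 (Q ∪ {c})`. -/
theorem R_sub_rem_insert (R : Finset (Fin K) → Finset (Fin n)) (Q : Finset (Fin K)) (c : Fin K)
    (hc : c ∉ Q) : R Q ⊆ rem R 1 (insert c Q) := by
  intro y hy
  apply rem_sub R 0 Q c hc
  rw [mem_rem]
  exact ⟨∅, empty_subset _, rfl, by simpa using hy⟩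

/-- `R (Q \ {a})` is contained in `rem R 1 Q`. -/
theorem R_erase_sub_rem (R : Finset (Fin K) → Finset (Fin n)) (Q : Finset (Fin K)) (a : Fin K)
    (ha : a ∈ Q) : R (Q.erase a) ⊆ rem R 1 Q := by
  intro y hy
  rw [mem_rem]
  refine ⟨{a}, singleton_subset_iff.2 ha, card_singleton a, ?_⟩
  rw [sdiff_singleton_eq_erase]
  exact hy

/-- One new colour. -/
theorem mu_rem_insert (hP : Markov P) (R : Finset (Fin K) → Finset (Fin n)) (θ : ℝ) (hθ : 0 ≤ θ)
    (hR : Grows P R θ) (Q : Finset (Fin K)) (c : Fin K) (hc : c ∉ Q) :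
    mu (rem R 1 Q) + avg (fun y => if y ∈ R Q then app P c (rem R 1 Q)ᶜ y else 0) - K * θ ≤
      mu (rem R 1 (insert c Q)) := by
  have hG := grows_rem hP R θ hθ hR 1
  rw [pow_one] at hG
  have hKθ : 0 ≤ (K : ℝ) * θ := mul_nonneg (Nat.cast_nonneg K) hθ
  have h1 : ∀ y, app P c (rem R 1 Q) y +
      (if y ∈ R Q then app P c (rem R 1 Q)ᶜ y else 0) - K * θ ≤
      (if y ∈ rem R 1 (insert c Q) then (1 : ℝ) else 0) := by
    intro y
    by_cases hy : y ∈ rem R 1 (insert c Q)
    · rw [if_pos hy]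
      have h2 := app_compl hP c (rem R 1 Q) y
      have h3 := app_le_one hP c (rem R 1 Q) y
      split_ifs <;> linarith
    · rw [if_neg hy, if_neg (fun h => hy (R_sub_rem_insert R Q c hc h))]
      have := hG Q c hc y hy
      linarith
  have h2 := avg_mono h1
  rw [avg_indicator, avg_sub, avg_add, avg_app hP, avg_const hP.npos] at h2
  exact h2

/-- The colours of `Q`. -/
theorem mu_erase_le (hP : Markov P) (R : Finset (Fin K) → Finset (Fin n)) (θ : ℝ) (hθ : 0 ≤ θ)
    (hR : Grows P R θ) (Q : Finset (Fin K)) (a : Fin K) (ha : a ∈ Q) :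
    mu (R (Q.erase a)) - θ ≤ avg (fun y => if y ∈ R Q then app P a (rem R 1 Q) y else 0) := by
  have h1 : ∀ y, app P a (R (Q.erase a)) y - θ ≤
      (if y ∈ R Q then app P a (rem R 1 Q) y else 0) := by
    intro y
    by_cases hy : y ∈ R Q
    · rw [if_pos hy]
      have := app_mono hP a (R_erase_sub_rem R Q a ha) y
      linarith
    · rw [if_neg hy]
      have := hR (Q.erase a) a (notMem_erase a Q) y (by rwa [insert_erase ha])
      linarith
  have h2 := avg_mono h1
  rw [avg_sub, avg_app hP, avg_const hP.npos] at h2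
  exact h2

theorem thmI (hR1 : StR1) : StI := by
  intro n K P R θ d hS Q hq hΦ
  have hP := hS.markov
  have hθ := hS.nonneg
  have hK : (1 : ℝ) ≤ K := by exact_mod_cast hP.kpos
  obtain ⟨hR1a, -⟩ := hR1 n K P R θ d hS
  have hqK : (Q.card : ℝ) ≤ K := by
    have := card_le_univ Q
    rw [Fintype.card_fin] at this
    exact_mod_cast this
  set F := rem R 1 with hF
  set Φ := dfc F Q with hΦd
  have hΦK : Φ ≤ K := dfc_le F Q
  -- lower bound for the loss
  have h1 : K * avg (fun y => if y ∈ R Q then kf P F Q y else 0) - K * (K * (K * θ)) ≤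
      loss F Q := by
    have e1 : avg (fun y => if y ∈ R Q then kf P F Q y else 0) =
        ∑ c ∈ Qᶜ, avg (fun y => if y ∈ R Q then app P c (F Q)ᶜ y else 0) := by
      rw [← avg_sum]
      congr 1
      funext y
      split_ifs
      · rfl
      · rw [sum_const_zero]
    have e2 : ∑ c ∈ Qᶜ, (K * avg (fun y => if y ∈ R Q then app P c (F Q)ᶜ y else 0) -
        K * (K * θ)) ≤ loss F Q := by
      unfold loss
      apply sum_le_sum
      intro c hc
      have := mu_rem_insert hP R θ hθ hS.grow Q c (mem_compl.1 hc)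
      unfold dfc
      nlinarith
    rw [sum_sub_distrib, ← mul_sum, ← e1, sum_const, nsmul_eq_mul] at e2
    have e3 : ((Qᶜ.card : ℕ) : ℝ) ≤ K := by
      have := card_le_univ Qᶜ
      rw [Fintype.card_fin] at this
      exact_mod_cast this
    have e4 : ((Qᶜ.card : ℕ) : ℝ) * (K * (K * θ)) ≤ K * (K * (K * θ)) :=
      mul_le_mul_of_nonneg_right e3 (by positivity)
    linarith
  -- the function `k` on `R Q`
  have h2 : avg (fun y => if y ∈ R Q then kf P F Q y else 0) =
      (Φ - Q.card) * mu (R Q) +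
        ∑ a ∈ Q, avg (fun y => if y ∈ R Q then app P a (F Q) y else 0) := by
    rw [← avg_sum, ← avg_indicator, ← avg_mul_left, ← avg_add]
    congr 1
    funext y
    have e1 := sum_app_mem hP F Q y
    have e2 : ∑ c ∈ Q, app P c (F Q)ᶜ y = Q.card - ∑ a ∈ Q, app P a (F Q) y := by
      rw [sum_congr rfl fun c _ => app_compl hP c (F Q) y, sum_sub_distrib, sum_const,
        nsmul_eq_mul, mul_one]
    by_cases hy : y ∈ R Q
    · simp only [if_pos hy]
      rw [mul_one]
      linarith
    · simp only [if_neg hy]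
      rw [sum_const_zero]
      ring
  have h3 : (Q.card : ℝ) * (1 - K ^ 2 * θ - K * θ) ≤
      K * ∑ a ∈ Q, avg (fun y => if y ∈ R Q then app P a (F Q) y else 0) := by
    rw [mul_sum, ← nsmul_eq_mul, ← sum_const]
    apply sum_le_sum
    intro a ha
    have e1 := mu_erase_le hP R θ hθ hS.grow Q a ha
    have e2 := hR1a (Q.erase a) (by
      rw [← card_pos, card_erase_of_mem ha]
      omega)
    have e3 : (K : ℝ) * (mu (R (Q.erase a)) - θ) ≤
        K * avg (fun y => if y ∈ R Q then app P a (rem R 1 Q) y else 0) :=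
      mul_le_mul_of_nonneg_left e1 (by linarith)
    rw [← hF] at e3
    linarith
  have h4 : (1 - K ^ 2 * θ) * (Φ - Q.card) ≤ K * ((Φ - Q.card) * mu (R Q)) := by
    have e1 := hR1a Q (by
      rw [← card_pos]
      omega)
    have e2 := mul_le_mul_of_nonneg_right e1 (sub_nonneg.2 hΦ)
    linarith
  rw [h2] at h1
  have h5 : (K : ℝ) ^ 2 * θ * Φ ≤ K ^ 2 * θ * K := mul_le_mul_of_nonneg_left hΦK (by positivity)
  have h6 : (Q.card : ℝ) * (K * θ) ≤ K * (K * θ) :=
    mul_le_mul_of_nonneg_right hqK (by positivity)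
  have h7 : (K : ℝ) * (K * θ) * 1 ≤ K * (K * θ) * K :=
    mul_le_mul_of_nonneg_left hK (by positivity)
  nlinarith

end Pool.Agent.Lib.MP_b1acb3_co.Uni
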