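import Pool.Agent.Lib.MP_b1acb3_co.Uni.Stmts

/-!
Module (L): the logarithmic potential.
-/

namespace Pool.Agent.Lib.MP_b1acb3_co.Uni

open Finset

namespace ModL

theorem EQ_mono {K i : ℕ} {f g : Finset (Fin K) → ℝ} (h : ∀ Q, Q.card = i → f Q ≤ g Q) :
    EQ K i f ≤ EQ K i g := by
  unfold EQ
  apply div_le_div_of_nonneg_right _ (Nat.cast_nonneg _)
  apply sum_le_sum
  intro Q hQ
  exact h Q (mem_powersetCard.1 hQ).2

theorem EQ_congr {K i : ℕ} {f g : Finset (Fin K) → ℝ} (h : ∀ Q, Q.card = i → f Q = g Q) :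
    EQ K i f = EQ K i g :=
  le_antisymm (EQ_mono fun Q hQ => (h Q hQ).le) (EQ_mono fun Q hQ => (h Q hQ).ge)

theorem EQ_const {K i : ℕ} (hi : i ≤ K) (a : ℝ) : EQ K i (fun _ => a) = a := by
  unfold EQ
  rw [sum_const, card_powersetCard, card_univ, Fintype.card_fin, nsmul_eq_mul]
  have h : (0 : ℝ) < (K.choose i : ℝ) := by exact_mod_cast Nat.choose_pos hi
  field_simp

theorem EQ_sub {K i : ℕ} (f g : Finset (Fin K) → ℝ) :
    EQ K i (fun Q => f Q - g Q) = EQ K i f - EQ K i g := by
  unfold EQ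
  rw [sum_sub_distrib, sub_div]

theorem EQ_mul {K i : ℕ} (a : ℝ) (f : Finset (Fin K) → ℝ) :
    EQ K i (fun Q => a * f Q) = a * EQ K i f := by
  unfold EQ
  rw [← mul_sum, mul_div_assoc]

end ModL

open ModL in
theorem thmL (hC : StChain) : StL := by
  intro n K P F η i hP hη hF hi hD
  have hK0 : (0 : ℝ) < K := by exact_mod_cast hP.kpos
  have hiK : (i : ℝ) + 1 ≤ K := by exact_mod_cast hi
  have hi0 : (0 : ℝ) ≤ i := Nat.cast_nonneg i
  have hKi : (0 : ℝ) < (K : ℝ) - i := by linarith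
  have hKη : 0 ≤ (K : ℝ) * η := by positivity
  -- the chain identity for the logarithm
  have hchain : EQ K i (fun Q => ∑ c ∈ Qᶜ, Real.log (dfc F (insert c Q))) =
      ((K : ℝ) - i) * lamE F (i + 1) := by
    have h1 := hC K i (fun Q c => Real.log (dfc F (insert c Q))) hi
    rw [h1]
    have h2 : EQ K (i + 1) (fun Q => ∑ c ∈ Q, Real.log (dfc F (insert c (Q.erase c)))) =
        EQ K (i + 1) (fun Q => ((i : ℝ) + 1) * Real.log (dfc F Q)) := by
      apply EQ_congr
      intro Q hQ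
      rw [sum_congr rfl fun c hc => by rw [insert_erase hc], sum_const, hQ, nsmul_eq_mul]
      push_cast
      ring
    rw [h2, EQ_mul]
    unfold lamE
    have h3 : ((i : ℝ) + 1) ≠ 0 := by positivity
    field_simp
  -- cardinality of the complement
  have hcard : ∀ Q : Finset (Fin K), Q.card = i → ((Qᶜ.card : ℕ) : ℝ) = (K : ℝ) - i := by
    intro Q hQ
    rw [card_compl, Fintype.card_fin, hQ, Nat.cast_sub (by omega)]
  -- pointwise bounds
  have hpt : ∀ Q : Finset (Fin K), Q.card = i →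
      ∑ c ∈ Qᶜ, Real.log (dfc F (insert c Q)) ≤
        ((K : ℝ) - i) * Real.log (dfc F Q) - loss F Q / dfc F Q := by
    intro Q hQ
    have hD1 : 1 / 2 ≤ dfc F Q := hD Q (Or.inl hQ)
    have hD1' : 0 < dfc F Q := by linarith
    have h1 : ∑ c ∈ Qᶜ, Real.log (dfc F (insert c Q)) ≤
        ∑ c ∈ Qᶜ, (Real.log (dfc F Q) - (dfc F Q - dfc F (insert c Q)) / dfc F Q) := by
      apply sum_le_sum
      intro c hc
      have hc' : c ∉ Q := mem_compl.1 hc
      have hD2 : 1 / 2 ≤ dfc F (insert c Q) := hD _ (Or.inr (by rw [card_insert_of_notMem hc', hQ]))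
      have hD2' : 0 < dfc F (insert c Q) := by linarith
      have h2 := Real.log_le_sub_one_of_pos (div_pos hD2' hD1')
      rw [Real.log_div hD2'.ne' hD1'.ne'] at h2
      have h3 : (dfc F Q - dfc F (insert c Q)) / dfc F Q = 1 - dfc F (insert c Q) / dfc F Q := by
        rw [sub_div, div_self hD1'.ne']
      rw [h3]
      linarith
    rw [sum_sub_distrib, sum_const, nsmul_eq_mul, hcard Q hQ, ← sum_div] at h1
    exact h1
  have hloss : ∀ Q : Finset (Fin K), Q.card = i →
      -(((K : ℝ) - i) * (2 * (K * η))) ≤ loss F Q / dfc F Q := by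
    intro Q hQ
    have hD1 : 1 / 2 ≤ dfc F Q := hD Q (Or.inl hQ)
    have hD1' : 0 < dfc F Q := by linarith
    have h1 : -(((K : ℝ) - i) * (K * η)) ≤ loss F Q := by
      unfold loss
      calc -(((K : ℝ) - i) * (K * η)) = ∑ _c ∈ Qᶜ, (-((K : ℝ) * η)) := by
            rw [sum_const, nsmul_eq_mul, hcard Q hQ]; ring
        _ ≤ _ := by
            apply sum_le_sum
            intro c hc
            have h2 := dfc_grow hP F η hη hF Q c (mem_compl.1 hc)
            linarith
    rw [le_div_iff₀ hD1']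
    have h3 : 0 ≤ ((K : ℝ) - i) * (K * η) := by positivity
    nlinarith
  -- expectation
  have hs : sE F i ≤ ((K : ℝ) - i) * (lamE F i - lamE F (i + 1)) := by
    have h1 := EQ_mono (K := K) (i := i) hpt
    rw [hchain, EQ_sub, EQ_mul] at h1
    unfold sE
    have h2 : EQ K i (fun Q => Real.log (dfc F Q)) = lamE F i := rfl
    rw [h2] at h1
    linarith
  have hs0 : -(((K : ℝ) - i) * (2 * (K * η))) ≤ sE F i := by
    have h1 := EQ_mono (K := K) (i := i) hloss
    rw [EQ_const (by omega)] at h1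
    exact h1
  have hlam : -(2 * (K * η)) ≤ lamE F i - lamE F (i + 1) := by
    by_contra hcon
    push Not at hcon
    have : ((K : ℝ) - i) * (lamE F i - lamE F (i + 1)) < ((K : ℝ) - i) * (-(2 * (K * η))) :=
      mul_lt_mul_of_pos_left hcon hKi
    linarith
  refine ⟨by linarith, ?_, ?_, ?_⟩
  · rw [div_le_iff₀ hK0]
    have h4 : (i : ℝ) * (-(lamE F i - lamE F (i + 1))) ≤ i * (2 * (K * η)) :=
      mul_le_mul_of_nonneg_left (by linarith) hi0
    have h5 : (i : ℝ) * (2 * (K * η)) ≤ K * (2 * (K * η)) :=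
      mul_le_mul_of_nonneg_right (by linarith) (by positivity)
    nlinarith
  · have h6 : ((K : ℝ) - i) * (2 * (K * η)) ≤ K * (2 * (K * η)) :=
      mul_le_mul_of_nonneg_right (by linarith) (by positivity)
    nlinarith
  · have h1 : lamE F i ≤ EQ K i (fun _ => Real.log K) := by
      apply EQ_mono
      intro Q hQ
      have hD1 : 1 / 2 ≤ dfc F Q := hD Q (Or.inl hQ)
      exact Real.log_le_log (by linarith) (dfc_le F Q)
    rwa [EQ_const (by omega)] at h1

end Pool.Agent.Lib.MP_b1acb3_co.Uni
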