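import Pool.Agent.Lib.MP_b1acb3_co.Uni.Stmts

/-!
Module O: expectation of (B) over the pairs `(Q, Q ∪ {c'})`.
-/

namespace Pool.Agent.Lib.MP_b1acb3_co.Uni

open Finset

namespace OMod

theorem EQ_mono {K i : ℕ} {f g : Finset (Fin K) → ℝ} (h : ∀ Q, Q.card = i → f Q ≤ g Q) :
    EQ K i f ≤ EQ K i g := by
  unfold EQ
  apply div_le_div_of_nonneg_right _ (Nat.cast_nonneg _)
  apply sum_le_sum
  intro Q hQ
  exact h Q (mem_powersetCard.1 hQ).2

theorem EQ_congr {K i : ℕ} {f g : Finset (Fin K) → ℝ} (h : ∀ Q, Q.card = i → f Q = g Q) :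
    EQ K i f = EQ K i g := by
  unfold EQ
  congr 1
  apply sum_congr rfl
  intro Q hQ
  exact h Q (mem_powersetCard.1 hQ).2

theorem EQ_add {K i : ℕ} (f g : Finset (Fin K) → ℝ) :
    EQ K i (fun Q => f Q + g Q) = EQ K i f + EQ K i g := by
  unfold EQ
  rw [sum_add_distrib, add_div]

theorem EQ_mul {K i : ℕ} (a : ℝ) (f : Finset (Fin K) → ℝ) :
    EQ K i (fun Q => a * f Q) = a * EQ K i f := by
  unfold EQ
  rw [← mul_sum, mul_div_assoc]

theorem EQ_const {K i : ℕ} (hi : i ≤ K) (a : ℝ) : EQ K i (fun _ => a) = a := by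
  unfold EQ
  rw [sum_const, card_powersetCard, card_univ, Fintype.card_fin, nsmul_eq_mul]
  have : ((K.choose i : ℕ) : ℝ) ≠ 0 := by
    have := Nat.choose_pos hi
    positivity
  field_simp

/-- The normalised inner products after the colour `c'` is added. -/
noncomputable def gg {n K : ℕ} (P : Fin K → Matrix (Fin n) (Fin n) ℝ)
    (F : Finset (Fin K) → Finset (Fin n)) (Q : Finset (Fin K)) (c' : Fin K) : ℝ :=
  (∑ c ∈ Qᶜ.erase c',
    avg (fun y => app P c (F (insert c' Q))ᶜ y * app P c' (F (insert c' Q))ᶜ y)) /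
      dfc F (insert c' Q) ^ 2

theorem gg_nonneg {n K : ℕ} {P : Fin K → Matrix (Fin n) (Fin n) ℝ} (hP : Markov P)
    (F : Finset (Fin K) → Finset (Fin n)) (Q : Finset (Fin K)) (c' : Fin K) :
    0 ≤ gg P F Q c' := by
  unfold gg
  apply div_nonneg _ (sq_nonneg _)
  apply sum_nonneg
  intro c _
  apply avg_nonneg
  intro y
  exact mul_nonneg (app_nonneg hP _ _ _) (app_nonneg hP _ _ _)

/-- Summation over the removed colour gives `mh`. -/
theorem sum_gg {n K : ℕ} {P : Fin K → Matrix (Fin n) (Fin n) ℝ} (hP : Markov P)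
    (F : Finset (Fin K) → Finset (Fin n)) (Q : Finset (Fin K)) :
    ∑ c ∈ Q, gg P F (Q.erase c) c = mh P F Q := by
  have h1 : ∀ c' ∈ Q, gg P F (Q.erase c') c' =
      (∑ c ∈ Qᶜ, avg (fun y => app P c (F Q)ᶜ y * app P c' (F Q)ᶜ y)) / dfc F Q ^ 2 := by
    intro c' hc'
    unfold gg
    rw [insert_erase hc']
    have h2 : (Q.erase c')ᶜ.erase c' = Qᶜ := by
      ext a
      simp only [mem_erase, mem_compl]
      constructor
      · rintro ⟨h3, h4⟩ h5
        exact h4 ⟨h3, h5⟩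
      · intro h3
        exact ⟨fun h => h3 (h ▸ hc'), fun h => h3 h.2⟩
    rw [h2]
  rw [sum_congr rfl h1, ← sum_div]
  unfold mh
  congr 1
  have h3 : ∀ y, kf P F Q y * (dfc F Q - kf P F Q y) =
      ∑ c' ∈ Q, ∑ c ∈ Qᶜ, app P c (F Q)ᶜ y * app P c' (F Q)ᶜ y := by
    intro y
    rw [← sum_app_mem hP F Q y, mul_sum]
    apply sum_congr rfl
    intro c' _
    unfold kf
    rw [sum_mul]
  have h4 : (fun y => kf P F Q y * (dfc F Q - kf P F Q y)) =
      fun y => ∑ c' ∈ Q, ∑ c ∈ Qᶜ, app P c (F Q)ᶜ y * app P c' (F Q)ᶜ y := funext h3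
  rw [h4, avg_sum]
  apply sum_congr rfl
  intro c' _
  rw [avg_sum]

theorem point {n K : ℕ} {P : Fin K → Matrix (Fin n) (Fin n) ℝ}
    {F : Finset (Fin K) → Finset (Fin n)} {η : ℝ} (hB : StB) (hP : Markov P) (hη : 0 ≤ η)
    (hK : 4 * K * η ≤ 1) (hF : Grows P F η) (Q : Finset (Fin K)) (c' : Fin K) (hc' : c' ∉ Q)
    (hD1 : 1 / 2 ≤ dfc F Q) (hD : 1 / 2 ≤ dfc F (insert c' Q)) :
    (∑ c ∈ Qᶜ.erase c', avg (fun y => app P c (F Q)ᶜ y * app P c' (F Q)ᶜ y)) / dfc F Q ^ 2 ≤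
      (1 + 5 * K * η) * gg P F Q c' +
        (2 + 2 * K * η) / dfc F Q * ((dfc F Q - dfc F (insert c' Q)) / K + η) := by
  have hKpos : (0 : ℝ) < K := by exact_mod_cast hP.kpos
  have hb := hB n K P F η hP hη hF Q c' hc'
  have hg := dfc_grow hP F η hη hF Q c' hc'
  have hg0 := gg_nonneg hP F Q c'
  set D1 := dfc F Q with hD1d
  set D := dfc F (insert c' Q) with hDd
  set X := ∑ c ∈ Qᶜ.erase c', avg (fun y => app P c (F Q)ᶜ y * app P c' (F Q)ᶜ y) with hX
  have hD1p : 0 < D1 := by linarith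
  have hDp : 0 < D := by linarith
  have hY : (∑ c ∈ Qᶜ.erase c',
      avg (fun y => app P c (F (insert c' Q))ᶜ y * app P c' (F (insert c' Q))ᶜ y)) =
      D ^ 2 * gg P F Q c' := by
    unfold gg
    rw [← hDd]
    field_simp
  rw [hY] at hb
  have hKη : 0 ≤ K * η := by positivity
  -- the quotient
  have hq : D ≤ (1 + 2 * K * η) * D1 := by
    have : K * η ≤ 2 * K * η * D1 := by nlinarith
    linarith
  have hq2 : D ^ 2 ≤ (1 + 5 * K * η) * D1 ^ 2 := by
    have h1 : D ^ 2 ≤ ((1 + 2 * K * η) * D1) ^ 2 := by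
      apply pow_le_pow_left₀ hDp.le hq
    have h2 : (1 + 2 * K * η) ^ 2 ≤ 1 + 5 * K * η := by nlinarith
    calc D ^ 2 ≤ ((1 + 2 * K * η) * D1) ^ 2 := h1
      _ = (1 + 2 * K * η) ^ 2 * D1 ^ 2 := by ring
      _ ≤ _ := mul_le_mul_of_nonneg_right h2 (sq_nonneg _)
  have hz : 0 ≤ (D1 - D) / K + η := by
    have : 0 ≤ (D1 - D + K * η) / K := div_nonneg (by linarith) hKpos.le
    have h2 : (D1 - D + K * η) / K = (D1 - D) / K + η := by field_simp
    linarith
  rw [div_le_iff₀ (by positivity)]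
  have e1 : ((1 + 5 * K * η) * gg P F Q c' +
        (2 + 2 * K * η) / D1 * ((D1 - D) / K + η)) * D1 ^ 2 =
      ((1 + 5 * K * η) * D1 ^ 2) * gg P F Q c' +
        ((2 + 2 * K * η) * D1) * ((D1 - D) / K + η) := by
    field_simp
  rw [e1]
  refine hb.trans ?_
  apply add_le_add
  · exact mul_le_mul_of_nonneg_right hq2 hg0
  · apply mul_le_mul_of_nonneg_right _ hz
    linarith

end OMod

open OMod

theorem thmO (hB : StB) (hC : StChain) : StO := by
  intro n K P F η i hP hη hK hF hi hD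
  have hKpos : (0 : ℝ) < K := by exact_mod_cast hP.kpos
  have hK1 : (1 : ℝ) ≤ K := by exact_mod_cast hP.kpos
  have hKη : 0 ≤ K * η := by positivity
  have hKη2 : K * η ≤ K ^ 2 * η := by nlinarith
  have hpt : ∀ Q : Finset (Fin K), Q.card = i →
      offd P F Q ≤ (1 + 5 * K * η) * (∑ c' ∈ Qᶜ, gg P F Q c') +
        ((2 / K) * (loss F Q / dfc F Q) + 7 * (K * η)) := by
    intro Q hQ
    have hD1 : 1 / 2 ≤ dfc F Q := hD Q (Or.inl hQ)
    have hD1p : 0 < dfc F Q := by linarith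
    have h1 : offd P F Q ≤ ∑ c' ∈ Qᶜ, ((1 + 5 * K * η) * gg P F Q c' +
        (2 + 2 * K * η) / dfc F Q * ((dfc F Q - dfc F (insert c' Q)) / K + η)) := by
      unfold offd
      rw [sum_div]
      apply sum_le_sum
      intro c' hc'
      have hc'' : c' ∉ Q := mem_compl.1 hc'
      exact point hB hP hη hK hF Q c' hc'' hD1
        (hD _ (Or.inr (by rw [card_insert_of_notMem hc'', hQ])))
    refine h1.trans ?_
    rw [sum_add_distrib, ← mul_sum, ← mul_sum]
    apply add_le_add le_rfl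
    have h2 : ∑ c' ∈ Qᶜ, ((dfc F Q - dfc F (insert c' Q)) / K + η) =
        loss F Q / K + (Qᶜ.card : ℝ) * η := by
      rw [sum_add_distrib, sum_const, nsmul_eq_mul, ← sum_div]
      rfl
    rw [h2]
    have h3 : (Qᶜ.card : ℝ) ≤ K := by
      have := card_le_univ Qᶜ
      rw [Fintype.card_fin] at this
      exact_mod_cast this
    have h4 : loss F Q ≤ K * dfc F Q := by
      unfold loss
      calc ∑ c ∈ Qᶜ, (dfc F Q - dfc F (insert c Q)) ≤ ∑ c ∈ Qᶜ, dfc F Q := by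
            apply sum_le_sum
            intro c _
            have := dfc_nonneg F (insert c Q)
            linarith
        _ = (Qᶜ.card : ℝ) * dfc F Q := by rw [sum_const, nsmul_eq_mul]
        _ ≤ _ := mul_le_mul_of_nonneg_right h3 hD1p.le
    have h5 : loss F Q / dfc F Q ≤ K := by
      rw [div_le_iff₀ hD1p]
      exact h4
    have h6 : (Qᶜ.card : ℝ) * η / dfc F Q ≤ 2 * (K * η) := by
      rw [div_le_iff₀ hD1p]
      have : (Qᶜ.card : ℝ) * η ≤ K * η := mul_le_mul_of_nonneg_right h3 hη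
      nlinarith
    have h7 : (2 + 2 * K * η) / dfc F Q * (loss F Q / K + (Qᶜ.card : ℝ) * η) =
        (2 + 2 * K * η) * (loss F Q / dfc F Q / K) +
          (2 + 2 * K * η) * ((Qᶜ.card : ℝ) * η / dfc F Q) := by
      field_simp
    have h8 : (2 + 2 * K * η) * (loss F Q / dfc F Q / K) =
        (2 / K) * (loss F Q / dfc F Q) + 2 * η * (loss F Q / dfc F Q) := by
      field_simp
    have h9 : 2 * η * (loss F Q / dfc F Q) ≤ 2 * η * K :=
      mul_le_mul_of_nonneg_left h5 (by positivity)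
    have h10 : (2 + 2 * K * η) * ((Qᶜ.card : ℝ) * η / dfc F Q) ≤
        (2 + 2 * K * η) * (2 * (K * η)) := mul_le_mul_of_nonneg_left h6 (by nlinarith)
    have h11 : (2 + 2 * K * η) * (2 * (K * η)) ≤ 5 * (K * η) := by nlinarith
    rw [h7, h8]
    linarith
  have hch := hC K i (fun Q c => gg P F Q c) hi
  have hmh : EQ K (i + 1) (fun Q => ∑ c ∈ Q, gg P F (Q.erase c) c) =
      EQ K (i + 1) (mh P F) := EQ_congr fun Q _ => sum_gg hP F Q
  have hmh' : EQ K i (fun Q => ∑ c ∈ Qᶜ, gg P F Q c) =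
      (((K : ℝ) - i) / ((i : ℝ) + 1)) * EQ K (i + 1) (mh P F) := by
    rw [← hmh]
    exact hch
  have hmle : EQ K (i + 1) (mh P F) ≤ 1 / 4 := by
    have h1 : EQ K (i + 1) (mh P F) ≤ EQ K (i + 1) (fun _ => (1 / 4 : ℝ)) :=
      EQ_mono fun Q _ => mh_le hP F Q
    rwa [EQ_const hi] at h1
  have hmge : 0 ≤ EQ K (i + 1) (mh P F) := by
    have h1 : EQ K (i + 1) (fun _ => (0 : ℝ)) ≤ EQ K (i + 1) (mh P F) :=
      EQ_mono fun Q _ => mh_nonneg hP F Q
    rwa [EQ_const hi] at h1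
  have hiK : ((i : ℝ) + 1) ≤ K := by exact_mod_cast hi
  have hr0 : 0 ≤ ((K : ℝ) - i) / ((i : ℝ) + 1) :=
    div_nonneg (by linarith) (by positivity)
  have hr1 : ((K : ℝ) - i) / ((i : ℝ) + 1) ≤ K := by
    rw [div_le_iff₀ (by positivity)]
    have : (0 : ℝ) ≤ i := Nat.cast_nonneg i
    nlinarith
  have hfin : EQ K i (offd P F) ≤ (1 + 5 * K * η) * EQ K i (fun Q => ∑ c ∈ Qᶜ, gg P F Q c) +
      ((2 / K) * sE F i + 7 * (K * η)) := by
    have h1 := EQ_mono (K := K) (i := i) (f := offd P F) hpt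
    rw [EQ_add, EQ_mul, EQ_add, EQ_mul, EQ_const (by omega)] at h1
    exact h1
  rw [hmh'] at hfin
  set r := ((K : ℝ) - i) / ((i : ℝ) + 1)
  set m := EQ K (i + 1) (mh P F)
  have h1 : r * m ≤ K * (1 / 4) := mul_le_mul hr1 hmle hmge hKpos.le
  have h2 : 5 * (K * η) * (r * m) ≤ 5 * (K * η) * (K * (1 / 4)) :=
    mul_le_mul_of_nonneg_left h1 (by positivity)
  have h3 : 5 * (K * η) * (K * (1 / 4)) = 5 / 4 * (K ^ 2 * η) := by ring
  have h4 : (1 + 5 * K * η) * (r * m) = r * m + 5 * (K * η) * (r * m) := by ring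
  rw [h4] at hfin
  have h5 : 0 ≤ K ^ 2 * η := by positivity
  have h6 : (9 : ℝ) * K ^ 2 * η = 9 * (K ^ 2 * η) := by ring
  rw [h6]
  linarith

end Pool.Agent.Lib.MP_b1acb3_co.Uni
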