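import Pool.Agent.Lib.MP_b1acb3_co.Uni.Stmts

/-!
From the potential to single pairs of colours.
-/

namespace Pool.Agent.Lib.MP_b1acb3_co.Uni

open Finset

/-- At least half of the sets of `i` elements avoid two given elements. -/
theorem two_mul_choose_sub_two {m i : ℕ} (hm : 2 ≤ m) (hi : 4 * i ≤ m + 2) :
    (m + 2).choose i ≤ 2 * m.choose i := by
  have h1 : m.choose i * (m + 1) = (m + 1).choose i * (m + 1 - i) := Nat.choose_mul_succ_eq m i
  have h2 : (m + 1).choose i * (m + 1 + 1) = (m + 1 + 1).choose i * (m + 1 + 1 - i) :=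
    Nat.choose_mul_succ_eq (m + 1) i
  obtain ⟨j, hj⟩ : ∃ j, m + 1 - i = j ∧ m = j + i - 1 := ⟨m + 1 - i, rfl, by omega⟩
  have hj1 : m + 1 = j + i := by omega
  have hj2 : m + 1 + 1 - i = j + 1 := by omega
  rw [hj.1] at h1
  rw [hj2] at h2
  have h3 : m.choose i * ((m + 1) * (m + 2)) = (m + 2).choose i * (j * (j + 1)) := by
    calc m.choose i * ((m + 1) * (m + 2)) = (m.choose i * (m + 1)) * (m + 2) := by ring
      _ = ((m + 1).choose i * (m + 1 + 1)) * j := by rw [h1]; ring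
      _ = (m + 2).choose i * (j * (j + 1)) := by rw [h2]; ring
  have h4 : (m + 1) * (m + 2) ≤ 2 * (j * (j + 1)) := by
    have h5 : 3 * (m + 2) ≤ 4 * (j + 1) := by omega
    have h6 : 3 * (m + 2) ≤ 4 * j + 4 := by omega
    nlinarith
  have h7 : (m + 2).choose i * (j * (j + 1)) ≤ (2 * m.choose i) * (j * (j + 1)) := by
    calc (m + 2).choose i * (j * (j + 1)) = m.choose i * ((m + 1) * (m + 2)) := h3.symm
      _ ≤ m.choose i * (2 * (j * (j + 1))) := Nat.mul_le_mul_left _ h4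
      _ = _ := by ring
  have hjpos : 0 < j * (j + 1) := by
    have : 0 < j := by omega
    positivity
  exact Nat.le_of_mul_le_mul_right h7 hjpos

theorem thmPair (h1 : StR1) (h2 : StR2) : StPair := by
  refine ⟨4, fun K hK n P R θ hS hθK i hi2 hi4 hlam a b hab => ?_⟩
  have hθ := hS.nonneg
  have hK4 : (4 : ℝ) ≤ K := by exact_mod_cast hK
  have hK0 : (0 : ℝ) < K := by linarith
  obtain ⟨r1, r1'⟩ := h1 n K P R θ 2 hS
  -- the small quantities
  set y : ℝ := (K : ℝ) ^ 3 * θ with hy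
  have hy0 : 0 ≤ y := by positivity
  set u : ℝ := 1 / (K : ℝ) ^ 8 with hu
  have hu0 : 0 < u := by positivity
  have hyu : y ≤ u / 16 := by
    rw [hu, div_div, le_div_iff₀ (by positivity), hy]
    have h9 : (16 : ℝ) ≤ (K : ℝ) ^ 9 := by
      calc (16 : ℝ) ≤ 4 ^ 9 := by norm_num
        _ ≤ (K : ℝ) ^ 9 := pow_le_pow_left₀ (by norm_num) hK4 9
    calc (K : ℝ) ^ 3 * θ * ((K : ℝ) ^ 8 * 16) = (θ * (K : ℝ) ^ 11) * 16 := by ring
      _ ≤ (θ * (K : ℝ) ^ 11) * (K : ℝ) ^ 9 := mul_le_mul_of_nonneg_left h9 (by positivity)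
      _ = θ * (K : ℝ) ^ 20 := by ring
      _ ≤ 1 := hθK
  have hu1 : u ≤ 1 / 64 := by
    rw [hu]
    apply one_div_le_one_div_of_le (by norm_num)
    calc (64 : ℝ) ≤ 4 ^ 8 := by norm_num
      _ ≤ (K : ℝ) ^ 8 := pow_le_pow_left₀ (by norm_num) hK4 8
  have hu5 : 64 * u ≤ 1 / (K : ℝ) ^ 5 := by
    rw [hu, mul_one_div, div_le_div_iff₀ (by positivity) (by positivity), one_mul]
    have h3 : (64 : ℝ) ≤ (K : ℝ) ^ 3 := by
      calc (64 : ℝ) = 4 ^ 3 := by norm_num
        _ ≤ (K : ℝ) ^ 3 := pow_le_pow_left₀ (by norm_num) hK4 3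
    calc 64 * (K : ℝ) ^ 5 ≤ (K : ℝ) ^ 3 * (K : ℝ) ^ 5 :=
          mul_le_mul_of_nonneg_right h3 (by positivity)
      _ = (K : ℝ) ^ 8 := by ring
  have hK2y : (K : ℝ) ^ 2 * θ ≤ y := by
    rw [hy]
    apply mul_le_mul_of_nonneg_right _ hθ
    exact pow_le_pow_right₀ (by linarith) (by norm_num)
  -- the defect of a set of `i` colours
  have hcompl : ∀ Q : Finset (Fin K), Q.card = i → Qᶜ.Nonempty ∧
      K * mu (R Qᶜ) ≤ dfc (rem R 2) Q + y := by
    intro Q hQ
    have hc : Qᶜ.card = K - i := by rw [card_compl, Fintype.card_fin, hQ]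
    have hne : Qᶜ.Nonempty := by
      rw [← card_pos, hc]
      omega
    refine ⟨hne, ?_⟩
    have := h2 n K P R θ 2 2 hS le_rfl Q Qᶜ disjoint_compl_right hne (by rw [hQ, hc]; omega)
    rw [hy]
    exact this
  have hD1 : ∀ Q : Finset (Fin K), Q.card = i → 1 - 2 * y ≤ dfc (rem R 2) Q := by
    intro Q hQ
    obtain ⟨hne, hle⟩ := hcompl Q hQ
    have := r1 Qᶜ hne
    linarith
  set β : ℝ := K * mu (R {a, b}) with hβ
  have hD2 : ∀ Q : Finset (Fin K), Q.card = i → Q ⊆ ({a, b} : Finset (Fin K))ᶜ →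
      β - 2 * y ≤ dfc (rem R 2) Q := by
    intro Q hQ hsub
    obtain ⟨hne, hle⟩ := hcompl Q hQ
    have hsub' : ({a, b} : Finset (Fin K)) ⊆ Qᶜ := by
      intro x hx
      rw [mem_compl]
      intro hxQ
      exact (mem_compl.1 (hsub hxQ)) hx
    have h3 := r1' {a, b} Qᶜ hsub'
    have h4 : K * mu (R {a, b}) ≤ K * mu (R Qᶜ) + (K : ℝ) ^ 2 * θ := by
      calc K * mu (R {a, b}) ≤ K * (mu (R Qᶜ) + K * θ) := mul_le_mul_of_nonneg_left h3 hK0.le
        _ = _ := by ring
    linarith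
  by_cases hcase : β ≤ 1 + 2 * y
  · linarith
  push Not at hcase
  -- lower bound of the potential
  set l : ℝ := Real.log (β - 2 * y) with hl
  have hβ1 : 1 < β - 2 * y := by linarith
  have hl0 : 0 < l := Real.log_pos hβ1
  have hlog1 : ∀ Q : Finset (Fin K), Q.card = i → 0 ≤ Real.log (dfc (rem R 2) Q) + 4 * y := by
    intro Q hQ
    have h3 := hD1 Q hQ
    have h4 : 0 < 1 - 2 * y := by linarith
    have h5 : Real.log (1 - 2 * y) ≤ Real.log (dfc (rem R 2) Q) := Real.log_le_log h4 h3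
    have h6 := Real.one_sub_inv_le_log_of_pos h4
    have h7 : -(4 * y) ≤ 1 - (1 - 2 * y)⁻¹ := by
      have h8 : (1 - 2 * y)⁻¹ ≤ 1 + 4 * y := by
        rw [inv_le_comm₀ h4 (by linarith), ← one_div, div_le_iff₀ (by linarith)]
        nlinarith
      linarith
    linarith
  have hlog2 : ∀ Q : Finset (Fin K), Q.card = i → Q ⊆ ({a, b} : Finset (Fin K))ᶜ →
      l ≤ Real.log (dfc (rem R 2) Q) + 4 * y := by
    intro Q hQ hsub
    have h3 := Real.log_le_log (by linarith) (hD2 Q hQ hsub)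
    linarith
  have hcab : ({a, b} : Finset (Fin K))ᶜ.card = K - 2 := by
    rw [card_compl, Fintype.card_fin, card_pair hab]
  have hsum : l * ((K - 2).choose i : ℝ) ≤
      ∑ Q ∈ powersetCard i (univ : Finset (Fin K)), (Real.log (dfc (rem R 2) Q) + 4 * y) := by
    calc l * ((K - 2).choose i : ℝ) =
          ∑ Q ∈ powersetCard i ({a, b} : Finset (Fin K))ᶜ, l := by
          rw [sum_const, card_powersetCard, hcab, nsmul_eq_mul, mul_comm]
      _ ≤ ∑ Q ∈ powersetCard i ({a, b} : Finset (Fin K))ᶜ,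
            (Real.log (dfc (rem R 2) Q) + 4 * y) := by
          apply sum_le_sum
          intro Q hQ
          rw [mem_powersetCard] at hQ
          exact hlog2 Q hQ.2 hQ.1
      _ ≤ _ := by
          apply sum_le_sum_of_subset_of_nonneg
          · exact powersetCard_mono (subset_univ _)
          · intro Q hQ _
            rw [mem_powersetCard] at hQ
            exact hlog1 Q hQ.2
  have hch : ((K.choose i : ℕ) : ℝ) ≤ 2 * ((K - 2).choose i : ℝ) := by
    obtain ⟨m, hm⟩ : ∃ m, K = m + 2 := ⟨K - 2, by omega⟩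
    have := two_mul_choose_sub_two (m := m) (i := i) (by omega) (by omega)
    have e : K - 2 = m := by omega
    rw [e]
    rw [hm]
    exact_mod_cast this
  have hCpos : 0 < ((K.choose i : ℕ) : ℝ) := by
    have : 0 < K.choose i := Nat.choose_pos (by omega)
    exact_mod_cast this
  have hlam' : lamE (rem R 2) i * (K.choose i : ℝ) =
      ∑ Q ∈ powersetCard i (univ : Finset (Fin K)), Real.log (dfc (rem R 2) Q) := by
    unfold lamE EQ
    rw [div_mul_cancel₀ _ hCpos.ne']
  have hcard : ∑ Q ∈ powersetCard i (univ : Finset (Fin K)), (4 * y) =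
      (K.choose i : ℝ) * (4 * y) := by
    rw [sum_const, card_powersetCard, card_univ, Fintype.card_fin, nsmul_eq_mul]
  rw [sum_add_distrib, ← hlam', hcard] at hsum
  have hl2 : l ≤ 2 * u + 8 * y := by
    have h3 : l * (K.choose i : ℝ) ≤ (2 * (lamE (rem R 2) i + 4 * y)) * (K.choose i : ℝ) := by
      calc l * (K.choose i : ℝ) ≤ l * (2 * ((K - 2).choose i : ℝ)) :=
            mul_le_mul_of_nonneg_left hch hl0.le
        _ = 2 * (l * ((K - 2).choose i : ℝ)) := by ring
        _ ≤ 2 * (lamE (rem R 2) i * (K.choose i : ℝ) + (K.choose i : ℝ) * (4 * y)) :=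
            mul_le_mul_of_nonneg_left hsum (by norm_num)
        _ = _ := by ring
    have h4 := le_of_mul_le_mul_right h3 hCpos
    have h5 : lamE (rem R 2) i ≤ u := hlam
    linarith
  -- conclusion
  have hl3 : l ≤ 1 / 2 := by linarith
  have hexp : Real.exp l ≤ 1 + 2 * l := by
    have h3 := Real.add_one_le_exp (-l)
    rw [Real.exp_neg] at h3
    have h4 : 0 < 1 - l := by linarith
    have h5 : Real.exp l ≤ (1 - l)⁻¹ := by
      rw [← inv_inv (Real.exp l)]
      exact inv_anti₀ h4 (by linarith)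
    refine h5.trans ?_
    rw [inv_le_comm₀ h4 (by linarith), ← one_div, div_le_iff₀ (by linarith)]
    nlinarith
  have hβe : β - 2 * y = Real.exp l := by
    rw [hl, Real.exp_log (by linarith)]
  linarith

end Pool.Agent.Lib.MP_b1acb3_co.Uni
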