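import Pool.Agent.Lib.MP_b1acb3_co.Uni.S2

set_option autoImplicit false

/-!
Module S1: a set which contains nearly all endpoints of two steps, also for equal colours.
-/

namespace Pool.Agent.Lib.MP_b1acb3_co.Uni

open Finset

namespace S1

section abstractPart

variable {n : ℕ} {ι : Type*} {B : Finset ι} {Na : Fin n → Finset (Fin n)}
  {Nb : ι → Fin n → Finset (Fin n)} {A : Finset (Fin n)} {R' : ι → Finset (Fin n)} {N ζ : ℝ}

/-- Total of the escapes from the sets `R'`. -/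
lemma esc (hR2 : ∀ b ∈ B, ∑ z ∈ A, ((Nb b z \ R' b).card : ℝ) ≤ ζ * N ^ 2) :
    ∑ z ∈ A, ∑ b ∈ B, ((Nb b z \ R' b).card : ℝ) ≤ (B.card : ℝ) * (ζ * N ^ 2) := by
  rw [sum_comm]
  calc ∑ b ∈ B, ∑ z ∈ A, ((Nb b z \ R' b).card : ℝ) ≤ ∑ _b ∈ B, ζ * N ^ 2 :=
        sum_le_sum fun b hb => hR2 b hb
    _ = (B.card : ℝ) * (ζ * N ^ 2) := by rw [sum_const, nsmul_eq_mul]

/-- Few endpoints outside `R`. -/
lemma out (hdis : ∀ z, ∀ b ∈ B, Disjoint (Na z) (Nb b z))
    (hdeg : ∀ z, ∀ b ∈ B, (1 - ζ) * N ≤ ((Nb b z).card : ℝ))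
    (hR1 : ∀ b ∈ B, ((R' b).card : ℝ) ≤ (1 + ζ) * N)
    (hR2 : ∀ b ∈ B, ∑ z ∈ A, ((Nb b z \ R' b).card : ℝ) ≤ ζ * N ^ 2) :
    ∑ z ∈ A, ((Na z \ (B.biUnion R')ᶜ).card : ℝ) ≤
      (B.card : ℝ) * (2 * ζ * N * A.card + ζ * N ^ 2) := by
  have h1 : ∀ z ∈ A, ((Na z \ (B.biUnion R')ᶜ).card : ℝ) ≤
      ∑ b ∈ B, (2 * ζ * N + ((Nb b z \ R' b).card : ℝ)) := by
    intro z _
    have h2 : Na z \ (B.biUnion R')ᶜ ⊆ B.biUnion fun b => R' b \ Nb b z := by
      intro y hy
      rw [mem_sdiff, mem_compl, not_not, mem_biUnion] at hy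
      obtain ⟨hy1, b, hb, hy2⟩ := hy
      rw [mem_biUnion]
      refine ⟨b, hb, ?_⟩
      rw [mem_sdiff]
      exact ⟨hy2, fun h => (disjoint_left.mp (hdis z b hb)) hy1 h⟩
    have h3 : (Na z \ (B.biUnion R')ᶜ).card ≤ ∑ b ∈ B, (R' b \ Nb b z).card :=
      (card_le_card h2).trans card_biUnion_le
    have h4 : ((Na z \ (B.biUnion R')ᶜ).card : ℝ) ≤ ∑ b ∈ B, ((R' b \ Nb b z).card : ℝ) := by
      exact_mod_cast h3
    refine h4.trans (sum_le_sum fun b hb => ?_)
    have h5 : (R' b \ Nb b z).card + (R' b ∩ Nb b z).card = (R' b).card :=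
      card_sdiff_add_card_inter (R' b) (Nb b z)
    have h6 : (Nb b z \ R' b).card + (Nb b z ∩ R' b).card = (Nb b z).card :=
      card_sdiff_add_card_inter (Nb b z) (R' b)
    rw [inter_comm] at h6
    have h5' : ((R' b \ Nb b z).card : ℝ) + ((R' b ∩ Nb b z).card : ℝ) = ((R' b).card : ℝ) := by
      exact_mod_cast h5
    have h6' : ((Nb b z \ R' b).card : ℝ) + ((R' b ∩ Nb b z).card : ℝ) =
        ((Nb b z).card : ℝ) := by exact_mod_cast h6
    have := hdeg z b hb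
    have := hR1 b hb
    linarith
  refine (sum_le_sum h1).trans ?_
  have h7 : ∀ z, ∑ b ∈ B, (2 * ζ * N + ((Nb b z \ R' b).card : ℝ)) =
      (B.card : ℝ) * (2 * ζ * N) + ∑ b ∈ B, ((Nb b z \ R' b).card : ℝ) := by
    intro z
    rw [sum_add_distrib, sum_const, nsmul_eq_mul]
  rw [sum_congr rfl fun z _ => h7 z, sum_add_distrib, sum_const, nsmul_eq_mul]
  have h8 := esc (B := B) (Nb := Nb) (A := A) (R' := R') (N := N) (ζ := ζ) hR2
  nlinarith

/-- The union of the sets `R'` is large. -/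
lemma big (hdis : ∀ z, ∀ b ∈ B, ∀ b' ∈ B, b ≠ b' → Disjoint (Nb b z) (Nb b' z))
    (hdeg : ∀ z, ∀ b ∈ B, (1 - ζ) * N ≤ ((Nb b z).card : ℝ))
    (hR2 : ∀ b ∈ B, ∑ z ∈ A, ((Nb b z \ R' b).card : ℝ) ≤ ζ * N ^ 2) :
    (A.card : ℝ) * ((B.card : ℝ) * ((1 - ζ) * N)) - (B.card : ℝ) * (ζ * N ^ 2) ≤
      (A.card : ℝ) * ((B.biUnion R').card : ℝ) := by
  have h1 : ∀ z ∈ A, (B.card : ℝ) * ((1 - ζ) * N) - ∑ b ∈ B, ((Nb b z \ R' b).card : ℝ) ≤
      ((B.biUnion R').card : ℝ) := by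
    intro z _
    have h2 : (B.biUnion fun b => Nb b z ∩ R' b) ⊆ B.biUnion R' := by
      intro y hy
      rw [mem_biUnion] at hy ⊢
      obtain ⟨b, hb, hy⟩ := hy
      exact ⟨b, hb, (mem_inter.mp hy).2⟩
    have h3 : (B.biUnion fun b => Nb b z ∩ R' b).card = ∑ b ∈ B, (Nb b z ∩ R' b).card := by
      apply card_biUnion
      intro b hb b' hb' hne
      exact (hdis z b hb b' hb' hne).mono inter_subset_left inter_subset_left
    have h4 : ∑ b ∈ B, (Nb b z ∩ R' b).card ≤ (B.biUnion R').card := by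
      rw [← h3]
      exact card_le_card h2
    have h4' : ∑ b ∈ B, ((Nb b z ∩ R' b).card : ℝ) ≤ ((B.biUnion R').card : ℝ) := by
      exact_mod_cast h4
    have h5 : ∑ b ∈ B, ((1 - ζ) * N - ((Nb b z \ R' b).card : ℝ)) ≤
        ∑ b ∈ B, ((Nb b z ∩ R' b).card : ℝ) := by
      refine sum_le_sum fun b hb => ?_
      have h6 : (Nb b z \ R' b).card + (Nb b z ∩ R' b).card = (Nb b z).card :=
        card_sdiff_add_card_inter (Nb b z) (R' b)
      have h6' : ((Nb b z \ R' b).card : ℝ) + ((Nb b z ∩ R' b).card : ℝ) =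
        ((Nb b z).card : ℝ) := by exact_mod_cast h6
      have := hdeg z b hb
      linarith
    rw [sum_sub_distrib, sum_const, nsmul_eq_mul] at h5
    linarith
  have h7 := sum_le_sum h1
  rw [sum_sub_distrib, sum_const, sum_const, nsmul_eq_mul, nsmul_eq_mul] at h7
  have h8 := esc (B := B) (Nb := Nb) (A := A) (R' := R') (N := N) (ζ := ζ) hR2
  linarith

end abstractPart

lemma nbr_disj {n K : ℕ} (c : Sym2 (Fin n) → Fin K) (z : Fin n) {a b : Fin K} (h : a ≠ b) :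
    Disjoint (nbr c z a) (nbr c z b) := by
  rw [disjoint_left]
  intro y hy hy'
  unfold nbr at hy hy'
  rw [mem_filter] at hy hy'
  exact h (hy.2.2.symm.trans hy'.2.2)

end S1

open S1 in
/-- (S1) a set `R` also for `a = b`. -/
theorem thmS1 : StS1 := by
  intro n K c ζ hK hζ hKζ hn hst x a b
  have hK2 : (2 : ℝ) ≤ K := by exact_mod_cast hK
  have hK0 : (0 : ℝ) < K := by linarith
  have hn0 : (0 : ℝ) < n := by
    rcases Nat.eq_zero_or_pos n with h0 | h0
    · rw [h0] at hn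
      push_cast at hn
      linarith
    · exact_mod_cast h0
  obtain ⟨N, hNdef⟩ : ∃ N : ℝ, N = (n : ℝ) / K := ⟨_, rfl⟩
  have hN : 0 < N := by rw [hNdef]; positivity
  have hnN : (n : ℝ) = K * N := by rw [hNdef]; field_simp
  have hup := S2.nbr_le c hK hζ hst.deg x
  have hlow := hst.deg
  rw [← hNdef]
  rw [← hNdef] at hup
  simp only [← hNdef] at hlow
  have hζK : ζ ≤ 1 / 16 := by nlinarith
  have h8 : ζ ≤ 8 * K * ζ := by nlinarith
  by_cases hab : a = b
  · subst hab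
    have hex : ∀ b : Fin K, ∃ R : Finset (Fin n), b ≠ a → ((R.card : ℝ) ≤ (1 + ζ) * N ∧
        ∑ z ∈ nbr c x a, ((nbr c z b \ R).card : ℝ) ≤ ζ * N ^ 2) := by
      intro b
      by_cases hb : b = a
      · exact ⟨∅, fun h => absurd hb h⟩
      · obtain ⟨R, h1, h2, _⟩ := hst.two x a b (fun h => hb h.symm)
        rw [← hNdef] at h1 h2
        exact ⟨R, fun _ => ⟨h1, by exact_mod_cast h2⟩⟩
    choose R' hR' using hex
    have hBcard : ((univ.erase a : Finset (Fin K)).card : ℝ) = K - 1 := by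
      rw [card_erase_of_mem (mem_univ a), card_univ, Fintype.card_fin, Nat.cast_sub (by omega)]
      norm_num
    have hout := out (B := univ.erase a) (Na := fun z => nbr c z a) (Nb := fun b z => nbr c z b)
      (A := nbr c x a) (R' := R') (N := N) (ζ := ζ)
      (fun z b hb => nbr_disj c z (fun h => (ne_of_mem_erase hb) h.symm))
      (fun z b _ => hlow z b) (fun b hb => (hR' b (ne_of_mem_erase hb)).1)
      (fun b hb => (hR' b (ne_of_mem_erase hb)).2)
    have hbig := big (B := univ.erase a) (Nb := fun b z => nbr c z b)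
      (A := nbr c x a) (R' := R') (N := N) (ζ := ζ)
      (fun z b _ b' _ hne => nbr_disj c z hne)
      (fun z b _ => hlow z b)
      (fun b hb => (hR' b (ne_of_mem_erase hb)).2)
    rw [hBcard] at hout hbig
    have hA1 := hup a
    have hA2 := hlow x a
    refine ⟨((univ.erase a).biUnion R')ᶜ, ?_, ?_⟩
    · have hc : (((univ.erase a).biUnion R')ᶜ.card : ℝ) =
          n - (((univ.erase a).biUnion R').card : ℝ) := by
        rw [card_compl, Fintype.card_fin, Nat.cast_sub]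
        calc ((univ.erase a).biUnion R').card ≤ (univ : Finset (Fin n)).card :=
              card_le_card (subset_univ _)
          _ = n := by simp
      rw [hc, hnN]
      obtain ⟨U, hU⟩ : ∃ U : ℝ, U = (((univ.erase a).biUnion R').card : ℝ) := ⟨_, rfl⟩
      obtain ⟨α, hα⟩ : ∃ α : ℝ, α = ((nbr c x a).card : ℝ) := ⟨_, rfl⟩
      rw [← hU, ← hα] at hbig
      rw [← hU]
      rw [← hα] at hA1 hA2
      have hα0 : 15 / 16 * N ≤ α := by nlinarith
      have hαpos : 0 < α := by nlinarith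
      -- α * (K-1) * (1-ζ) * N - (K-1) ζ N^2 ≤ α U
      have h3 : (K - 1 : ℝ) * (ζ * N ^ 2) ≤ α * (16 / 15 * ((K - 1) * ζ * N)) := by
        have h4 : 0 ≤ (K - 1 : ℝ) * ζ * N := by
          have : (0 : ℝ) ≤ K - 1 := by linarith
          positivity
        have h5 := mul_le_mul_of_nonneg_right hα0 h4
        nlinarith
      have h6 : α * ((K - 1) * ((1 - ζ) * N) - 16 / 15 * ((K - 1) * ζ * N)) ≤ α * U := by
        nlinarith
      have h7 := le_of_mul_le_mul_left h6 hαpos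
      have h9 : 0 ≤ ζ * N := by positivity
      have h10 : 0 ≤ K * (ζ * N) := by positivity
      nlinarith
    · have h3 : ((∑ z ∈ nbr c x a, (nbr c z a \ ((univ.erase a).biUnion R')ᶜ).card : ℕ) : ℝ) =
          ∑ z ∈ nbr c x a, ((nbr c z a \ ((univ.erase a).biUnion R')ᶜ).card : ℝ) := by
        push_cast
        rfl
      rw [h3]
      refine hout.trans ?_
      obtain ⟨α, hα⟩ : ∃ α : ℝ, α = ((nbr c x a).card : ℝ) := ⟨_, rfl⟩
      rw [← hα] at hA1 hA2
      rw [← hα]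
      have h4 : α ≤ 9 / 8 * N := by nlinarith
      have h5 : 0 ≤ 2 * ζ * N := by positivity
      have h6 : 2 * ζ * N * α ≤ 2 * ζ * N * (9 / 8 * N) := mul_le_mul_of_nonneg_left h4 h5
      have h7 : 0 ≤ ζ * N ^ 2 := by positivity
      have h8' : (K - 1 : ℝ) * (2 * ζ * N * α + ζ * N ^ 2) ≤
          (K - 1) * (4 * (ζ * N ^ 2)) := by
        apply mul_le_mul_of_nonneg_left _ (by linarith)
        nlinarith
      nlinarith
  · obtain ⟨R, h1, h2, _⟩ := hst.two x a b hab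
    rw [← hNdef] at h1 h2
    refine ⟨R, h1.trans ?_, h2.trans ?_⟩
    · apply mul_le_mul_of_nonneg_right _ hN.le
      linarith
    · apply mul_le_mul_of_nonneg_right h8
      positivity

end Pool.Agent.Lib.MP_b1acb3_co.Uni
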