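import Pool.Agent.Lib.MP_b1acb3_co.Uni.Stmts

set_option autoImplicit false

/-!
Module S2: every pair of classes has nearly no or nearly all pairs of a given colour.
-/

namespace Pool.Agent.Lib.MP_b1acb3_co.Uni

open Finset

namespace S2

/-- Double counting for a symmetric relation. -/
lemma dc {n : ℕ} (Nb : Fin n → Finset (Fin n)) (hs : ∀ y z, y ∈ Nb z → z ∈ Nb y)
    (A B : Finset (Fin n)) : ∑ z ∈ A, (Nb z ∩ B).card = ∑ y ∈ B, (Nb y ∩ A).card := by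
  have h1 : ∀ (z : Fin n) (B : Finset (Fin n)),
      (Nb z ∩ B).card = ∑ y ∈ B, if y ∈ Nb z then 1 else 0 := by
    intro z B
    rw [inter_comm, ← filter_mem_eq_inter, card_filter]
  simp only [h1]
  rw [sum_comm]
  refine sum_congr rfl fun y _ => sum_congr rfl fun z _ => ?_
  by_cases h : y ∈ Nb z
  · simp [h, hs y z h]
  · have : z ∉ Nb y := fun h' => h (hs z y h')
    simp [h, this]

section abstractPart

variable {n : ℕ} {Nb : Fin n → Finset (Fin n)} {A A' R R' : Finset (Fin n)} {N ζ u : ℝ}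

/-- Few non-neighbours inside `R`. -/
lemma few_non (hN : 0 < N) (hu0 : 0 ≤ u) (hu : u ≤ 1 / 200) (hζ : ζ ≤ u / 16)
    (hA : (A.card : ℝ) ≤ (1 + u / 8) * N) (hdeg : ∀ z, (1 - ζ) * N ≤ ((Nb z).card : ℝ))
    (hR : (R.card : ℝ) ≤ (1 + u) * N)
    (h1 : ∑ z ∈ A, ((Nb z \ R).card : ℝ) ≤ u * N ^ 2) :
    ∑ z ∈ A, ((R \ Nb z).card : ℝ) ≤ 2.1 * u * N ^ 2 := by
  have h2 : ∀ z ∈ A, ((R \ Nb z).card : ℝ) ≤ (u + ζ) * N + ((Nb z \ R).card : ℝ) := by
    intro z _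
    have h3 : (R \ Nb z).card + (R ∩ Nb z).card = R.card := card_sdiff_add_card_inter R (Nb z)
    have h4 : (Nb z \ R).card + (Nb z ∩ R).card = (Nb z).card := card_sdiff_add_card_inter (Nb z) R
    rw [inter_comm] at h4
    have h3' : ((R \ Nb z).card : ℝ) + ((R ∩ Nb z).card : ℝ) = (R.card : ℝ) := by exact_mod_cast h3
    have h4' : ((Nb z \ R).card : ℝ) + ((R ∩ Nb z).card : ℝ) = ((Nb z).card : ℝ) := by
      exact_mod_cast h4
    have := hdeg z
    nlinarith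
  have h5 := sum_le_sum h2
  rw [sum_add_distrib, sum_const, nsmul_eq_mul] at h5
  have h6 : (A.card : ℝ) * ((u + ζ) * N) ≤ (1 + u / 8) * N * ((u + u / 16) * N) := by
    have h7 : (u + ζ) * N ≤ (u + u / 16) * N := by
      apply mul_le_mul_of_nonneg_right _ hN.le
      linarith
    calc (A.card : ℝ) * ((u + ζ) * N) ≤ (A.card : ℝ) * ((u + u / 16) * N) :=
          mul_le_mul_of_nonneg_left h7 (Nat.cast_nonneg _)
      _ ≤ _ := mul_le_mul_of_nonneg_right hA (by positivity)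
  have h8 : (1 + u / 8) * N * ((u + u / 16) * N) ≤ 1.1 * u * N ^ 2 := by
    have h9 : (1 + u / 8) * (u + u / 16) ≤ 1.1 * u := by nlinarith
    calc (1 + u / 8) * N * ((u + u / 16) * N) = ((1 + u / 8) * (u + u / 16)) * N ^ 2 := by ring
      _ ≤ _ := mul_le_mul_of_nonneg_right h9 (sq_nonneg N)
  linarith

/-- Product estimate. -/
lemma prod_le (hs : ∀ y z, y ∈ Nb z → z ∈ Nb y)
    (h1 : ∑ z ∈ A, ((R \ Nb z).card : ℝ) ≤ 2.1 * u * N ^ 2)
    (h2 : ∑ z ∈ A', ((Nb z \ R').card : ℝ) ≤ u * N ^ 2) :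
    ((A \ R').card : ℝ) * ((R ∩ A').card : ℝ) ≤ 3.1 * u * N ^ 2 := by
  have h3 : ((A \ R').card : ℝ) * ((R ∩ A').card : ℝ) =
      ∑ z ∈ A \ R', ((R ∩ A').card : ℝ) := by
    rw [sum_const, nsmul_eq_mul]
  have h4 : ∀ z ∈ A \ R', ((R ∩ A').card : ℝ) ≤
      ((Nb z ∩ A').card : ℝ) + ((R \ Nb z).card : ℝ) := by
    intro z _
    have h5 : (R ∩ A').card ≤ (Nb z ∩ A').card + (R \ Nb z).card := by
      refine le_trans (card_le_card ?_) (card_union_le _ _)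
      intro y hy
      rw [mem_inter] at hy
      rw [mem_union, mem_inter, mem_sdiff]
      by_cases h : y ∈ Nb z
      · exact Or.inl ⟨h, hy.2⟩
      · exact Or.inr ⟨hy.1, h⟩
    exact_mod_cast h5
  have h6 : ∑ z ∈ A \ R', ((Nb z ∩ A').card : ℝ) ≤ u * N ^ 2 := by
    have h7 : ∑ z ∈ A \ R', ((Nb z ∩ A').card : ℝ) = ∑ y ∈ A', ((Nb y ∩ (A \ R')).card : ℝ) := by
      exact_mod_cast dc Nb hs (A \ R') A'
    rw [h7]
    refine le_trans (sum_le_sum fun y _ => ?_) h2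
    have h8 : (Nb y ∩ (A \ R')).card ≤ (Nb y \ R').card := by
      apply card_le_card
      intro z hz
      rw [mem_inter, mem_sdiff] at hz
      rw [mem_sdiff]
      exact ⟨hz.1, hz.2.2⟩
    exact_mod_cast h8
  have h9 : ∑ z ∈ A \ R', ((R \ Nb z).card : ℝ) ≤ ∑ z ∈ A, ((R \ Nb z).card : ℝ) :=
    sum_le_sum_of_subset_of_nonneg sdiff_subset fun _ _ _ => Nat.cast_nonneg _
  rw [h3]
  have h10 := sum_le_sum h4
  rw [sum_add_distrib] at h10
  linarith

/-- A division. -/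
lemma div_bound {N v w c : ℝ} (hN : 0 < N) (hv : 0 ≤ v) (h : c * N ≤ w) {B : ℝ}
    (hw : w * v ≤ B * N ^ 2) : c * v ≤ B * N := by
  have h1 : c * N * v ≤ w * v := mul_le_mul_of_nonneg_right h hv
  have h2 : N * (c * v) ≤ N * (B * N) := by
    calc N * (c * v) = c * N * v := by ring
      _ ≤ w * v := h1
      _ ≤ B * N ^ 2 := hw
      _ = N * (B * N) := by ring
  exact le_of_mul_le_mul_left h2 hN

/-- The numerical part. -/
lemma numeric {N u ζ α α' s t p q E : ℝ} (hN : 0 < N) (hu0 : 0 ≤ u) (hu : u ≤ 1 / 200)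
    (hζ0 : 0 ≤ ζ) (hζ : ζ ≤ u / 16) (hA : α ≤ (1 + u / 8) * N)
    (hAl : (1 - ζ) * N ≤ α) (hAl' : (1 - ζ) * N ≤ α') (hpt : p + t = α) (hqs : q + s = α')
    (hp0 : 0 ≤ p) (hq0 : 0 ≤ q) (hs0 : 0 ≤ s) (ht0 : 0 ≤ t)
    (hup : E ≤ α * s + u * N ^ 2) (hlow : α * s - 2.1 * u * N ^ 2 ≤ E)
    (p1 : p * s ≤ 3.1 * u * N ^ 2) (p2 : q * t ≤ 3.1 * u * N ^ 2) :
    E ≤ 5 * u * N ^ 2 ∨ (1 - 6 * u) * N ^ 2 ≤ E := by
  have hN2 : 0 < N ^ 2 := by positivity
  have hb : (0.99 : ℝ) * N ≤ (1 - ζ) * N := mul_le_mul_of_nonneg_right (by linarith) hN.le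
  have huN : 0 ≤ u * N := by positivity
  have huN2 : u * N ≤ 1 / 200 * N := mul_le_mul_of_nonneg_right hu hN.le
  have huNN : 0 ≤ u * N ^ 2 := by positivity
  by_cases hcase : s ≤ α' / 2
  · left
    have ht1 : 0.495 * t ≤ 3.1 * u * N :=
      div_bound hN ht0 (w := q) (by linarith) p2
    have hs1 : 0.95 * s ≤ 3.1 * u * N :=
      div_bound hN hs0 (w := p) (by linarith) p1
    have h6 : α * s ≤ (1 + u / 8) * N * (3.3 * u * N) :=
      mul_le_mul hA (by linarith) hs0 (by positivity)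
    have h7 : (1 + u / 8) * N * (3.3 * u * N) ≤ 3.4 * u * N ^ 2 := by
      have : (1 + u / 8) * (3.3 * u) ≤ 3.4 * u := by nlinarith
      calc (1 + u / 8) * N * (3.3 * u * N) = ((1 + u / 8) * (3.3 * u)) * N ^ 2 := by ring
        _ ≤ _ := mul_le_mul_of_nonneg_right this hN2.le
    linarith
  · right
    push Not at hcase
    have hp1 : 0.495 * p ≤ 3.1 * u * N :=
      div_bound hN hp0 (w := s) (by linarith) (by rw [mul_comm]; exact p1)
    have hq1 : 0.95 * q ≤ 3.1 * u * N :=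
      div_bound hN hq0 (w := t) (by linarith) (by rw [mul_comm]; exact p2)
    have h6 : ((1 - ζ) * N) * ((1 - ζ) * N - 3.3 * u * N) ≤ α * s := by
      apply mul_le_mul hAl (by linarith) _ (by linarith)
      linarith
    have h7 : (1 - 3.7 * u) * N ^ 2 ≤ ((1 - ζ) * N) * ((1 - ζ) * N - 3.3 * u * N) := by
      have : 1 - 3.7 * u ≤ (1 - ζ) * ((1 - ζ) - 3.3 * u) := by nlinarith
      calc (1 - 3.7 * u) * N ^ 2 ≤ ((1 - ζ) * ((1 - ζ) - 3.3 * u)) * N ^ 2 :=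
            mul_le_mul_of_nonneg_right this hN2.le
        _ = _ := by ring
    linarith

/-- The abstract statement. -/
lemma main (hN : 0 < N) (hu0 : 0 ≤ u) (hu : u ≤ 1 / 200) (hζ0 : 0 ≤ ζ) (hζ : ζ ≤ u / 16)
    (hs : ∀ y z, y ∈ Nb z → z ∈ Nb y)
    (hA : (A.card : ℝ) ≤ (1 + u / 8) * N) (hA' : (A'.card : ℝ) ≤ (1 + u / 8) * N)
    (hAl : (1 - ζ) * N ≤ (A.card : ℝ)) (hAl' : (1 - ζ) * N ≤ (A'.card : ℝ))
    (hdeg : ∀ z, (1 - ζ) * N ≤ ((Nb z).card : ℝ))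
    (hR : (R.card : ℝ) ≤ (1 + u) * N) (hR' : (R'.card : ℝ) ≤ (1 + u) * N)
    (h1 : ∑ z ∈ A, ((Nb z \ R).card : ℝ) ≤ u * N ^ 2)
    (h2 : ∑ z ∈ A', ((Nb z \ R').card : ℝ) ≤ u * N ^ 2) :
    ∑ z ∈ A, ((Nb z ∩ A').card : ℝ) ≤ 5 * u * N ^ 2 ∨
      (1 - 6 * u) * N ^ 2 ≤ ∑ z ∈ A, ((Nb z ∩ A').card : ℝ) := by
  have e1 := few_non hN hu0 hu hζ hA hdeg hR h1
  have e2 := few_non hN hu0 hu hζ hA' hdeg hR' h2
  have p1 := prod_le hs e1 h2
  have p2 := prod_le hs e2 h1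
  -- counts
  obtain ⟨s, hs'⟩ : ∃ s : ℝ, s = ((R ∩ A').card : ℝ) := ⟨_, rfl⟩
  obtain ⟨t, ht'⟩ : ∃ t : ℝ, t = ((R' ∩ A).card : ℝ) := ⟨_, rfl⟩
  obtain ⟨p, hp'⟩ : ∃ p : ℝ, p = ((A \ R').card : ℝ) := ⟨_, rfl⟩
  obtain ⟨q, hq'⟩ : ∃ q : ℝ, q = ((A' \ R).card : ℝ) := ⟨_, rfl⟩
  obtain ⟨α, hα⟩ : ∃ α : ℝ, α = (A.card : ℝ) := ⟨_, rfl⟩
  obtain ⟨α', hα'⟩ : ∃ α' : ℝ, α' = (A'.card : ℝ) := ⟨_, rfl⟩
  obtain ⟨E, hE⟩ : ∃ E : ℝ, E = ∑ z ∈ A, ((Nb z ∩ A').card : ℝ) := ⟨_, rfl⟩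
  have hpt : p + t = α := by
    rw [hp', ht', hα, inter_comm]
    exact_mod_cast card_sdiff_add_card_inter A R'
  have hqs : q + s = α' := by
    rw [hq', hs', hα', inter_comm]
    exact_mod_cast card_sdiff_add_card_inter A' R
  have hp0 : 0 ≤ p := by rw [hp']; positivity
  have hq0 : 0 ≤ q := by rw [hq']; positivity
  have hs0 : 0 ≤ s := by rw [hs']; positivity
  have ht0 : 0 ≤ t := by rw [ht']; positivity
  -- upper bound
  have hup : E ≤ α * s + u * N ^ 2 := by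
    have h3 : ∀ z ∈ A, ((Nb z ∩ A').card : ℝ) ≤ ((R ∩ A').card : ℝ) + ((Nb z \ R).card : ℝ) := by
      intro z _
      have h5 : (Nb z ∩ A').card ≤ (R ∩ A').card + (Nb z \ R).card := by
        refine le_trans (card_le_card ?_) (card_union_le _ _)
        intro y hy
        rw [mem_inter] at hy
        rw [mem_union, mem_inter, mem_sdiff]
        by_cases h : y ∈ R
        · exact Or.inl ⟨h, hy.2⟩
        · exact Or.inr ⟨hy.1, h⟩
      exact_mod_cast h5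
    have h4 := sum_le_sum h3
    rw [sum_add_distrib, sum_const, nsmul_eq_mul, ← hs', ← hα, ← hE] at h4
    linarith
  have hlow : α * s - 2.1 * u * N ^ 2 ≤ E := by
    have h3 : ∀ z ∈ A, ((R ∩ A').card : ℝ) ≤ ((Nb z ∩ A').card : ℝ) + ((R \ Nb z).card : ℝ) := by
      intro z _
      have h5 : (R ∩ A').card ≤ (Nb z ∩ A').card + (R \ Nb z).card := by
        refine le_trans (card_le_card ?_) (card_union_le _ _)
        intro y hy
        rw [mem_inter] at hy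
        rw [mem_union, mem_inter, mem_sdiff]
        by_cases h : y ∈ Nb z
        · exact Or.inl ⟨h, hy.2⟩
        · exact Or.inr ⟨hy.1, h⟩
      exact_mod_cast h5
    have h4 := sum_le_sum h3
    rw [sum_add_distrib, sum_const, nsmul_eq_mul, ← hs', ← hα, ← hE] at h4
    linarith
  rw [← hp', ← hs'] at p1
  rw [← hq', ← ht'] at p2
  rw [← hα] at hA hAl
  rw [← hα'] at hA' hAl'
  rw [← hE]
  exact numeric hN hu0 hu hζ0 hζ hA hAl hAl' hpt hqs hp0 hq0 hs0 ht0 hup hlow p1 p2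

end abstractPart

lemma nbr_symm {n K : ℕ} (c : Sym2 (Fin n) → Fin K) (b : Fin K) (y z : Fin n)
    (h : y ∈ nbr c z b) : z ∈ nbr c y b := by
  unfold nbr at h ⊢
  rw [mem_filter] at h ⊢
  refine ⟨mem_univ _, fun h' => h.2.1 h'.symm, ?_⟩
  rw [Sym2.eq_swap]
  exact h.2.2

lemma sum_nbr_le {n K : ℕ} (c : Sym2 (Fin n) → Fin K) (x : Fin n) :
    ∑ a, (nbr c x a).card ≤ n := by
  have h1 : (univ.filter (fun y : Fin n => y ≠ x)).card =
      ∑ a : Fin K, ((univ.filter (fun y : Fin n => y ≠ x)).filter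
        (fun y => c s(x, y) = a)).card :=
    card_eq_sum_card_fiberwise (t := (univ : Finset (Fin K))) fun y _ => by simp
  have h2 : ∀ a : Fin K, (nbr c x a).card = ((univ.filter (fun y : Fin n => y ≠ x)).filter
        (fun y => c s(x, y) = a)).card := by
    intro a
    rw [filter_filter]
    rfl
  rw [sum_congr rfl fun a _ => h2 a, ← h1]
  calc _ ≤ (univ : Finset (Fin n)).card := card_le_card (filter_subset _ _)
    _ = n := by simp

lemma nbr_le {n K : ℕ} (c : Sym2 (Fin n) → Fin K) {ζ : ℝ} (hK : 2 ≤ K) (hζ : 0 ≤ ζ)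
    (hdeg : ∀ x a, (1 - ζ) * ((n : ℝ) / K) ≤ ((nbr c x a).card : ℝ)) (x : Fin n) (a : Fin K) :
    ((nbr c x a).card : ℝ) ≤ (1 + K * ζ) * ((n : ℝ) / K) := by
  have h1 : (∑ b, ((nbr c x b).card : ℝ)) ≤ n := by exact_mod_cast sum_nbr_le c x
  rw [← add_sum_erase univ _ (mem_univ a)] at h1
  have h2 : (((univ : Finset (Fin K)).erase a).card : ℝ) * ((1 - ζ) * ((n : ℝ) / K)) ≤
      ∑ b ∈ univ.erase a, ((nbr c x b).card : ℝ) := by
    rw [← nsmul_eq_mul]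
    exact card_nsmul_le_sum _ _ _ fun b _ => hdeg x b
  rw [card_erase_of_mem (mem_univ a), card_univ, Fintype.card_fin, Nat.cast_sub (by omega)] at h2
  have hK0 : (0 : ℝ) < K := by
    have : 0 < K := by omega
    exact_mod_cast this
  have hn : (K : ℝ) * ((n : ℝ) / K) = n := by field_simp
  have hN0 : 0 ≤ (n : ℝ) / K := by positivity
  push_cast at h2
  nlinarith [mul_nonneg hζ hN0]

end S2

open S2 in
/-- (S2) every pair of classes has nearly no or nearly all pairs of colour `b`. -/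
theorem thmS2 (h : StS1) : StS2 := by
  intro n K c ζ hK hζ hKζ hn hst x b a a'
  have hK0 : (0 : ℝ) < K := by
    have : 0 < K := by omega
    exact_mod_cast this
  have hK2 : (2 : ℝ) ≤ K := by exact_mod_cast hK
  have hKζ1 : K * ζ ≤ 1 / 1600 := by
    have h1 : 0 ≤ K * ζ := by positivity
    nlinarith
  have hn0 : (0 : ℝ) < n := by
    rcases Nat.eq_zero_or_pos n with h0 | h0
    · rw [h0] at hn
      push_cast at hn
      linarith
    · exact_mod_cast h0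
  have hN : 0 < (n : ℝ) / K := by positivity
  have hS := h n K c ζ hK hζ (by linarith) hn hst
  obtain ⟨R, hR1, hR2⟩ := hS x a b
  obtain ⟨R', hR'1, hR'2⟩ := hS x a' b
  have hup := nbr_le c hK hζ hst.deg x
  have hu8 : 8 * K * ζ / 8 = K * ζ := by ring
  have hmain := main (Nb := fun z => nbr c z b) (A := nbr c x a) (A' := nbr c x a') (R := R)
    (R' := R') (N := (n : ℝ) / K) (ζ := ζ) (u := 8 * K * ζ) hN (by positivity) (by linarith) hζ
    (by nlinarith) (fun y z hyz => nbr_symm c b y z hyz) (by rw [hu8]; exact hup a)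
    (by rw [hu8]; exact hup a') (hst.deg x a) (hst.deg x a') (fun z => hst.deg z b) hR1 hR'1
    (by exact_mod_cast hR2) (by exact_mod_cast hR'2)
  have hE : (ecount c x b a a' : ℝ) = ∑ z ∈ nbr c x a, ((nbr c z b ∩ nbr c x a').card : ℝ) := by
    unfold ecount
    push_cast
    rfl
  rw [hE]
  have h0 : 0 ≤ K * ζ * ((n : ℝ) / K) ^ 2 := by positivity
  rcases hmain with h1 | h1
  · left
    refine h1.trans ?_
    nlinarith
  · right
    refine le_trans ?_ h1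
    nlinarith

end Pool.Agent.Lib.MP_b1acb3_co.Uni
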