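import Pool.Agent.Lib.MP_b1acb3_co.Uni.Stmts

/-!
Module S4: the involutions commute.
-/

namespace Pool.Agent.Lib.MP_b1acb3_co.Uni

open Finset

namespace S4

theorem sum_nbr_le {n K : ℕ} (c : Sym2 (Fin n) → Fin K) (x : Fin n) :
    ∑ a, (nbr c x a).card ≤ n := by
  have h1 : (univ : Finset (Fin n)).card =
      ∑ a ∈ (univ : Finset (Fin K)), (univ.filter fun y : Fin n => c s(x, y) = a).card :=
    Finset.card_eq_sum_card_fiberwise (fun y _ => by simp)
  have h2 : ∑ a, (nbr c x a).card ≤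
      ∑ a ∈ (univ : Finset (Fin K)), (univ.filter fun y : Fin n => c s(x, y) = a).card := by
    refine Finset.sum_le_sum fun a _ => Finset.card_le_card ?_
    intro y hy
    simp only [nbr, mem_filter, mem_univ, true_and] at hy ⊢
    exact hy.2
  simpa [← h1] using h2

theorem nbr_le {n K : ℕ} (c : Sym2 (Fin n) → Fin K) (ζ : ℝ) (hK : 0 < K) (hζ : 0 ≤ ζ)
    (hdeg : ∀ x a, (1 - ζ) * ((n : ℝ) / K) ≤ ((nbr c x a).card : ℝ)) (x : Fin n) (a : Fin K) :
    ((nbr c x a).card : ℝ) ≤ (1 + K * ζ) * ((n : ℝ) / K) := by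
  have h1 : (∑ a, ((nbr c x a).card : ℝ)) ≤ n := by exact_mod_cast sum_nbr_le c x
  have h2 : (∑ a' ∈ univ.erase a, ((nbr c x a').card : ℝ)) + ((nbr c x a).card : ℝ) =
      ∑ a, ((nbr c x a).card : ℝ) := Finset.sum_erase_add _ _ (mem_univ a)
  have h3 : ((K : ℝ) - 1) * ((1 - ζ) * ((n : ℝ) / K)) ≤
      ∑ a' ∈ univ.erase a, ((nbr c x a').card : ℝ) := by
    have : ∑ _a' ∈ univ.erase a, ((1 - ζ) * ((n : ℝ) / K)) ≤
        ∑ a' ∈ univ.erase a, ((nbr c x a').card : ℝ) :=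
      Finset.sum_le_sum fun a' _ => hdeg x a'
    rw [Finset.sum_const, Finset.card_erase_of_mem (mem_univ a), Finset.card_univ,
      Fintype.card_fin, nsmul_eq_mul, Nat.cast_sub (by omega)] at this
    simpa using this
  have hK' : (0 : ℝ) < K := by exact_mod_cast hK
  have h4 : (K : ℝ) * ((n : ℝ) / K) = n := by field_simp
  have h5 : (0 : ℝ) ≤ (n : ℝ) / K := by positivity
  nlinarith [mul_nonneg hζ h5]

theorem choose {n : ℕ} (N ξ : ℝ) (hN : 0 < N) (h0 : 0 < ξ) (h1 : ξ ≤ 1 / 100)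
    (A : Finset (Fin n)) (f g : Fin n → ℝ) (hA : (A.card : ℝ) ≤ (1 + ξ / 400) * N)
    (hf : ∀ z ∈ A, f z ≤ (1 + ξ / 400) * N) (hg : ∀ z ∈ A, g z ≤ (1 + ξ / 400) * N)
    (hsf : (1 - ξ) * N ^ 2 ≤ ∑ z ∈ A, f z) (hsg : (1 - ξ) * N ^ 2 ≤ ∑ z ∈ A, g z) :
    ∃ z ∈ A, (1 - 21 / 10 * ξ) * N ≤ f z ∧ (1 - 21 / 10 * ξ) * N ≤ g z := by
  by_contra hcon
  push Not at hcon
  have h2 : ∀ z ∈ A, f z + g z ≤ (2 - (21 / 10 - 1 / 400) * ξ) * N := by
    intro z hz
    by_cases h : (1 - 21 / 10 * ξ) * N ≤ f z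
    · have := hcon z hz h
      have := hf z hz
      linarith
    · have := hg z hz
      push Not at h
      linarith
  have h3 : ∑ z ∈ A, (f z + g z) ≤ A.card * ((2 - (21 / 10 - 1 / 400) * ξ) * N) := by
    have := Finset.sum_le_card_nsmul A (fun z => f z + g z) _ h2
    simpa [nsmul_eq_mul] using this
  rw [Finset.sum_add_distrib] at h3
  have h4 : (A.card : ℝ) * ((2 - (21 / 10 - 1 / 400) * ξ) * N) ≤
      ((1 + ξ / 400) * N) * ((2 - (21 / 10 - 1 / 400) * ξ) * N) := by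
    apply mul_le_mul_of_nonneg_right hA
    apply mul_nonneg _ hN.le
    linarith
  have h5 : ((1 + ξ / 400) * N) * ((2 - (21 / 10 - 1 / 400) * ξ) * N) =
      ((1 + ξ / 400) * (2 - (21 / 10 - 1 / 400) * ξ)) * N ^ 2 := by ring
  have h6 : (1 + ξ / 400) * (2 - (21 / 10 - 1 / 400) * ξ) < 2 * (1 - ξ) := by nlinarith
  have h7 : 0 < N ^ 2 := by positivity
  nlinarith

theorem step {n : ℕ} (N ξ : ℝ) (hN : 0 < N) (h0 : 0 < ξ) (h1 : ξ ≤ 1 / 100)
    (A C D R : Finset (Fin n)) (M : Fin n → Finset (Fin n))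
    (hA : (A.card : ℝ) ≤ (1 + ξ / 400) * N) (hD : (D.card : ℝ) ≤ (1 + ξ / 400) * N)
    (hC : (1 - 21 / 10 * ξ) * N ≤ ((C ∩ A).card : ℝ))
    (hM : (1 - ξ) * N ^ 2 ≤ ((∑ w ∈ A, (M w ∩ D).card : ℕ) : ℝ))
    (hR : ((∑ w ∈ C, (M w \ R).card : ℕ) : ℝ) ≤ ξ / 800 * N ^ 2) :
    (1 - 34 / 10 * ξ) * N ≤ ((D ∩ R).card : ℝ) := by
  have e1 : ∑ w ∈ A, (M w ∩ D).card =
      ∑ w ∈ A ∩ C, (M w ∩ D).card + ∑ w ∈ A \ C, (M w ∩ D).card :=
    (Finset.sum_inter_add_sum_sdiff A C _).symm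
  have e2 : ∑ w ∈ A \ C, (M w ∩ D).card ≤ (A \ C).card * D.card := by
    have := Finset.sum_le_card_nsmul (A \ C) (fun w => (M w ∩ D).card) D.card
      (fun w _ => Finset.card_le_card Finset.inter_subset_right)
    simpa [smul_eq_mul] using this
  have e3 : ∑ w ∈ A ∩ C, (M w ∩ D).card ≤
      ∑ w ∈ C, (M w \ R).card + A.card * (D ∩ R).card := by
    have s1 : ∑ w ∈ A ∩ C, (M w ∩ D).card ≤
        ∑ w ∈ A ∩ C, ((M w \ R).card + (D ∩ R).card) := by
      refine Finset.sum_le_sum fun w _ => ?_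
      refine le_trans (Finset.card_le_card (t := (M w \ R) ∪ (D ∩ R)) ?_)
        (Finset.card_union_le _ _)
      intro y hy
      simp only [mem_inter, mem_union, mem_sdiff] at hy ⊢
      tauto
    refine s1.trans ?_
    rw [Finset.sum_add_distrib]
    refine Nat.add_le_add ?_ ?_
    · exact Finset.sum_le_sum_of_subset Finset.inter_subset_right
    · rw [Finset.sum_const, smul_eq_mul]
      exact Nat.mul_le_mul_right _ (Finset.card_le_card Finset.inter_subset_left)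
  have e4 : ((A \ C).card : ℝ) + ((C ∩ A).card : ℝ) = A.card := by
    have := Finset.card_sdiff_add_card_inter A C
    rw [Finset.inter_comm] at this
    exact_mod_cast this
  have e5 : ((A \ C).card : ℝ) ≤ ((21 / 10 + 1 / 400) * ξ) * N := by linarith
  have e6 : ((A \ C).card : ℝ) * D.card ≤
      (((21 / 10 + 1 / 400) * ξ) * N) * ((1 + ξ / 400) * N) := by
    apply mul_le_mul e5 hD (by positivity) (by positivity)
  have e7 : ((∑ w ∈ A, (M w ∩ D).card : ℕ) : ℝ) ≤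
      ((∑ w ∈ C, (M w \ R).card : ℕ) : ℝ) + (A.card : ℝ) * ((D ∩ R).card : ℝ) +
        ((A \ C).card : ℝ) * D.card := by
    have : ∑ w ∈ A, (M w ∩ D).card ≤
        ∑ w ∈ C, (M w \ R).card + A.card * (D ∩ R).card + (A \ C).card * D.card := by
      omega
    exact_mod_cast this
  have e8 : (A.card : ℝ) * ((D ∩ R).card : ℝ) ≤ ((1 + ξ / 400) * N) * ((D ∩ R).card : ℝ) :=
    mul_le_mul_of_nonneg_right hA (by positivity)
  have e9 : (1 - ξ - ξ / 800 - (21 / 10 + 1 / 400) * ξ * (1 + ξ / 400)) * N ^ 2 ≤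
      ((1 + ξ / 400) * N) * ((D ∩ R).card : ℝ) := by
    nlinarith
  by_contra hcon
  push Not at hcon
  have e10 : ((1 + ξ / 400) * N) * ((D ∩ R).card : ℝ) ≤
      ((1 + ξ / 400) * N) * ((1 - 34 / 10 * ξ) * N) :=
    mul_le_mul_of_nonneg_left hcon.le (by positivity)
  have e11 : ((1 + ξ / 400) * N) * ((1 - 34 / 10 * ξ) * N) =
      ((1 + ξ / 400) * (1 - 34 / 10 * ξ)) * N ^ 2 := by ring
  have e12 : (1 + ξ / 400) * (1 - 34 / 10 * ξ) <
      1 - ξ - ξ / 800 - (21 / 10 + 1 / 400) * ξ * (1 + ξ / 400) := by nlinarith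
  have h7 : 0 < N ^ 2 := by positivity
  nlinarith

end S4

theorem thmS4 : StS4 := by
  intro n K c ζ hK hζ hK2 hKn hS x σ hσ b b' a
  by_cases hbb : b = b'
  · subst hbb
    rfl
  have hK' : (2 : ℝ) ≤ K := by exact_mod_cast hK
  have hn : (0 : ℝ) < n := by
    have : 0 < n := x.pos
    exact_mod_cast this
  have hζ' : 0 < ζ := by
    rcases hζ.lt_or_eq with h | h
    · exact h
    · rw [← h] at hKn
      linarith
  set N : ℝ := (n : ℝ) / K with hNdef
  have hN : 0 < N := by positivity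
  set ξ : ℝ := 400 * K * ζ with hξ
  have hξ0 : 0 < ξ := by positivity
  have hξ1 : ξ ≤ 1 / 100 := by
    have : 400 * K * ζ * 100 ≤ 1 := by nlinarith [mul_pos (by positivity : (0 : ℝ) < K) hζ']
    linarith
  have hKζ : (K : ℝ) * ζ = ξ / 400 := by rw [hξ]; ring
  have hζξ : ζ ≤ ξ / 800 := by
    have : ζ * 800 ≤ 400 * K * ζ := by nlinarith
    linarith
  have hup : ∀ (y : Fin n) (d : Fin K), ((nbr c y d).card : ℝ) ≤ (1 + ξ / 400) * N := by
    intro y d
    have := S4.nbr_le c ζ (by omega) hζ hS.deg y d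
    rwa [hKζ] at this
  -- the vertex `z`
  obtain ⟨z, hz, hz1, hz2⟩ := S4.choose N ξ hN hξ0 hξ1 (nbr c x a)
    (fun z => ((nbr c z b' ∩ nbr c x (σ b' a)).card : ℝ))
    (fun z => ((nbr c z b ∩ nbr c x (σ b a)).card : ℝ)) (hup x a)
    (fun z _ => le_trans (by exact_mod_cast Finset.card_le_card Finset.inter_subset_left)
      (hup z b'))
    (fun z _ => le_trans (by exact_mod_cast Finset.card_le_card Finset.inter_subset_left)
      (hup z b))
    (by have := hσ b' a; unfold ecount at this; push_cast at this; exact this)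
    (by have := hσ b a; unfold ecount at this; push_cast at this; exact this)
  obtain ⟨R, hR0, hR1, hR2⟩ := hS.two z b' b (Ne.symm hbb)
  have hNsq : 0 < N ^ 2 := by positivity
  have s1 := S4.step N ξ hN hξ0 hξ1 (nbr c x (σ b' a)) (nbr c z b') (nbr c x (σ b (σ b' a))) R
    (fun w => nbr c w b) (hup _ _) (hup _ _) hz1 (hσ b (σ b' a))
    (hR1.trans (mul_le_mul_of_nonneg_right hζξ hNsq.le))
  have s2 := S4.step N ξ hN hξ0 hξ1 (nbr c x (σ b a)) (nbr c z b) (nbr c x (σ b' (σ b a))) R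
    (fun w => nbr c w b') (hup _ _) (hup _ _) hz2 (hσ b' (σ b a))
    (hR2.trans (mul_le_mul_of_nonneg_right hζξ hNsq.le))
  by_contra hne
  have hdisj : Disjoint (nbr c x (σ b (σ b' a)) ∩ R) (nbr c x (σ b' (σ b a)) ∩ R) := by
    rw [Finset.disjoint_left]
    intro y hy1 hy2
    simp only [nbr, mem_inter, mem_filter, mem_univ, true_and] at hy1 hy2
    exact hne (hy1.1.2.symm.trans hy2.1.2)
  have hcard : ((nbr c x (σ b (σ b' a)) ∩ R).card : ℝ) +
      ((nbr c x (σ b' (σ b a)) ∩ R).card : ℝ) ≤ R.card := by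
    have : (nbr c x (σ b (σ b' a)) ∩ R).card + (nbr c x (σ b' (σ b a)) ∩ R).card ≤ R.card := by
      rw [← Finset.card_union_of_disjoint hdisj]
      apply Finset.card_le_card
      intro y hy
      simp only [mem_union, mem_inter] at hy
      tauto
    exact_mod_cast this
  have hfin : 2 * ((1 - 34 / 10 * ξ) * N) ≤ (1 + ζ) * N := by linarith
  nlinarith [mul_pos hN hξ0, mul_pos hN hζ']

end Pool.Agent.Lib.MP_b1acb3_co.Uni
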