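import Pool.Agent.Lib.MP_b1acb3_co.Uni.Stmts

set_option autoImplicit false

/-!
(S5) A transitive family of commuting involutions acts on a set of size a power of two.
-/

namespace Pool.Agent.Lib.MP_b1acb3_co.Uni

open Finset

theorem thmS5 : StS5 := by
  intro K σ hK hinv hcomm htr
  -- the involutions as permutations
  let s : Fin K → Equiv.Perm (Fin K) := fun b => ⟨σ b, σ b, hinv b, hinv b⟩
  have hs : ∀ b a, s b a = σ b a := fun b a => rfl
  have hss : ∀ b b', s b * s b' = s b' * s b := by
    intro b b'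
    ext a
    rw [Equiv.Perm.mul_apply, Equiv.Perm.mul_apply, hs, hs, hs, hs, hcomm]
  let G : Subgroup (Equiv.Perm (Fin K)) := Subgroup.closure (Set.range s)
  have h1 : ∀ g ∈ G, ∀ b, g * s b = s b * g := by
    intro g hg b
    have h2 : G ≤ Subgroup.centralizer {s b} := by
      rw [Subgroup.closure_le]
      rintro _ ⟨b', rfl⟩
      rw [SetLike.mem_coe, Subgroup.mem_centralizer_singleton_iff]
      exact hss b' b
    have h3 := h2 hg
    rw [Subgroup.mem_centralizer_singleton_iff] at h3
    exact h3
  have h2 : ∀ g ∈ G, ∀ h ∈ G, g * h = h * g := by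
    intro g hg h hh
    have h3 : G ≤ Subgroup.centralizer {h} := by
      rw [Subgroup.closure_le]
      rintro _ ⟨b', rfl⟩
      rw [SetLike.mem_coe, Subgroup.mem_centralizer_singleton_iff]
      exact (h1 h hh b').symm
    have h4 := h3 hg
    rw [Subgroup.mem_centralizer_singleton_iff] at h4
    exact h4
  have h3 : ∀ g ∈ G, g * g = 1 := by
    intro g hg
    induction hg using Subgroup.closure_induction with
    | mem x hx =>
      obtain ⟨b, rfl⟩ := hx
      ext a
      rw [Equiv.Perm.mul_apply, hs, hs, hinv]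
      rfl
    | one => exact one_mul 1
    | mul x y hx hy ihx ihy =>
      have e : x * y * (x * y) = (x * x) * (y * y) := by
        rw [mul_assoc x y (x * y), ← mul_assoc y x y, h2 y hy x hx, mul_assoc x y y, ← mul_assoc]
      rw [e, ihx, ihy, one_mul]
    | inv x hx ihx =>
      rw [← mul_inv_rev, ihx, inv_one]
  have hpg : IsPGroup 2 G := by
    intro g
    refine ⟨1, ?_⟩
    rw [pow_one, sq]
    exact Subtype.ext (h3 g g.2)
  have : Fact (Nat.Prime 2) := ⟨Nat.prime_two⟩
  obtain ⟨r, hr⟩ := IsPGroup.iff_card.mp hpg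
  refine ⟨r, ?_⟩
  rw [← hr]
  -- the action is regular
  let a0 : Fin K := ⟨0, hK⟩
  have hbij : Function.Bijective (fun g : G => (g : Equiv.Perm (Fin K)) a0) := by
    constructor
    · intro g h hgh
      apply Subtype.ext
      ext a
      obtain ⟨b, rfl⟩ := htr a0 a
      have e1 := congrArg (fun p : Equiv.Perm (Fin K) => p a0) (h1 g g.2 b)
      have e2 := congrArg (fun p : Equiv.Perm (Fin K) => p a0) (h1 h h.2 b)
      simp only [Equiv.Perm.mul_apply, hs] at e1 e2
      simp only at hgh
      rw [e1, e2, hgh]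
    · intro a
      obtain ⟨b, hb⟩ := htr a0 a
      exact ⟨⟨s b, Subgroup.subset_closure ⟨b, rfl⟩⟩, hb⟩
  have := Nat.card_congr (Equiv.ofBijective _ hbij)
  rw [this, Nat.card_eq_fintype_card, Fintype.card_fin]

end Pool.Agent.Lib.MP_b1acb3_co.Uni
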