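import Pool.Agent.Lib.MP_b1acb3_co.Uni.Stmts

/-!
(Seq): numerical consequence of the recurrence.
-/

namespace Pool.Agent.Lib.MP_b1acb3_co.Uni

namespace SeqAux

/-- Iteration of the recurrence. -/
theorem iterate {lam : ℕ → ℝ} {a b M : ℝ} {i₀ K : ℕ} (ha : 1 ≤ a) (h0 : lam i₀ ≤ M + b)
    (hrec : ∀ i, i₀ ≤ i → 4 * (i + 2) ≤ K → lam i ≤ a * (lam i - lam (i + 2)) + b) :
    ∀ m : ℕ, 4 * (i₀ + 2 * m) ≤ K → lam (i₀ + 2 * m) ≤ (1 - 1 / a) ^ m * M + b := by
  intro m
  induction m with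
  | zero => intro _; simpa using h0
  | succ m ih =>
    intro hm
    have h1 := ih (by omega)
    have h2 := hrec (i₀ + 2 * m) (by omega) (by omega)
    have e : i₀ + 2 * (m + 1) = i₀ + 2 * m + 2 := by ring
    rw [e]
    set x := lam (i₀ + 2 * m) with hx
    set y := lam (i₀ + 2 * m + 2) with hy
    have ha0 : 0 < a := by linarith
    have hq : 0 ≤ 1 - 1 / a := by
      rw [sub_nonneg, div_le_one ha0]; exact ha
    have h3 : y ≤ (1 - 1 / a) * x + b / a := by
      have h4 : a * y ≤ (a - 1) * x + b := by linarith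
      have h5 : (1 - 1 / a) * x + b / a = ((a - 1) * x + b) / a := by field_simp
      rw [h5, le_div_iff₀ ha0]
      linarith
    have h6 : (1 - 1 / a) * x ≤ (1 - 1 / a) * ((1 - 1 / a) ^ m * M + b) :=
      mul_le_mul_of_nonneg_left h1 hq
    have h7 : (1 - 1 / a) * ((1 - 1 / a) ^ m * M + b) + b / a = (1 - 1 / a) ^ (m + 1) * M + b := by
      rw [pow_succ]; ring
    linarith

/-- `log x + 1 ≤ √x` for `16 ≤ x`. -/
theorem log_add_one_le_sqrt {x : ℝ} (hx : 16 ≤ x) : Real.log x + 1 ≤ Real.sqrt x := by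
  have h0 : 0 < x := by linarith
  have hs : 4 ≤ Real.sqrt x := by
    rw [show (4 : ℝ) = Real.sqrt 16 by rw [show (16 : ℝ) = 4 ^ 2 by norm_num]; simp]
    exact Real.sqrt_le_sqrt hx
  have h1 : Real.log x = 2 * Real.log (Real.sqrt x) := by
    rw [Real.log_sqrt h0.le]; ring
  have h2 : Real.log (Real.sqrt x / 4) ≤ Real.sqrt x / 4 - 1 :=
    Real.log_le_sub_one_of_pos (by linarith)
  rw [Real.log_div (by linarith) (by norm_num)] at h2
  have h3 : Real.log 4 ≤ 1.4 := by
    have : Real.log 4 = 2 * Real.log 2 := by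
      rw [show (4 : ℝ) = 2 ^ 2 by norm_num, Real.log_pow]; norm_num
    rw [this]
    linarith [Real.log_two_lt_d9]
  linarith

end SeqAux

open SeqAux in
theorem thmSeq : StSeq := by
  refine ⟨10 ^ 80, ?_⟩
  intro K hK lam θ hθ hθK hlog hrec
  have hKr : (10 : ℝ) ^ 80 ≤ K := by exact_mod_cast hK
  have hK1 : (1 : ℝ) ≤ K := le_trans (by norm_num) hKr
  have hK0 : (0 : ℝ) < K := by linarith
  have hK16 : (16 : ℝ) ≤ K := le_trans (by norm_num) hKr
  have hK40 : 40 ≤ K := le_trans (by norm_num) hK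
  set L : ℝ := Real.log K + 1 with hL
  have hlog0 : 0 ≤ Real.log K := Real.log_nonneg hK1
  have hL1 : 1 ≤ L := by rw [hL]; linarith
  have hLs : L ≤ Real.sqrt K := log_add_one_le_sqrt hK16
  have hs0 : 0 < Real.sqrt K := Real.sqrt_pos.mpr hK0
  have hss : Real.sqrt K * Real.sqrt K = K := Real.mul_self_sqrt hK0.le
  have hsK : Real.sqrt K ≤ K := by nlinarith
  have hlogK : Real.log K ≤ K := by linarith
  set b : ℝ := 300 * L * K ^ 4 * θ with hb
  have hb0 : 0 ≤ b := by rw [hb]; positivity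
  set i₀ : ℕ := K / 8 with hi₀
  set m : ℕ := K / 20 with hm
  have hi2 : 2 ≤ i₀ := by omega
  have him : 4 * (i₀ + 2 * m) ≤ K := by omega
  have h0 : lam i₀ ≤ Real.log K + b := by
    have := hlog i₀ hi2 (by omega)
    linarith
  have hit := iterate (lam := lam) (a := 21 * L) (b := b) (M := Real.log K) (i₀ := i₀) (K := K)
    (by linarith) h0 (fun i hi hi' => hrec i (by omega) hi' (by omega)) m him
  refine ⟨i₀ + 2 * m, by omega, him, hit.trans ?_⟩
  -- the exponential term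
  have ha0 : 0 < 21 * L := by linarith
  have hmr : (K : ℝ) / 40 ≤ m := by
    have h1 : K ≤ 40 * m := by omega
    have h2 : (K : ℝ) ≤ 40 * m := by exact_mod_cast h1
    linarith
  have hexp : (1 - 1 / (21 * L)) ^ m ≤ Real.exp (-(Real.sqrt K / 840)) := by
    have hq : 0 ≤ 1 - 1 / (21 * L) := by
      rw [sub_nonneg, div_le_one ha0]; linarith
    have h1 : (1 - 1 / (21 * L)) ≤ Real.exp (-(1 / (21 * L))) := by
      have := Real.add_one_le_exp (-(1 / (21 * L)))
      linarith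
    calc (1 - 1 / (21 * L)) ^ m ≤ Real.exp (-(1 / (21 * L))) ^ m := pow_le_pow_left₀ hq h1 m
      _ = Real.exp (m * -(1 / (21 * L))) := (Real.exp_nat_mul _ m).symm
      _ ≤ Real.exp (-(Real.sqrt K / 840)) := by
        apply Real.exp_le_exp.mpr
        have h2 : Real.sqrt K / 840 ≤ m * (1 / (21 * L)) := by
          rw [mul_one_div, le_div_iff₀ ha0]
          calc Real.sqrt K / 840 * (21 * L) ≤ Real.sqrt K / 840 * (21 * Real.sqrt K) := by
                apply mul_le_mul_of_nonneg_left _ (by positivity)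
                linarith
            _ = K / 40 := by
                rw [show Real.sqrt K / 840 * (21 * Real.sqrt K)
                  = (Real.sqrt K * Real.sqrt K) / 40 by ring, hss]
            _ ≤ m := hmr
        linarith
  have hbig : 2 * (K : ℝ) ^ 9 ≤ Real.exp (Real.sqrt K / 840) := by
    have h1 := Real.pow_div_factorial_le_exp (Real.sqrt K / 840) (by positivity) 20
    have h2 : (Real.sqrt K / 840) ^ 20 = (K : ℝ) ^ 10 / 840 ^ 20 := by
      rw [div_pow, show (20 : ℕ) = 2 * 10 by norm_num, pow_mul (Real.sqrt K), sq, hss]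
    rw [h2] at h1
    have h3 : (2 : ℝ) * 840 ^ 20 * (Nat.factorial 20 : ℝ) ≤ K := by
      refine le_trans ?_ hKr
      norm_num [Nat.factorial]
    refine le_trans ?_ h1
    rw [div_div, le_div_iff₀ (by positivity)]
    have h4 : (0 : ℝ) ≤ (K : ℝ) ^ 9 := by positivity
    calc 2 * (K : ℝ) ^ 9 * (840 ^ 20 * (Nat.factorial 20 : ℝ))
        = (K : ℝ) ^ 9 * (2 * 840 ^ 20 * (Nat.factorial 20 : ℝ)) := by ring
      _ ≤ (K : ℝ) ^ 9 * K := mul_le_mul_of_nonneg_left h3 h4
      _ = (K : ℝ) ^ 10 := by ring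
  have hterm : (1 - 1 / (21 * L)) ^ m * Real.log K ≤ 1 / (2 * K ^ 8) := by
    have hp : (0 : ℝ) < 2 * (K : ℝ) ^ 9 := by positivity
    have h1 : Real.exp (-(Real.sqrt K / 840)) ≤ 1 / (2 * (K : ℝ) ^ 9) := by
      rw [Real.exp_neg, ← one_div]
      exact one_div_le_one_div_of_le hp hbig
    calc (1 - 1 / (21 * L)) ^ m * Real.log K ≤ 1 / (2 * (K : ℝ) ^ 9) * K := by
          apply mul_le_mul (hexp.trans h1) hlogK hlog0 (by positivity)
      _ = 1 / (2 * K ^ 8) := by
          field_simp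
  have hbt : b ≤ 1 / (2 * K ^ 8) := by
    have h1 : θ ≤ 1 / (K : ℝ) ^ 20 := by
      rw [le_div_iff₀ (by positivity)]; exact hθK
    have h2 : b ≤ 300 * K * K ^ 4 * (1 / (K : ℝ) ^ 20) := by
      rw [hb]
      apply mul_le_mul _ h1 hθ (by positivity)
      apply mul_le_mul_of_nonneg_right _ (by positivity)
      linarith
    refine h2.trans ?_
    rw [mul_one_div, div_le_div_iff₀ (by positivity) (by positivity)]
    have h3 : (600 : ℝ) ≤ K ^ 7 := by
      calc (600 : ℝ) ≤ 10 ^ 80 := by norm_num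
        _ ≤ K := hKr
        _ = K ^ 1 := (pow_one _).symm
        _ ≤ K ^ 7 := pow_le_pow_right₀ hK1 (by norm_num)
    have h5 : (0 : ℝ) ≤ (K : ℝ) ^ 13 := by positivity
    calc 300 * (K : ℝ) * (K : ℝ) ^ 4 * (2 * (K : ℝ) ^ 8) = (K : ℝ) ^ 13 * 600 := by ring
      _ ≤ (K : ℝ) ^ 13 * (K : ℝ) ^ 7 := mul_le_mul_of_nonneg_left h3 h5
      _ = 1 * (K : ℝ) ^ 20 := by ring
  have hfin : (1 : ℝ) / (2 * K ^ 8) + 1 / (2 * K ^ 8) = 1 / K ^ 8 := by
    field_simp; norm_num
  linarith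

end Pool.Agent.Lib.MP_b1acb3_co.Uni
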