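import Pool.Agent.Lib.MP_b1acb3_co.Uni.E

/-!
Conclusion of the analytic part for `d ≥ 3`.
-/

namespace Pool.Agent.Lib.MP_b1acb3_co.Uni

open Finset

namespace ModThree

open ModE

variable {n K : ℕ} {P : Fin K → Matrix (Fin n) (Fin n) ℝ}
  {R : Finset (Fin K) → Finset (Fin n)} {θ : ℝ} {d : ℕ}

theorem small_pow {K : ℕ} {θ : ℝ} (hK : 1 ≤ K) (h : θ * K ^ 20 ≤ 1) (hθ : 0 ≤ θ) :
    (K : ℝ) ^ 6 * θ ≤ 1 / (K : ℝ) := by
  have hK' : (1 : ℝ) ≤ K := by exact_mod_cast hK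
  rw [le_div_iff₀ (by linarith)]
  calc (K : ℝ) ^ 6 * θ * K = θ * (K : ℝ) ^ 7 := by ring
    _ ≤ θ * (K : ℝ) ^ 20 := by
      apply mul_le_mul_of_nonneg_left _ hθ
      exact pow_le_pow_right₀ hK' (by norm_num)
    _ ≤ 1 := h

theorem dfc_lower (h1 : StR1) (h2 : StR2) (hS : Sys P R θ d) (hd : 3 ≤ d) (hd4 : d ≤ 4)
    (hK : 100 ≤ K) (hθ : (K : ℝ) ^ 6 * θ ≤ 1 / K) (Q : Finset (Fin K)) (hQ : 4 * Q.card ≤ K + 4) :
    1 / 2 ≤ dfc (rem R 3) Q := by
  have hθ0 := hS.nonneg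
  have hK' : (100 : ℝ) ≤ K := by exact_mod_cast hK
  -- a set of unused colours
  have hcard : K + 3 - d - Q.card ≤ Qᶜ.card := by
    rw [card_compl, Fintype.card_fin]
    omega
  obtain ⟨U, hU1, hU2⟩ := exists_subset_card_eq hcard
  have hne : U.Nonempty := by
    rw [← card_pos, hU2]
    omega
  have hdis : Disjoint Q U := (disjoint_compl_right (a := Q)).mono_right hU1
  have e1 := h2 n K P R θ d 3 hS hd Q U hdis hne (by rw [hU2]; omega)
  have e2 := (h1 n K P R θ d hS).1 U hne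
  have h3 : (K : ℝ) ^ 2 * θ ≤ (K : ℝ) ^ 6 * θ := by
    apply mul_le_mul_of_nonneg_right _ hθ0
    exact pow_le_pow_right₀ (by linarith) (by norm_num)
  have h4 : (K : ℝ) ^ (3 + 1) * θ ≤ (K : ℝ) ^ 6 * θ := by
    apply mul_le_mul_of_nonneg_right _ hθ0
    exact pow_le_pow_right₀ (by linarith) (by norm_num)
  have h5 : 1 / (K : ℝ) ≤ 1 / 100 := by
    apply one_div_le_one_div_of_le (by norm_num) hK'
  linarith

/-- Indicator of the event that `R''_Q` is large. -/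
noncomputable def pp (R : Finset (Fin K) → Finset (Fin n)) (Q : Finset (Fin K)) : ℝ :=
  open Classical in if 1 / 2 ≤ mu (rem R 2 Q) then 1 else 0

theorem pp_le (hA : StA) (hS : Sys P R θ d) (hK : 100 ≤ K)
    (Q : Finset (Fin K)) (hQ : 4 * Q.card ≤ K) (hD : 1 / 2 ≤ dfc (rem R 3) Q) :
    pp R Q ≤ (4 / (K : ℝ)) * (loss (rem R 3) Q / dfc (rem R 3) Q) + 8 * ((K : ℝ) ^ 4 * θ) := by
  have hP := hS.markov
  have hθ0 := hS.nonneg
  have hK' : (100 : ℝ) ≤ K := by exact_mod_cast hK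
  have hK0 : (0 : ℝ) < K := by linarith
  have hη0 : (0 : ℝ) ≤ (K : ℝ) ^ 3 * θ := by positivity
  have hgr : Grows P (rem R 3) ((K : ℝ) ^ 3 * θ) := grows_rem hP R θ hθ0 hS.grow 3
  have hD' : 0 < dfc (rem R 3) Q := by linarith
  set D := dfc (rem R 3) Q with hDdef
  set L := loss (rem R 3) Q with hLdef
  have hq : (Q.card : ℝ) / K ≤ 1 / 4 := by
    rw [div_le_iff₀ hK0]
    have : 4 * (Q.card : ℝ) ≤ K := by exact_mod_cast hQ
    linarith
  have hL : -((K : ℝ) * ((K : ℝ) ^ 4 * θ)) ≤ L := by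
    have e2 : -(((K : ℝ) - Q.card) * (K * ((K : ℝ) ^ 3 * θ))) ≤ L := by
      rw [hLdef]
      unfold loss
      calc -(((K : ℝ) - Q.card) * (K * ((K : ℝ) ^ 3 * θ)))
          = ∑ _c ∈ Qᶜ, (-((K : ℝ) * ((K : ℝ) ^ 3 * θ))) := by
            rw [sum_const, nsmul_eq_mul, card_compl_cast]; ring
        _ ≤ _ := by
            apply sum_le_sum
            intro c hc
            have h3 := dfc_grow hP (rem R 3) _ hη0 hgr Q c (mem_compl.1 hc)
            linarith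
    have e3 : ((K : ℝ) - Q.card) * (K * ((K : ℝ) ^ 3 * θ)) ≤ K * ((K : ℝ) ^ 4 * θ) := by
      have e4 : (0 : ℝ) ≤ (Q.card : ℝ) * (K * ((K : ℝ) ^ 3 * θ)) := by positivity
      calc ((K : ℝ) - Q.card) * (K * ((K : ℝ) ^ 3 * θ))
          = K * ((K : ℝ) ^ 4 * θ) - (Q.card : ℝ) * (K * ((K : ℝ) ^ 3 * θ)) := by ring
        _ ≤ _ := by linarith
    linarith
  have hLD : -(2 * ((K : ℝ) * ((K : ℝ) ^ 4 * θ))) ≤ L / D := by
    rw [le_div_iff₀ hD']
    have e6 : (0 : ℝ) ≤ (K : ℝ) * ((K : ℝ) ^ 4 * θ) := by positivity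
    nlinarith
  have hlow : -(8 * ((K : ℝ) ^ 4 * θ)) ≤ (4 / (K : ℝ)) * (L / D) := by
    have e7 : (4 / (K : ℝ)) * (-(2 * ((K : ℝ) * ((K : ℝ) ^ 4 * θ)))) ≤ (4 / (K : ℝ)) * (L / D) :=
      mul_le_mul_of_nonneg_left hLD (by positivity)
    have e8 : (4 / (K : ℝ)) * (-(2 * ((K : ℝ) * ((K : ℝ) ^ 4 * θ)))) =
        -(8 * ((K : ℝ) ^ 4 * θ)) := by
      field_simp
      ring
    linarith
  unfold pp
  split_ifs with hb
  · have e1 := (hA n K P (rem R 3) (rem R 2) ((K : ℝ) ^ 3 * θ) hP hη0 hgr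
      (fun Q c hc => rem_sub R 2 Q c hc) Q hD').1
    rw [← hDdef, ← hLdef] at e1
    have e3 : (L / K + K * ((K : ℝ) ^ 3 * θ)) / D =
        L / D / K + (K : ℝ) ^ 4 * θ / D := by
      rw [add_div, div_right_comm]
      congr 2
      ring
    rw [e3] at e1
    have e4 : (K : ℝ) ^ 4 * θ / D ≤ 2 * ((K : ℝ) ^ 4 * θ) := by
      rw [div_le_iff₀ hD']
      have : (0 : ℝ) ≤ (K : ℝ) ^ 4 * θ := by positivity
      nlinarith
    have e5 : (4 / (K : ℝ)) * (L / D) = 4 * (L / D / K) := by ring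
    rw [e5]
    linarith
  · linarith

theorem mu_step (hS : Sys P R θ d) (Q : Finset (Fin K)) (c : Fin K) (hc : c ∉ Q) :
    mu (rem R 2 Q) + avg (fun y => if y ∈ rem R 1 Q then 1 - app P c (rem R 2 Q) y else 0) -
      K ^ 2 * θ ≤ mu (rem R 2 (insert c Q)) := by
  have hP := hS.markov
  have hG := grows_rem hP R θ hS.nonneg hS.grow 2
  have hKθ : 0 ≤ (K : ℝ) ^ 2 * θ := mul_nonneg (by positivity) hS.nonneg
  have h1 : ∀ y, app P c (rem R 2 Q) y +
      (if y ∈ rem R 1 Q then 1 - app P c (rem R 2 Q) y else 0) - (K : ℝ) ^ 2 * θ ≤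
      (if y ∈ rem R 2 (insert c Q) then (1 : ℝ) else 0) := by
    intro y
    by_cases hy : y ∈ rem R 2 (insert c Q)
    · rw [if_pos hy]
      have h3 := app_le_one hP c (rem R 2 Q) y
      split_ifs <;> linarith
    · rw [if_neg hy, if_neg (fun h => hy (rem_sub R 1 Q c hc h))]
      have := hG Q c hc y hy
      linarith
  have h2 := avg_mono h1
  rw [avg_indicator, avg_sub, avg_add, avg_app hP, avg_const hP.npos] at h2
  exact h2

theorem mu_sum (hS : Sys P R θ d) (hK : 100 ≤ K) (Q : Finset (Fin K)) (hQ : 4 * Q.card ≤ K) :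
    ((K : ℝ) - Q.card) * (mu (rem R 2 Q) + (1 / 3) * (mu (rem R 1 Q) - pp R Q) - K ^ 2 * θ) ≤
      ∑ c ∈ Qᶜ, mu (rem R 2 (insert c Q)) := by
  have hP := hS.markov
  have hK' : (100 : ℝ) ≤ K := by exact_mod_cast hK
  have hQ' : 4 * (Q.card : ℝ) ≤ K := by exact_mod_cast hQ
  have hq0 : (0 : ℝ) ≤ Q.card := Nat.cast_nonneg _
  have h1 : ∑ c ∈ Qᶜ, (mu (rem R 2 Q) +
      avg (fun y => if y ∈ rem R 1 Q then 1 - app P c (rem R 2 Q) y else 0) - K ^ 2 * θ) ≤
      ∑ c ∈ Qᶜ, mu (rem R 2 (insert c Q)) :=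
    sum_le_sum fun c hc => mu_step hS Q c (mem_compl.1 hc)
  rw [sum_sub_distrib, sum_add_distrib, sum_const, sum_const, nsmul_eq_mul, nsmul_eq_mul,
    card_compl_cast, ← avg_sum] at h1
  -- lower bound for the mean
  have h2 : avg (fun y => if y ∈ rem R 1 Q then (((K : ℝ) - Q.card) - K * mu (rem R 2 Q)) else 0) ≤
      avg (fun y => ∑ c ∈ Qᶜ, if y ∈ rem R 1 Q then 1 - app P c (rem R 2 Q) y else 0) := by
    apply avg_mono
    intro y
    by_cases hy : y ∈ rem R 1 Q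
    · simp only [if_pos hy]
      rw [sum_sub_distrib, sum_const, nsmul_eq_mul, card_compl_cast, mul_one]
      have := sum_app_le hP Qᶜ (rem R 2 Q) y
      linarith
    · simp only [if_neg hy]
      rw [sum_const_zero]
  have h3 : avg (fun y => if y ∈ rem R 1 Q then (((K : ℝ) - Q.card) - K * mu (rem R 2 Q)) else 0) =
      (((K : ℝ) - Q.card) - K * mu (rem R 2 Q)) * mu (rem R 1 Q) := by
    rw [← avg_indicator (rem R 1 Q), ← avg_mul_left]
    congr 1
    funext y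
    split_ifs <;> ring
  have h0 : 0 ≤ avg (fun y => ∑ c ∈ Qᶜ, if y ∈ rem R 1 Q then 1 - app P c (rem R 2 Q) y else 0) := by
    apply avg_nonneg
    intro y
    apply sum_nonneg
    intro c _
    have := app_le_one hP c (rem R 2 Q) y
    split_ifs <;> linarith
  have m1 := mu_nonneg (rem R 1 Q)
  have m2 := mu_le_one (rem R 1 Q)
  rw [h3] at h2
  have key : ((K : ℝ) - Q.card) * ((1 / 3) * (mu (rem R 1 Q) - pp R Q)) ≤
      avg (fun y => ∑ c ∈ Qᶜ, if y ∈ rem R 1 Q then 1 - app P c (rem R 2 Q) y else 0) := by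
    unfold pp
    split_ifs with hb
    · have : ((K : ℝ) - Q.card) * ((1 / 3) * (mu (rem R 1 Q) - 1)) ≤ 0 := by
        apply mul_nonpos_of_nonneg_of_nonpos <;> linarith
      linarith
    · push Not at hb
      have h4 : ((K : ℝ) - Q.card) / 3 ≤ ((K : ℝ) - Q.card) - K * mu (rem R 2 Q) := by
        nlinarith
      calc ((K : ℝ) - Q.card) * ((1 / 3) * (mu (rem R 1 Q) - 0))
          = ((K : ℝ) - Q.card) / 3 * mu (rem R 1 Q) := by ring
        _ ≤ (((K : ℝ) - Q.card) - K * mu (rem R 2 Q)) * mu (rem R 1 Q) :=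
            mul_le_mul_of_nonneg_right h4 m1
        _ ≤ _ := h2
  calc ((K : ℝ) - Q.card) * (mu (rem R 2 Q) + (1 / 3) * (mu (rem R 1 Q) - pp R Q) - K ^ 2 * θ)
      = ((K : ℝ) - Q.card) * mu (rem R 2 Q) +
        ((K : ℝ) - Q.card) * ((1 / 3) * (mu (rem R 1 Q) - pp R Q)) -
        ((K : ℝ) - Q.card) * (K ^ 2 * θ) := by ring
    _ ≤ _ := by linarith

/-- One step for the mean densities. -/
theorem mean_step (hC : StChain) (hE : StE) (hS : Sys P R θ d) (hK : 100 ≤ K) {i : ℕ}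
    (hi : 2 ≤ i) (hiK : 4 * (i + 1) ≤ K) :
    EQ K i (fun Q => mu (rem R 2 Q)) +
      (1 / 3) * ((i : ℝ) / (2 * K) - K ^ 4 * θ - EQ K i (pp R)) - K ^ 2 * θ ≤
    EQ K (i + 1) (fun Q => mu (rem R 2 Q)) := by
  have hK' : (100 : ℝ) ≤ K := by exact_mod_cast hK
  have hK0 : (0 : ℝ) < K := by linarith
  have hiK' : 4 * ((i : ℝ) + 1) ≤ K := by exact_mod_cast hiK
  have e1 := hE n K P R θ d hS (by omega) i hi (by omega)
  have e2 : EQ K i (bad R θ) ≤ 1 := by
    calc EQ K i (bad R θ) ≤ EQ K i (fun _ => (1 : ℝ)) := by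
          apply EQ_mono
          intro Q _
          unfold bad
          split_ifs <;> norm_num
      _ = 1 := EQ_const (by omega) 1
  have e3 : (i : ℝ) / (2 * K) - K ^ 4 * θ ≤ EQ K i (fun Q => mu (rem R 1 Q)) := by
    have h1 : (i : ℝ) / (2 * K) * EQ K i (bad R θ) ≤ (i : ℝ) / (2 * K) * 1 :=
      mul_le_mul_of_nonneg_left e2 (by positivity)
    have h2 : (i : ℝ) / K - (i : ℝ) / (2 * K) * 1 = (i : ℝ) / (2 * K) := by
      field_simp
      ring
    linarith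
  have e4 : EQ K i (fun Q => ((K : ℝ) - i) * (mu (rem R 2 Q) +
      (1 / 3) * (mu (rem R 1 Q) - pp R Q) - K ^ 2 * θ)) ≤
      EQ K i (fun Q => ∑ c ∈ Qᶜ, mu (rem R 2 (insert c Q))) := by
    apply EQ_mono
    intro Q hQ
    have := mu_sum hS hK Q (by omega)
    rw [hQ] at this
    exact this
  rw [EQ_step hC (by omega) (fun Q => mu (rem R 2 Q)), EQ_mul] at e4
  have hpos : (0 : ℝ) < (K : ℝ) - i := by linarith
  have e5 := le_of_mul_le_mul_left e4 hpos
  have e6 : EQ K i (fun Q => mu (rem R 2 Q) + (1 / 3) * (mu (rem R 1 Q) - pp R Q) - K ^ 2 * θ) =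
      EQ K i (fun Q => mu (rem R 2 Q)) +
      (1 / 3) * (EQ K i (fun Q => mu (rem R 1 Q)) - EQ K i (pp R)) - K ^ 2 * θ := by
    have h1 : (fun Q : Finset (Fin K) => mu (rem R 2 Q) + (1 / 3) * (mu (rem R 1 Q) - pp R Q) -
        K ^ 2 * θ) = (fun Q => (mu (rem R 2 Q) + ((1 / 3) * mu (rem R 1 Q) +
        (-(1 / 3)) * pp R Q)) + (-(K ^ 2 * θ))) := by
      funext Q
      ring
    rw [h1, EQ_add, EQ_add, EQ_add, EQ_mul, EQ_mul, EQ_const (by omega)]
    ring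
  rw [e6] at e5
  linarith

end ModThree

open ModE ModThree in
theorem thmThree (hA : StA) (h1 : StR1) (h2 : StR2) (hE : StE) (hC : StChain) (hL : StL) :
    StThree := by
  refine ⟨4000000, ?_⟩
  intro K hK n P R θ d hd hd4 hθ hS
  have hP := hS.markov
  have hθ0 := hS.nonneg
  have hKn : 100 ≤ K := by omega
  have hK' : (4000000 : ℝ) ≤ K := by exact_mod_cast hK
  have hK0 : (0 : ℝ) < K := by linarith
  have hs := small_pow (by omega : 1 ≤ K) hθ hθ0
  have hK1 : 1 / (K : ℝ) ≤ 1 / 4000000 := one_div_le_one_div_of_le (by norm_num) hK'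
  have hK5 : (K : ℝ) ^ 5 * θ ≤ (K : ℝ) ^ 6 * θ := by
    apply mul_le_mul_of_nonneg_right _ hθ0
    exact pow_le_pow_right₀ (by linarith) (by norm_num)
  have hη0 : (0 : ℝ) ≤ (K : ℝ) ^ 3 * θ := by positivity
  have hgr : Grows P (rem R 3) ((K : ℝ) ^ 3 * θ) := grows_rem hP R θ hθ0 hS.grow 3
  have hD : ∀ Q : Finset (Fin K), 4 * Q.card ≤ K + 4 → 1 / 2 ≤ dfc (rem R 3) Q :=
    fun Q hQ => dfc_lower h1 h2 hS hd hd4 hKn hs Q hQ
  -- the summed inequality
  set m : ℕ → ℝ := fun i => EQ K i (fun Q => mu (rem R 2 Q)) with hm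
  have hstep : ∀ i : ℕ, K / 8 + 1 ≤ i → 4 * (i + 1) ≤ K →
      m i + 4 / 3 * lamE (rem R 3) (i + 1) + 1 / 60 ≤ m (i + 1) + 4 / 3 * lamE (rem R 3) i := by
    intro i hi hiK
    have hi8 : (K : ℝ) ≤ 8 * i := by
      have : K ≤ 8 * i := by omega
      exact_mod_cast this
    have s1 := mean_step hC hE hS hKn (i := i) (by omega) hiK
    have s2 := (hL n K P (rem R 3) ((K : ℝ) ^ 3 * θ) i hP hη0 hgr (by omega) (by
      intro Q hQ
      apply hD
      rcases hQ with h | h <;> omega)).2.1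
    have s3 : EQ K i (pp R) ≤ (4 / (K : ℝ)) * sE (rem R 3) i + 8 * ((K : ℝ) ^ 4 * θ) := by
      have h3 : EQ K i (pp R) ≤ EQ K i (fun Q => (4 / (K : ℝ)) *
          (loss (rem R 3) Q / dfc (rem R 3) Q) + 8 * ((K : ℝ) ^ 4 * θ)) := by
        apply EQ_mono
        intro Q hQ
        exact pp_le hA hS hKn Q (by omega) (hD Q (by omega))
      rw [EQ_add, EQ_mul, EQ_const (by omega)] at h3
      exact h3
    have s4 : (4 / (K : ℝ)) * sE (rem R 3) i = 4 * (sE (rem R 3) i / K) := by ring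
    rw [s4] at s3
    have s5 : (1 : ℝ) / 16 ≤ (i : ℝ) / (2 * K) := by
      rw [div_le_div_iff₀ (by norm_num) (by positivity)]
      linarith
    have s6 : (K : ℝ) ^ 4 * θ ≤ (K : ℝ) ^ 6 * θ := by
      apply mul_le_mul_of_nonneg_right _ hθ0
      exact pow_le_pow_right₀ (by linarith) (by norm_num)
    have s7 : (K : ℝ) ^ 2 * θ ≤ (K : ℝ) ^ 6 * θ := by
      apply mul_le_mul_of_nonneg_right _ hθ0
      exact pow_le_pow_right₀ (by linarith) (by norm_num)
    have s8 : 2 * (K : ℝ) * ((K : ℝ) ^ 3 * θ) = 2 * ((K : ℝ) ^ 4 * θ) := by ring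
    rw [s8] at s2
    simp only [hm]
    linarith
  have hsum : ∀ k : ℕ, 4 * (K / 8 + 1 + k) ≤ K →
      m (K / 8 + 1) + 4 / 3 * lamE (rem R 3) (K / 8 + 1 + k) + k / 60 ≤
        m (K / 8 + 1 + k) + 4 / 3 * lamE (rem R 3) (K / 8 + 1) := by
    intro k
    induction k with
    | zero => intro _; simp
    | succ k ih =>
      intro hk
      have i1 := ih (by omega)
      have i2 := hstep (K / 8 + 1 + k) (by omega) (by omega)
      have e : K / 8 + 1 + (k + 1) = K / 8 + 1 + k + 1 := by omega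
      rw [e]
      push_cast
      linarith
  -- the end points
  set k := K / 4 - (K / 8 + 1) with hk
  have hk1 : K / 8 + 1 + k = K / 4 := by omega
  have f1 := hsum k (by omega)
  have hkl : (K : ℝ) / 8 - 2 ≤ k := by
    have : K ≤ 8 * k + 16 := by omega
    have h3 : (K : ℝ) ≤ 8 * k + 16 := by exact_mod_cast this
    linarith
  have hm0 : 0 ≤ m (K / 8 + 1) := by
    simp only [hm]
    exact EQ_nonneg fun Q => mu_nonneg _
  have hm1 : m (K / 8 + 1 + k) ≤ 1 := by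
    simp only [hm]
    calc _ ≤ EQ K (K / 8 + 1 + k) (fun _ => (1 : ℝ)) := EQ_mono fun Q _ => mu_le_one _
      _ = 1 := EQ_const (by omega) 1
  have hl0 : lamE (rem R 3) (K / 8 + 1) ≤ Real.log K :=
    (hL n K P (rem R 3) ((K : ℝ) ^ 3 * θ) (K / 8 + 1) hP hη0 hgr (by omega) (by
      intro Q hQ
      apply hD
      rcases hQ with h | h <;> omega)).2.2.2
  have hl1 : -1 ≤ lamE (rem R 3) (K / 8 + 1 + k) := by
    unfold lamE
    calc (-1 : ℝ) = EQ K (K / 8 + 1 + k) (fun _ => (-1 : ℝ)) := (EQ_const (by omega) (-1)).symm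
      _ ≤ _ := by
        apply EQ_mono
        intro Q hQ
        have h3 := hD Q (by omega)
        have h4 : Real.log (1 / 2) ≤ Real.log (dfc (rem R 3) Q) :=
          Real.log_le_log (by norm_num) h3
        have h5 : Real.log (1 / 2) = -Real.log 2 := by
          rw [one_div, Real.log_inv]
        have h6 := Real.log_two_lt_d9
        linarith
  -- the logarithm is small
  have hsq : Real.sqrt K ^ 2 = K := Real.sq_sqrt hK0.le
  have hsq0 : 0 < Real.sqrt K := Real.sqrt_pos.mpr hK0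
  have hsq1 : 2000 ≤ Real.sqrt K := by
    apply Real.le_sqrt_of_sq_le
    linarith
  have hlog : Real.log K ≤ 2 * Real.sqrt K := by
    have h3 := Real.log_le_sub_one_of_pos hsq0
    have h4 : Real.log K = 2 * Real.log (Real.sqrt K) := by
      rw [← hsq, Real.log_pow, Real.sqrt_sq hsq0.le]
      push_cast
      ring
    linarith
  have : (K : ℝ) / 480 ≤ 3 + 3 * Real.sqrt K := by
    have h3 : (k : ℝ) / 60 ≤ 1 + 4 / 3 * (2 * Real.sqrt K) + 4 / 3 := by linarith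
    have h4 : ((K : ℝ) / 8 - 2) / 60 ≤ (k : ℝ) / 60 := by linarith
    linarith
  nlinarith

end Pool.Agent.Lib.MP_b1acb3_co.Uni
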