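import Pool.Agent.Lib.MP_b1acb3_co.Uni.Stmts
import Pool.Agent.Lib.MP_b1acb3_co.Cyc.Final

/-!
Rainbow cycles of length `K - 2`, `K - 3`, `K - 4`, and the final theorem.
-/

namespace Pool.Agent.Lib.MP_b1acb3_co.Uni

open Finset

theorem thmZ (hTwo : StTwo) (hThree : StThree) (hS3 : StS3) (hS4 : StS4) (hS5 : StS5)
    (hG3 : StG3) (hG4 : StG4) : StZ := by
  obtain ⟨K₁, hK₁⟩ := hTwo
  obtain ⟨K₂, hK₂⟩ := hThree
  refine ⟨max 30 (max K₁ K₂), ?_⟩
  intro K hK d l hd2 hd4 hl hpow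
  have hK30 : 30 ≤ K := (le_max_left _ _).trans hK
  have hKK₁ : K₁ ≤ K := ((le_max_left _ _).trans (le_max_right _ _)).trans hK
  have hKK₂ : K₂ ≤ K := ((le_max_right _ _).trans (le_max_right _ _)).trans hK
  have hK0 : 0 < K := by omega
  have hKR : (30 : ℝ) ≤ K := by exact_mod_cast hK30
  have hKpos : (0 : ℝ) < K := by linarith
  set θ : ℝ := 1 / (K : ℝ) ^ 20 with hθdef
  set ζ : ℝ := 1 / (20000 * (K : ℝ) ^ 2) with hζdef
  have hθ0 : 0 < θ := by positivity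
  have hζ0 : 0 < ζ := by positivity
  have hθK : θ * (K : ℝ) ^ 20 ≤ 1 := by
    rw [hθdef]
    have : (K : ℝ) ^ 20 ≠ 0 := by positivity
    field_simp
    exact le_refl 1
  obtain ⟨ε₁, hε₁, n₁, hn₁⟩ := hG3 K θ θ hK0 hθ0 hθ0
  obtain ⟨n₂, hn₂⟩ := exists_nat_gt ((K : ℝ) / ζ)
  refine ⟨min ε₁ ζ, lt_min hε₁ hζ0, max (max n₁ n₂) 1, ?_⟩
  intro n hn c hc
  have hnn₁ : n₁ ≤ n := ((le_max_left _ _).trans (le_max_left _ _)).trans hn
  have hnn₂ : n₂ ≤ n := ((le_max_right _ _).trans (le_max_left _ _)).trans hn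
  have hn0 : 0 < n := (le_max_right _ _).trans hn
  obtain ⟨B, _, hB2, hSys⟩ := hn₁ n hnn₁ c (Cyc.balanced_mono (min_le_left _ _) hc)
  by_contra hno
  rcases Nat.eq_or_lt_of_le hd2 with h2 | h3
  · subst h2
    apply hpow rfl
    have hstruct : Struct c ζ := by
      refine hG4 n K c B θ θ ζ (min ε₁ ζ) hn0 (by omega) hθ0 hθ0 hB2 hc (min_le_right _ _) ?_ ?_
      · have h19 : (K : ℝ) * θ ≤ K ^ 3 * θ := by
          apply mul_le_mul_of_nonneg_right _ hθ0.le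
          calc (K : ℝ) = K ^ 1 := (pow_one _).symm
            _ ≤ K ^ 3 := pow_le_pow_right₀ (by linarith) (by norm_num)
        have h17 : (K : ℝ) ^ 3 * θ * (40000 * (K : ℝ) ^ 2) ≤ 1 := by
          have h40 : (40000 : ℝ) ≤ (K : ℝ) ^ 15 := by
            calc (40000 : ℝ) ≤ 30 ^ 15 := by norm_num
              _ ≤ (K : ℝ) ^ 15 := pow_le_pow_left₀ (by norm_num) hKR 15
          calc (K : ℝ) ^ 3 * θ * (40000 * (K : ℝ) ^ 2) = 40000 * ((K : ℝ) ^ 5 * θ) := by ring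
            _ ≤ (K : ℝ) ^ 15 * ((K : ℝ) ^ 5 * θ) := by gcongr
            _ = θ * (K : ℝ) ^ 20 := by ring
            _ ≤ 1 := hθK
        have h18 : (K : ℝ) ^ 3 * θ ≤ 1 / (40000 * (K : ℝ) ^ 2) := by
          rw [le_div_iff₀ (by positivity)]
          exact h17
        have h20 : 1 / (40000 * (K : ℝ) ^ 2) = ζ / 2 := by
          rw [hζdef]
          field_simp
          norm_num
        rw [h20] at h18
        linarith
      · intro x a b hab
        have h5 := hK₁ K hKK₁ n (Cyc.nrm B) (reach c (Cyc.nrm B) θ x) θ (hSys 2 l x hl hno)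
          hθK a b hab
        have h6 : 1 / (K : ℝ) ^ 5 ≤ ζ := by
          rw [hζdef]
          apply one_div_le_one_div_of_le (by positivity)
          have h7 : (20000 : ℝ) ≤ (K : ℝ) ^ 3 := by
            calc (20000 : ℝ) ≤ 30 ^ 3 := by norm_num
              _ ≤ (K : ℝ) ^ 3 := pow_le_pow_left₀ (by norm_num) hKR 3
          calc 20000 * (K : ℝ) ^ 2 ≤ (K : ℝ) ^ 3 * (K : ℝ) ^ 2 := by gcongr
            _ = (K : ℝ) ^ 5 := by ring
        linarith
    have hz1 : 20000 * (K : ℝ) ^ 2 * ζ = 1 := by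
      rw [hζdef]
      field_simp
    have hz2 : (K : ℝ) ≤ ζ * n := by
      have h8 : (K : ℝ) / ζ ≤ n := by
        have : (n₂ : ℝ) ≤ n := by exact_mod_cast hnn₂
        linarith
      rw [div_le_iff₀ hζ0] at h8
      linarith
    have hz3 : 4000 * (K : ℝ) ^ 2 * ζ ≤ 1 := by
      have : 0 < (K : ℝ) ^ 2 * ζ := by positivity
      nlinarith
    obtain ⟨σ, hσ1, hσ2, hσ3⟩ := hS3 n K c ζ (by omega) hζ0.le hz3 hz2 hstruct ⟨0, hn0⟩
    exact hS5 K σ hK0 hσ2 (hS4 n K c ζ (by omega) hζ0.le hz1.le hz2 hstruct ⟨0, hn0⟩ σ hσ1) hσ3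
  · exact hK₂ K hKK₂ n (Cyc.nrm B) (reach c (Cyc.nrm B) θ ⟨0, hn0⟩) θ d h3 hd4 hθK
      (hSys d l ⟨0, hn0⟩ hl hno)

theorem thmFinal (hZ : StZ) (hG5 : StG5) (hG6 : StG6) (hG7 : StG7) : StFinal := by
  classical
  obtain ⟨K₀, hK₀⟩ := hZ
  obtain ⟨C, hC⟩ := Cyc.main_five
  refine ⟨max (max K₀ C) 4, ?_⟩
  intro V _ G a v p hac hp hlt he
  have heK : K₀ ≤ numEdges G := ((le_max_left _ _).trans (le_max_left _ _)).trans he
  have heC : C ≤ numEdges G := ((le_max_right _ _).trans (le_max_left _ _)).trans he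
  have he4 : 4 ≤ numEdges G := (le_max_right _ _).trans he
  obtain ⟨hT, hnum, hedge⟩ := hG5 V G a v p hac hp
  have hcyc : Cyc.CyclomaticLE G 1 := by
    refine ⟨{a}, by simp, ?_⟩
    rw [coe_singleton]
    exact hac
  have hforce : (numEdges G + 1 < p.length + 5) →
      (p.length + 1 = numEdges G → ¬ ∃ r : ℕ, numEdges G + 1 = 2 ^ r) → ForcesRainbow G := by
    intro h5 hpow
    obtain ⟨n₀, hn₀⟩ := hG6 V G v p hp hT hedge
    obtain ⟨ε, hε, n₁, hn₁⟩ := hK₀ (numEdges G + 1) (by omega) (numEdges G + 1 - p.length)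
      p.length (by omega) (by omega) (by omega) (fun h => hpow (by omega))
    refine ⟨min ε (1 / 2), lt_min hε (by norm_num), max n₀ n₁, ?_⟩
    intro n hn c hc
    exact hn₀ n ((le_max_left _ _).trans hn) c (Cyc.balanced_mono (min_le_right _ _) hc)
      (hn₁ n ((le_max_right _ _).trans hn) c (Cyc.balanced_mono (min_le_left _ _) hc))
  constructor
  · rintro hF ⟨h1, r, hr⟩
    have hr2 : 2 ≤ r := by
      by_contra hcon
      have h6 : r = 0 ∨ r = 1 := by omega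
      rcases h6 with rfl | rfl <;> omega
    exact (Cyc.main_neg G r hr2 hr (hG7 V G a v p hac hp h1)).2 hF
  · intro h
    by_cases h5 : numEdges G + 1 < p.length + 5
    · exact hforce h5 (fun h1 h2 => h ⟨h1, h2⟩)
    · exact hC V G p.support.toFinset 1 le_rfl hT hcyc (by omega) (by omega)

end Pool.Agent.Lib.MP_b1acb3_co.Uni
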