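import Pool.Agent.Lib.MP_b1acb3_co.Uni.A
import Pool.Agent.Lib.MP_b1acb3_co.Uni.B
import Pool.Agent.Lib.MP_b1acb3_co.Uni.C
import Pool.Agent.Lib.MP_b1acb3_co.Uni.Chain
import Pool.Agent.Lib.MP_b1acb3_co.Uni.O
import Pool.Agent.Lib.MP_b1acb3_co.Uni.R
import Pool.Agent.Lib.MP_b1acb3_co.Uni.I
import Pool.Agent.Lib.MP_b1acb3_co.Uni.E
import Pool.Agent.Lib.MP_b1acb3_co.Uni.L
import Pool.Agent.Lib.MP_b1acb3_co.Uni.T
import Pool.Agent.Lib.MP_b1acb3_co.Uni.M
import Pool.Agent.Lib.MP_b1acb3_co.Uni.Rec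
import Pool.Agent.Lib.MP_b1acb3_co.Uni.Seq
import Pool.Agent.Lib.MP_b1acb3_co.Uni.Pair
import Pool.Agent.Lib.MP_b1acb3_co.Uni.Two
import Pool.Agent.Lib.MP_b1acb3_co.Uni.Three
import Pool.Agent.Lib.MP_b1acb3_co.Uni.S1
import Pool.Agent.Lib.MP_b1acb3_co.Uni.S2
import Pool.Agent.Lib.MP_b1acb3_co.Uni.S3
import Pool.Agent.Lib.MP_b1acb3_co.Uni.S4
import Pool.Agent.Lib.MP_b1acb3_co.Uni.S5
import Pool.Agent.Lib.MP_b1acb3_co.Uni.G1
import Pool.Agent.Lib.MP_b1acb3_co.Uni.G2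
import Pool.Agent.Lib.MP_b1acb3_co.Uni.G3
import Pool.Agent.Lib.MP_b1acb3_co.Uni.G4
import Pool.Agent.Lib.MP_b1acb3_co.Uni.G5
import Pool.Agent.Lib.MP_b1acb3_co.Uni.G6
import Pool.Agent.Lib.MP_b1acb3_co.Uni.Z

/-!
Assembly of the classification of large graphs with exactly one cycle (not the whole graph).
-/

namespace Pool.Agent.Lib.MP_b1acb3_co.Uni

theorem all_E : StE := thmE (thmI thmR1) thmChain thmR1

theorem all_T : StT := thmT thmA thmR1 thmR2

theorem all_L : StL := thmL thmChain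

theorem all_O : StO := thmO thmB thmChain

theorem all_M : StM := thmM thmA thmC all_O all_E all_T thmR1 thmR2

theorem all_Rec : StRec := thmRec all_M all_L thmR1 thmR2

theorem all_Two : StTwo := thmTwo all_Rec thmSeq (thmPair thmR1 thmR2) all_L thmR1 thmR2

theorem all_Three : StThree := thmThree thmA thmR1 thmR2 all_E thmChain all_L

theorem all_G3 : StG3 := thmG3 (thmG2 thmG1)

theorem all_Z : StZ := thmZ all_Two all_Three (thmS3 (thmS2 thmS1)) thmS4 thmS5 all_G3 thmG4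

/-- The classification of large graphs with exactly one cycle that is not the whole graph. -/
theorem main : StFinal := thmFinal all_Z thmG5 thmG6 thmG7

end Pool.Agent.Lib.MP_b1acb3_co.Uni
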