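import Pool.Agent.Lib.MP_b1acb3_co.Uni.M

/-!
Module (Rec): the recurrence for the potential (`d = 2`).
-/

namespace Pool.Agent.Lib.MP_b1acb3_co.Uni

open Finset

namespace ModRec

/-- Comparison of the logarithm with `1 - 1 / D`. -/
theorem log_le {D κ e : ℝ} (hκ : 1 ≤ κ) (he : 0 ≤ e) (he1 : e ≤ 1 / 4) (hD : 1 - 2 * e ≤ D)
    (hDκ : D ≤ κ) :
    Real.log D ≤ (Real.log κ + 1) * (1 - 1 / D) + 5 * (Real.log κ + 1) * e := by
  have hL : 0 ≤ Real.log κ := Real.log_nonneg hκ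
  have hD0 : 0 < D := by linarith
  rcases le_total 1 D with h | h
  · have h1 : Real.log D ≤ Real.log κ := Real.log_le_log hD0 hDκ
    have h2 : 0 ≤ 1 - 1 / D := by
      rw [sub_nonneg, div_le_one hD0]
      exact h
    have h3 : Real.log D ≤ D - 1 := Real.log_le_sub_one_of_pos hD0
    have h4 : (Real.log D + 1) * (1 - 1 / D) = Real.log D + (D - 1 - Real.log D) / D := by
      field_simp
      ring
    have h5 : 0 ≤ (D - 1 - Real.log D) / D := div_nonneg (by linarith) hD0.le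
    have h6 : (Real.log D + 1) * (1 - 1 / D) ≤ (Real.log κ + 1) * (1 - 1 / D) :=
      mul_le_mul_of_nonneg_right (by linarith) h2
    have h7 : 0 ≤ 5 * (Real.log κ + 1) * e := by positivity
    linarith
  · have h1 : Real.log D ≤ 0 := Real.log_nonpos hD0.le h
    have h2 : 1 / D ≤ 1 + 4 * e := by
      rw [div_le_iff₀ hD0]
      nlinarith
    have h3 : (Real.log κ + 1) * (-(4 * e)) ≤ (Real.log κ + 1) * (1 - 1 / D) :=
      mul_le_mul_of_nonneg_left (by linarith) (by linarith)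
    have h4 : 0 ≤ (Real.log κ + 1) * e := by positivity
    nlinarith

end ModRec

open ModRec ModM in
theorem thmRec (hM : StM) (hL : StL) (h1 : StR1) (h2 : StR2) : StRec := by
  intro n K P R θ hS hK hθ i hi hiK hK8
  have hP := hS.markov
  have hθ0 := hS.nonneg
  have hK0 : (0 : ℝ) < K := by exact_mod_cast hP.kpos
  have hK1 : (1 : ℝ) ≤ K := by exact_mod_cast hP.kpos
  have hη0 : (0 : ℝ) ≤ (K : ℝ) ^ 2 * θ := by positivity
  have hgr : Grows P (rem R 2) ((K : ℝ) ^ 2 * θ) := grows_rem hP R θ hθ0 hS.grow 2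
  obtain ⟨hs1, hs2, hs3⟩ := small hK hθ0 hθ
  have hlog : 0 ≤ Real.log K := Real.log_nonneg hK1
  -- the pointwise comparison
  have hpt : ∀ Q : Finset (Fin K), Q.card = i →
      Real.log (dfc (rem R 2) Q) ≤ (Real.log K + 1) * (1 - 1 / dfc (rem R 2) Q) +
        5 * (Real.log K + 1) * ((K : ℝ) ^ 3 * θ) := by
    intro Q hQ
    have hD1 := (dfc_ge_half h1 h2 P R θ hS hK hθ Q (by omega)).1
    exact log_le hK1 hs1 (by linarith) (by linarith) (dfc_le _ Q)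
  have hEQ := ModL.EQ_mono (K := K) (i := i) hpt
  rw [EQ_add, ModL.EQ_mul, ModL.EQ_const (by omega)] at hEQ
  have hlam : EQ K i (fun Q => Real.log (dfc (rem R 2) Q)) = lamE (rem R 2) i := rfl
  rw [hlam] at hEQ
  have m := hM n K P R θ hS hK hθ i hi (by omega) hK8
  have l1 := hL n K P (rem R 2) ((K : ℝ) ^ 2 * θ) i hP hη0 hgr (by omega)
    (fun Q hQ => (dfc_ge_half h1 h2 P R θ hS hK hθ Q (by omega)).2)
  have l2 := hL n K P (rem R 2) ((K : ℝ) ^ 2 * θ) (i + 1) hP hη0 hgr (by omega)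
    (fun Q hQ => (dfc_ge_half h1 h2 P R θ hS hK hθ Q (by omega)).2)
  have c1 : 2 * (K : ℝ) * ((K : ℝ) ^ 2 * θ) = 2 * ((K : ℝ) ^ 3 * θ) := by ring
  rw [c1] at l1 l2
  obtain ⟨l11, l12, -, -⟩ := l1
  obtain ⟨l21, l22, -, -⟩ := l2
  have c2 : 40 * (K : ℝ) ^ 4 * θ = 40 * ((K : ℝ) ^ 4 * θ) := by ring
  rw [c2] at m
  set X := EQ K i (fun Q => 1 - 1 / dfc (rem R 2) Q) with hX
  have hXb : X ≤ 21 * (lamE (rem R 2) i - lamE (rem R 2) (i + 2)) + 84 * ((K : ℝ) ^ 3 * θ) +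
      40 * ((K : ℝ) ^ 4 * θ) := by
    have e : lamE (rem R 2) (i + 1 + 1) = lamE (rem R 2) (i + 2) := rfl
    rw [e] at l21 l22
    linarith
  have hmul : (Real.log K + 1) * X ≤ (Real.log K + 1) *
      (21 * (lamE (rem R 2) i - lamE (rem R 2) (i + 2)) + 84 * ((K : ℝ) ^ 3 * θ) +
      40 * ((K : ℝ) ^ 4 * θ)) := mul_le_mul_of_nonneg_left hXb (by linarith)
  have hfin : (Real.log K + 1) * (89 * ((K : ℝ) ^ 3 * θ) + 40 * ((K : ℝ) ^ 4 * θ)) ≤
      (Real.log K + 1) * (300 * ((K : ℝ) ^ 4 * θ)) :=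
    mul_le_mul_of_nonneg_left (by linarith) (by linarith)
  have c3 : 300 * (Real.log K + 1) * (K : ℝ) ^ 4 * θ =
      (Real.log K + 1) * (300 * ((K : ℝ) ^ 4 * θ)) := by ring
  rw [c3]
  have c4 : 21 * (Real.log K + 1) * (lamE (rem R 2) i - lamE (rem R 2) (i + 2)) =
      (Real.log K + 1) * (21 * (lamE (rem R 2) i - lamE (rem R 2) (i + 2))) := by ring
  rw [c4]
  have c5 : (Real.log K + 1) *
      (21 * (lamE (rem R 2) i - lamE (rem R 2) (i + 2)) + 84 * ((K : ℝ) ^ 3 * θ) +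
      40 * ((K : ℝ) ^ 4 * θ)) = (Real.log K + 1) *
      (21 * (lamE (rem R 2) i - lamE (rem R 2) (i + 2))) +
      ((Real.log K + 1) * (89 * ((K : ℝ) ^ 3 * θ) + 40 * ((K : ℝ) ^ 4 * θ)) -
      5 * (Real.log K + 1) * ((K : ℝ) ^ 3 * θ)) := by ring
  linarith

end Pool.Agent.Lib.MP_b1acb3_co.Uni
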