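import Pool.Agent.Lib.MP_b1acb3_co.Uni.Stmts

/-!
Module (A): two inequalities for a set `E Q` contained in all sets `F (Q ∪ {c})`.
-/

namespace Pool.Agent.Lib.MP_b1acb3_co.Uni

open Finset

variable {n K : ℕ} {P : Fin K → Matrix (Fin n) (Fin n) ℝ}

/-- The part of `app P c (F Q)ᶜ` on `E`. -/
theorem avg_E_le (hP : Markov P) (F : Finset (Fin K) → Finset (Fin n)) (η : ℝ) (hη : 0 ≤ η)
    (hF : Grows P F η) (Q : Finset (Fin K)) (c : Fin K) (hc : c ∉ Q) (E : Finset (Fin n))
    (hE : E ⊆ F (insert c Q)) :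
    avg (fun y => if y ∈ E then app P c (F Q)ᶜ y else 0) ≤
      (dfc F Q - dfc F (insert c Q)) / K + η := by
  have hK : (0 : ℝ) < K := by exact_mod_cast hP.kpos
  have h1 : ∀ y, (if y ∈ E then app P c (F Q)ᶜ y else 0) ≤
      app P c (F Q)ᶜ y - (1 - η) * (if y ∈ (F (insert c Q))ᶜ then 1 else 0) := by
    intro y
    have h0 := app_nonneg hP c (F Q)ᶜ y
    by_cases hy : y ∈ F (insert c Q)
    · rw [if_neg (fun h => (mem_compl.1 h) hy)]
      split_ifs <;> linarith
    · rw [if_pos (mem_compl.2 hy), if_neg (fun h => hy (hE h)), app_compl hP]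
      have := hF Q c hc y hy
      linarith
  refine (avg_mono h1).trans ?_
  rw [avg_sub, avg_mul_left, avg_indicator, avg_app hP]
  have h2 := dfc_eq (K := K) hP.npos F Q
  have h3 := dfc_eq (K := K) hP.npos F (insert c Q)
  have h4 : (dfc F Q - dfc F (insert c Q)) / K = mu (F Q)ᶜ - mu (F (insert c Q))ᶜ := by
    rw [h2, h3]
    field_simp
  rw [h4]
  have h5 := mu_le_one (F (insert c Q))ᶜ
  have h6 := mu_nonneg (F (insert c Q))ᶜ
  nlinarith

/-- The part of `kf` on `E`. -/
theorem avg_E_kf_le (hP : Markov P) (F : Finset (Fin K) → Finset (Fin n)) (η : ℝ) (hη : 0 ≤ η)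
    (hF : Grows P F η) (Q : Finset (Fin K)) (E : Finset (Fin n))
    (hE : ∀ c, c ∉ Q → E ⊆ F (insert c Q)) :
    avg (fun y => if y ∈ E then kf P F Q y else 0) ≤ loss F Q / K + K * η := by
  have h1 : avg (fun y => if y ∈ E then kf P F Q y else 0) =
      ∑ c ∈ Qᶜ, avg (fun y => if y ∈ E then app P c (F Q)ᶜ y else 0) := by
    rw [← avg_sum]
    congr 1
    funext y
    split_ifs
    · rfl
    · rw [sum_const_zero]
  rw [h1]
  have h2 : ∑ c ∈ Qᶜ, avg (fun y => if y ∈ E then app P c (F Q)ᶜ y else 0) ≤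
      ∑ c ∈ Qᶜ, ((dfc F Q - dfc F (insert c Q)) / K + η) :=
    sum_le_sum fun c hc => avg_E_le hP F η hη hF Q c (mem_compl.1 hc) E (hE c (mem_compl.1 hc))
  refine h2.trans ?_
  rw [sum_add_distrib, ← sum_div, sum_const, nsmul_eq_mul]
  unfold loss
  have h3 : ((Qᶜ.card : ℕ) : ℝ) ≤ K := by
    have := card_le_univ Qᶜ
    rw [Fintype.card_fin] at this
    exact_mod_cast this
  have h4 := mul_le_mul_of_nonneg_right h3 hη
  linarith

theorem thmA : StA := by
  intro n K P F E η hP hη hF hE Q hD
  set D := dfc F Q with hDdef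
  set X := loss F Q / K + K * η with hX
  have ha := avg_E_kf_le hP F η hη hF Q (E Q) (fun c hc => hE Q c hc)
  set a := avg (fun y => if y ∈ E Q then kf P F Q y else 0) with hadef
  have hsplit := avg_ite_add (E Q) (kf P F Q)
  have hk := avg_kf hP F Q
  have hind : avg (fun y => if y ∈ E Q then (0 : ℝ) else 1) = 1 - mu (E Q) := by
    have h1 := avg_ite_add (E Q) (fun _ : Fin n => (1 : ℝ))
    rw [avg_indicator, avg_const hP.npos] at h1
    linarith
  set b := avg (fun y => if y ∈ E Q then 0 else kf P F Q y) with hbdef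
  -- the part off `E`
  have hb : b ≤ D * (1 - mu (E Q)) := by
    rw [← hind, ← avg_mul_left]
    apply avg_mono
    intro y
    split_ifs
    · simp
    · rw [mul_one]
      exact kf_le hP F Q y
  have hab : a + b = (1 - (Q.card : ℝ) / K) * D := by
    rw [← hk]
    exact hsplit
  constructor
  · have h1 : mu (E Q) * D ≤ ((Q.card : ℝ) / K) * D + X := by nlinarith
    have h2 : mu (E Q) ≤ (((Q.card : ℝ) / K) * D + X) / D := by
      rw [le_div_iff₀ hD]
      exact h1
    rw [add_div, mul_div_assoc, div_self hD.ne', mul_one] at h2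
    exact h2
  · have h1 : avg (fun y => kf P F Q y * (D - kf P F Q y)) ≤
        D * a + D * (D * (1 - mu (E Q)) - b) := by
      have h2 : D * a + D * (D * (1 - mu (E Q)) - b) =
          avg (fun y => D * (if y ∈ E Q then kf P F Q y else 0) +
            D * (D * (if y ∈ E Q then (0 : ℝ) else 1) - (if y ∈ E Q then 0 else kf P F Q y))) := by
        rw [avg_add, avg_mul_left, avg_mul_left, avg_sub, avg_mul_left, hind]
      rw [h2]
      apply avg_mono
      intro y
      have h3 := kf_nonneg hP F Q y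
      have h4 := kf_le hP F Q y
      rw [← hDdef] at h4
      split_ifs
      · nlinarith
      · nlinarith
    have h2 : avg (fun y => kf P F Q y * (D - kf P F Q y)) ≤
        D ^ 2 * ((Q.card : ℝ) / K - mu (E Q)) + 2 * X * D := by
      have h3 : D * a ≤ D * X := mul_le_mul_of_nonneg_left ha hD.le
      have h4 : b = (1 - (Q.card : ℝ) / K) * D - a := by linarith
      rw [h4] at h1
      nlinarith
    unfold mh
    rw [← hDdef, div_le_iff₀ (by positivity)]
    refine h2.trans (le_of_eq ?_)
    field_simp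

end Pool.Agent.Lib.MP_b1acb3_co.Uni
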