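import Pool.Agent.Lib.MP_b1acb3_co.Uni.Defs

/-!
Basic facts on means, densities and Markov kernels.
-/

namespace Pool.Agent.Lib.MP_b1acb3_co.Uni

open Finset

/-! ### Means -/

theorem avg_nonneg {n : ℕ} {f : Fin n → ℝ} (h : ∀ y, 0 ≤ f y) : 0 ≤ avg f :=
  div_nonneg (sum_nonneg fun y _ => h y) (Nat.cast_nonneg n)

theorem avg_mono {n : ℕ} {f g : Fin n → ℝ} (h : ∀ y, f y ≤ g y) : avg f ≤ avg g :=
  div_le_div_of_nonneg_right (sum_le_sum fun y _ => h y) (Nat.cast_nonneg n)

theorem avg_add {n : ℕ} (f g : Fin n → ℝ) : avg (fun y => f y + g y) = avg f + avg g := by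
  unfold avg
  rw [sum_add_distrib, add_div]

theorem avg_sub {n : ℕ} (f g : Fin n → ℝ) : avg (fun y => f y - g y) = avg f - avg g := by
  unfold avg
  rw [sum_sub_distrib, sub_div]

theorem avg_mul_left {n : ℕ} (a : ℝ) (f : Fin n → ℝ) : avg (fun y => a * f y) = a * avg f := by
  unfold avg
  rw [← mul_sum, mul_div_assoc]

theorem avg_const {n : ℕ} (hn : 0 < n) (a : ℝ) : avg (fun _ : Fin n => a) = a := by
  unfold avg
  rw [sum_const, card_univ, Fintype.card_fin, nsmul_eq_mul]
  have : (n : ℝ) ≠ 0 := by positivity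
  field_simp

theorem avg_sum {n : ℕ} {ι : Type} (s : Finset ι) (f : ι → Fin n → ℝ) :
    avg (fun y => ∑ i ∈ s, f i y) = ∑ i ∈ s, avg (f i) := by
  unfold avg
  rw [sum_comm, sum_div]

/-- The mean over a set plus the mean over its complement. -/
theorem avg_ite_add {n : ℕ} (S : Finset (Fin n)) (f : Fin n → ℝ) :
    avg (fun y => if y ∈ S then f y else 0) + avg (fun y => if y ∈ S then 0 else f y) = avg f := by
  rw [← avg_add]
  congr 1
  funext y
  by_cases h : y ∈ S <;> simp [h]

theorem avg_indicator {n : ℕ} (S : Finset (Fin n)) :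
    avg (fun y => if y ∈ S then (1 : ℝ) else 0) = mu S := by
  unfold avg mu
  congr 1
  simp

/-! ### Densities -/

theorem mu_nonneg {n : ℕ} (S : Finset (Fin n)) : 0 ≤ mu S := by
  unfold mu
  positivity

theorem mu_le_one {n : ℕ} (S : Finset (Fin n)) : mu S ≤ 1 := by
  unfold mu
  have h : (S.card : ℝ) ≤ n := by
    have := card_le_univ S
    rw [Fintype.card_fin] at this
    exact_mod_cast this
  exact div_le_one_of_le₀ h (Nat.cast_nonneg n)

theorem mu_mono {n : ℕ} {S T : Finset (Fin n)} (h : S ⊆ T) : mu S ≤ mu T := by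
  unfold mu
  apply div_le_div_of_nonneg_right _ (Nat.cast_nonneg n)
  exact_mod_cast card_le_card h

theorem mu_empty {n : ℕ} : mu (∅ : Finset (Fin n)) = 0 := by
  unfold mu
  simp

theorem mu_compl {n : ℕ} (hn : 0 < n) (S : Finset (Fin n)) : mu Sᶜ = 1 - mu S := by
  unfold mu
  rw [card_compl, Fintype.card_fin, Nat.cast_sub (by
    have := card_le_univ S
    rwa [Fintype.card_fin] at this)]
  have : (n : ℝ) ≠ 0 := by positivity
  field_simp

theorem mu_union_le {n : ℕ} (S T : Finset (Fin n)) : mu (S ∪ T) ≤ mu S + mu T := by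
  unfold mu
  rw [← add_div]
  apply div_le_div_of_nonneg_right _ (Nat.cast_nonneg n)
  exact_mod_cast card_union_le S T

theorem mu_union_add_inter {n : ℕ} (S T : Finset (Fin n)) :
    mu (S ∪ T) + mu (S ∩ T) = mu S + mu T := by
  unfold mu
  rw [← add_div, ← add_div]
  congr 1
  exact_mod_cast card_union_add_card_inter S T

theorem mu_biUnion_le {n : ℕ} {ι : Type} [DecidableEq ι] (s : Finset ι)
    (f : ι → Finset (Fin n)) : mu (s.biUnion f) ≤ ∑ i ∈ s, mu (f i) := by
  unfold mu
  rw [← sum_div]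
  apply div_le_div_of_nonneg_right _ (Nat.cast_nonneg n)
  exact_mod_cast card_biUnion_le

/-! ### Markov kernels -/

variable {n K : ℕ} {P : Fin K → Matrix (Fin n) (Fin n) ℝ}

theorem app_nonneg (hP : Markov P) (c : Fin K) (S : Finset (Fin n)) (y : Fin n) :
    0 ≤ app P c S y := sum_nonneg fun j _ => hP.nonneg c y j

theorem app_mono (hP : Markov P) (c : Fin K) {S T : Finset (Fin n)} (h : S ⊆ T) (y : Fin n) :
    app P c S y ≤ app P c T y :=
  sum_le_sum_of_subset_of_nonneg h fun j _ _ => hP.nonneg c y j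

theorem app_univ (hP : Markov P) (c : Fin K) (y : Fin n) : app P c univ y = 1 := hP.row c y

theorem app_empty (c : Fin K) (y : Fin n) : app P c ∅ y = 0 := by
  unfold app
  simp

theorem app_le_one (hP : Markov P) (c : Fin K) (S : Finset (Fin n)) (y : Fin n) :
    app P c S y ≤ 1 := by
  rw [← app_univ hP c y]
  exact app_mono hP c (subset_univ S) y

theorem app_compl (hP : Markov P) (c : Fin K) (S : Finset (Fin n)) (y : Fin n) :
    app P c Sᶜ y = 1 - app P c S y := by
  have h := hP.row c y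
  rw [← sum_add_sum_compl S] at h
  unfold app
  linarith

theorem app_biUnion_le (hP : Markov P) (c : Fin K) {ι : Type} [DecidableEq ι] (s : Finset ι)
    (f : ι → Finset (Fin n)) (y : Fin n) :
    app P c (s.biUnion f) y ≤ ∑ i ∈ s, app P c (f i) y := by
  classical
  induction s using Finset.induction_on with
  | empty => simp [app]
  | insert a s ha ih =>
    rw [biUnion_insert, sum_insert ha]
    have h1 : app P c (f a ∪ s.biUnion f) y + app P c (f a ∩ s.biUnion f) y =
        app P c (f a) y + app P c (s.biUnion f) y := sum_union_inter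
    have h2 := app_nonneg hP c (f a ∩ s.biUnion f) y
    linarith

/-- Sum over all colours. -/
theorem sum_app (hP : Markov P) (S : Finset (Fin n)) (y : Fin n) :
    ∑ c, app P c S y = K * mu S := by
  unfold app mu
  rw [sum_comm]
  rw [sum_congr rfl fun j _ => hP.tot y j, sum_const, nsmul_eq_mul]
  ring

theorem sum_app_le (hP : Markov P) (C : Finset (Fin K)) (S : Finset (Fin n)) (y : Fin n) :
    ∑ c ∈ C, app P c S y ≤ K * mu S := by
  rw [← sum_app hP S y]
  exact sum_le_sum_of_subset_of_nonneg (subset_univ C) fun c _ _ => app_nonneg hP c S y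

/-- Symmetry. -/
theorem sum_app_symm (hP : Markov P) (c : Fin K) (S T : Finset (Fin n)) :
    ∑ y ∈ T, app P c S y = ∑ y ∈ S, app P c T y := by
  have h1 : ∑ y ∈ T, app P c S y = ∑ y ∈ T, ∑ j ∈ S, P c y j := rfl
  have h2 : ∑ y ∈ S, app P c T y = ∑ y ∈ S, ∑ j ∈ T, P c y j := rfl
  rw [h1, h2, Finset.sum_comm (s := T) (t := S) (f := fun y j => P c y j)]
  exact sum_congr rfl fun j _ => sum_congr rfl fun i _ => hP.symm c i j

theorem avg_app (hP : Markov P) (c : Fin K) (S : Finset (Fin n)) :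
    avg (fun y => app P c S y) = mu S := by
  unfold avg mu
  rw [sum_app_symm hP c S univ, sum_congr rfl fun y _ => app_univ hP c y, sum_const,
    nsmul_eq_mul, mul_one]

theorem dfc_eq (hn : 0 < n) (F : Finset (Fin K) → Finset (Fin n)) (Q : Finset (Fin K)) :
    dfc F Q = K * mu (F Q)ᶜ := by
  unfold dfc
  rw [mu_compl hn]

theorem dfc_nonneg (F : Finset (Fin K) → Finset (Fin n)) (Q : Finset (Fin K)) :
    0 ≤ dfc F Q := by
  unfold dfc
  have := mu_le_one (F Q)
  have h2 : (0 : ℝ) ≤ K := Nat.cast_nonneg K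
  exact mul_nonneg h2 (by linarith)

theorem dfc_le (F : Finset (Fin K) → Finset (Fin n)) (Q : Finset (Fin K)) :
    dfc F Q ≤ K := by
  unfold dfc
  have := mu_nonneg (F Q)
  have h2 : (0 : ℝ) ≤ K := Nat.cast_nonneg K
  nlinarith

theorem kf_nonneg (hP : Markov P) (F : Finset (Fin K) → Finset (Fin n)) (Q : Finset (Fin K))
    (y : Fin n) : 0 ≤ kf P F Q y := sum_nonneg fun c _ => app_nonneg hP c _ y

theorem kf_le (hP : Markov P) (F : Finset (Fin K) → Finset (Fin n)) (Q : Finset (Fin K))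
    (y : Fin n) : kf P F Q y ≤ dfc F Q := by
  rw [dfc_eq hP.npos]
  exact sum_app_le hP _ _ y

/-- The complementary sum over the colours in `Q`. -/
theorem sum_app_mem (hP : Markov P) (F : Finset (Fin K) → Finset (Fin n)) (Q : Finset (Fin K))
    (y : Fin n) : ∑ c ∈ Q, app P c (F Q)ᶜ y = dfc F Q - kf P F Q y := by
  rw [dfc_eq hP.npos, ← sum_app hP (F Q)ᶜ y, ← sum_add_sum_compl Q]
  unfold kf
  ring

theorem avg_kf (hP : Markov P) (F : Finset (Fin K) → Finset (Fin n)) (Q : Finset (Fin K)) :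
    avg (kf P F Q) = (1 - (Q.card : ℝ) / K) * dfc F Q := by
  have h1 : avg (kf P F Q) = ∑ c ∈ Qᶜ, avg (fun y => app P c (F Q)ᶜ y) := avg_sum _ _
  rw [h1, sum_congr rfl fun c _ => avg_app hP c (F Q)ᶜ, sum_const, card_compl,
    Fintype.card_fin, nsmul_eq_mul, Nat.cast_sub (by
      have := card_le_univ Q
      rwa [Fintype.card_fin] at this), dfc_eq hP.npos]
  have : (K : ℝ) ≠ 0 := by
    have := hP.kpos
    positivity
  field_simp

theorem mh_nonneg (hP : Markov P) (F : Finset (Fin K) → Finset (Fin n)) (Q : Finset (Fin K)) :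
    0 ≤ mh P F Q := by
  unfold mh
  apply div_nonneg _ (sq_nonneg _)
  apply avg_nonneg
  intro y
  exact mul_nonneg (kf_nonneg hP F Q y) (by have := kf_le hP F Q y; linarith)

theorem mh_le (hP : Markov P) (F : Finset (Fin K) → Finset (Fin n)) (Q : Finset (Fin K)) :
    mh P F Q ≤ 1 / 4 := by
  unfold mh
  rcases (dfc_nonneg F Q).eq_or_lt with h | h
  · rw [← h]
    norm_num
  · rw [div_le_iff₀ (by positivity), ← avg_const hP.npos (1 / 4 * dfc F Q ^ 2)]
    apply avg_mono
    intro y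
    nlinarith [sq_nonneg (kf P F Q y - dfc F Q / 2)]

theorem mem_rem (R : Finset (Fin K) → Finset (Fin n)) (j : ℕ) (Q : Finset (Fin K)) (y : Fin n) :
    y ∈ rem R j Q ↔ ∃ A, A ⊆ Q ∧ A.card = j ∧ y ∈ R (Q \ A) := by
  unfold rem
  simp only [mem_biUnion, mem_powersetCard]
  constructor
  · rintro ⟨A, ⟨h1, h2⟩, h3⟩
    exact ⟨A, h1, h2, h3⟩
  · rintro ⟨A, h1, h2, h3⟩
    exact ⟨A, ⟨h1, h2⟩, h3⟩

/-- `rem R j` is contained in `rem R (j + 1)` of the larger set. -/
theorem rem_sub (R : Finset (Fin K) → Finset (Fin n)) (j : ℕ) (Q : Finset (Fin K)) (c : Fin K)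
    (hc : c ∉ Q) : rem R j Q ⊆ rem R (j + 1) (insert c Q) := by
  intro y hy
  rw [mem_rem] at hy ⊢
  obtain ⟨A, h1, h2, h3⟩ := hy
  refine ⟨insert c A, insert_subset_insert c h1, ?_, ?_⟩
  · rw [card_insert_of_notMem (fun h => hc (h1 h)), h2]
  · have : insert c Q \ insert c A = Q \ A := by
      ext a
      simp only [mem_sdiff, mem_insert, not_or]
      constructor
      · rintro ⟨h4 | h4, h5, h6⟩
        · exact absurd h4 h5
        · exact ⟨h4, h6⟩
      · rintro ⟨h4, h5⟩
        exact ⟨Or.inr h4, fun h => hc (h ▸ h4), h5⟩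
    rw [this]
    exact h3

/-- The families `rem R j` grow. -/
theorem grows_rem (hP : Markov P) (R : Finset (Fin K) → Finset (Fin n)) (θ : ℝ) (hθ : 0 ≤ θ)
    (hR : Grows P R θ) (j : ℕ) : Grows P (rem R j) ((K : ℝ) ^ j * θ) := by
  intro Q c hc y hy
  have h1 : app P c (rem R j Q) y ≤ ∑ A ∈ Q.powersetCard j, app P c (R (Q \ A)) y :=
    app_biUnion_le hP c _ _ y
  have h2 : ∑ A ∈ Q.powersetCard j, app P c (R (Q \ A)) y ≤ ∑ A ∈ Q.powersetCard j, θ := by
    apply sum_le_sum
    intro A hA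
    rw [mem_powersetCard] at hA
    apply hR (Q \ A) c (fun h => hc (mem_sdiff.1 h).1) y
    intro hy2
    apply hy
    rw [mem_rem]
    refine ⟨A, hA.1.trans (subset_insert c Q), hA.2, ?_⟩
    have : insert c Q \ A = insert c (Q \ A) := by
      ext a
      simp only [mem_sdiff, mem_insert]
      constructor
      · rintro ⟨h4 | h4, h5⟩
        · exact Or.inl h4
        · exact Or.inr ⟨h4, h5⟩
      · rintro (h4 | ⟨h4, h5⟩)
        · exact ⟨Or.inl h4, fun h => hc (hA.1 (h4 ▸ h))⟩
        · exact ⟨Or.inr h4, h5⟩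
    rw [this]
    exact hy2
  rw [sum_const, nsmul_eq_mul, card_powersetCard] at h2
  have h3 : ((Q.card.choose j : ℕ) : ℝ) ≤ (K : ℝ) ^ j := by
    have h4 : Q.card ≤ K := by
      have := card_le_univ Q
      rwa [Fintype.card_fin] at this
    have h5 : Q.card.choose j ≤ K ^ j :=
      (Nat.choose_le_pow Q.card j).trans (Nat.pow_le_pow_left h4 j)
    exact_mod_cast h5
  calc _ ≤ _ := h1
    _ ≤ _ := h2
    _ ≤ _ := mul_le_mul_of_nonneg_right h3 hθ

/-- Growing families have nearly increasing densities. -/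
theorem mu_grow (hP : Markov P) (F : Finset (Fin K) → Finset (Fin n)) (η : ℝ) (hη : 0 ≤ η)
    (hF : Grows P F η) (Q : Finset (Fin K)) (c : Fin K) (hc : c ∉ Q) :
    mu (F Q) ≤ mu (F (insert c Q)) + η := by
  rw [← avg_app hP c (F Q), ← avg_indicator (F (insert c Q)), ← avg_const hP.npos η, ← avg_add]
  apply avg_mono
  intro y
  by_cases h : y ∈ F (insert c Q)
  · rw [if_pos h]
    have := app_le_one hP c (F Q) y
    linarith
  · rw [if_neg h]
    have := hF Q c hc y h
    linarith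

theorem dfc_grow (hP : Markov P) (F : Finset (Fin K) → Finset (Fin n)) (η : ℝ) (hη : 0 ≤ η)
    (hF : Grows P F η) (Q : Finset (Fin K)) (c : Fin K) (hc : c ∉ Q) :
    dfc F (insert c Q) ≤ dfc F Q + K * η := by
  unfold dfc
  have h1 := mu_grow hP F η hη hF Q c hc
  have h2 : (0 : ℝ) ≤ K := Nat.cast_nonneg K
  nlinarith

end Pool.Agent.Lib.MP_b1acb3_co.Uni
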