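import Pool.Agent.Lib.MP_b1acb3_co.Cyc.Defs

/-!
Definitions for the classification of graphs with exactly one cycle (problem MP_b1acb3_co).
-/

namespace Pool.Agent.Lib.MP_b1acb3_co.Uni

open Finset

/-- Mean value of a function on the vertices. -/
noncomputable def avg {n : ℕ} (f : Fin n → ℝ) : ℝ := (∑ y, f y) / n

/-- Density of a set of vertices. -/
noncomputable def mu {n : ℕ} (S : Finset (Fin n)) : ℝ := (S.card : ℝ) / n

/-- Symmetric kernels, one for each colour, with row sums `1` and constant sum. -/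
structure Markov {n K : ℕ} (P : Fin K → Matrix (Fin n) (Fin n) ℝ) : Prop where
  npos : 0 < n
  kpos : 0 < K
  nonneg : ∀ c i j, 0 ≤ P c i j
  symm : ∀ c i j, P c i j = P c j i
  row : ∀ c i, ∑ j, P c i j = 1
  tot : ∀ i j, ∑ c, P c i j = (K : ℝ) / n

/-- The value of `P c` applied to the indicator function of `S`, at the vertex `y`. -/
noncomputable def app {n K : ℕ} (P : Fin K → Matrix (Fin n) (Fin n) ℝ) (c : Fin K)
    (S : Finset (Fin n)) (y : Fin n) : ℝ := ∑ j ∈ S, P c y j

/-- The family `F` grows: `P c` applied to `F Q` is at most `η` outside `F (Q ∪ {c})`. -/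
def Grows {n K : ℕ} (P : Fin K → Matrix (Fin n) (Fin n) ℝ)
    (F : Finset (Fin K) → Finset (Fin n)) (η : ℝ) : Prop :=
  ∀ (Q : Finset (Fin K)) (c : Fin K), c ∉ Q → ∀ y, y ∉ F (insert c Q) → app P c (F Q) y ≤ η

/-- Union of the sets `R (Q \ A)` over the subsets `A` of `Q` of size `j`. -/
def rem {n K : ℕ} (R : Finset (Fin K) → Finset (Fin n)) (j : ℕ) (Q : Finset (Fin K)) :
    Finset (Fin n) := (Q.powersetCard j).biUnion (fun A => R (Q \ A))

/-- `K` times the density of the complement of `F Q`. -/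
noncomputable def dfc {n K : ℕ} (F : Finset (Fin K) → Finset (Fin n)) (Q : Finset (Fin K)) : ℝ :=
  K * (1 - mu (F Q))

/-- Total decrease of `dfc F` when a colour is added to `Q`. -/
noncomputable def loss {n K : ℕ} (F : Finset (Fin K) → Finset (Fin n)) (Q : Finset (Fin K)) : ℝ :=
  ∑ c ∈ Qᶜ, (dfc F Q - dfc F (insert c Q))

/-- The function `k`: sum over the colours `c ∉ Q` of `P c` applied to the complement of `F Q`. -/
noncomputable def kf {n K : ℕ} (P : Fin K → Matrix (Fin n) (Fin n) ℝ)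
    (F : Finset (Fin K) → Finset (Fin n)) (Q : Finset (Fin K)) (y : Fin n) : ℝ :=
  ∑ c ∈ Qᶜ, app P c (F Q)ᶜ y

/-- The normalised mean of `k (D - k)`. -/
noncomputable def mh {n K : ℕ} (P : Fin K → Matrix (Fin n) (Fin n) ℝ)
    (F : Finset (Fin K) → Finset (Fin n)) (Q : Finset (Fin K)) : ℝ :=
  avg (fun y => kf P F Q y * (dfc F Q - kf P F Q y)) / dfc F Q ^ 2

/-- The normalised sum of the inner products of different colours `c, c' ∉ Q`. -/
noncomputable def offd {n K : ℕ} (P : Fin K → Matrix (Fin n) (Fin n) ℝ)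
    (F : Finset (Fin K) → Finset (Fin n)) (Q : Finset (Fin K)) : ℝ :=
  (∑ c' ∈ Qᶜ, ∑ c ∈ Qᶜ.erase c', avg (fun y => app P c (F Q)ᶜ y * app P c' (F Q)ᶜ y)) /
    dfc F Q ^ 2

/-- Mean value over all sets of `i` colours. -/
noncomputable def EQ (K i : ℕ) (f : Finset (Fin K) → ℝ) : ℝ :=
  (∑ Q ∈ powersetCard i univ, f Q) / (K.choose i : ℝ)

/-- The system of sets `R Q` (vertices reached from a fixed vertex by a path using each colour of
`Q` exactly once), with error `θ`, where `d` colours are to remain unused by a cycle. -/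
structure Sys {n K : ℕ} (P : Fin K → Matrix (Fin n) (Fin n) ℝ)
    (R : Finset (Fin K) → Finset (Fin n)) (θ : ℝ) (d : ℕ) : Prop where
  markov : Markov P
  nonneg : 0 ≤ θ
  grow : Grows P R θ
  empty : R ∅ = ∅
  start : ∀ a, 1 / (K : ℝ) - θ ≤ mu (R {a})
  disj : ∀ a b, a ≠ b → Disjoint (R {a}) (R {b})
  excl : ∀ U U', U.Nonempty → U'.Nonempty → Disjoint U U' → U.card + U'.card + d = K →
    mu (R U ∩ R U') ≤ θ

open Classical in
/-- Indicator of the event that `R'_Q` is large. -/
noncomputable def bad {n K : ℕ} (R : Finset (Fin K) → Finset (Fin n)) (θ : ℝ)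
    (Q : Finset (Fin K)) : ℝ :=
  if 3 / 4 - (Q.card : ℝ) * K * θ ≤ mu (rem R 1 Q) then 1 else 0

/-- The mean of `loss / dfc`. -/
noncomputable def sE {n K : ℕ} (F : Finset (Fin K) → Finset (Fin n)) (i : ℕ) : ℝ :=
  EQ K i (fun Q => loss F Q / dfc F Q)

/-- The mean of the logarithm of `dfc`. -/
noncomputable def lamE {n K : ℕ} (F : Finset (Fin K) → Finset (Fin n)) (i : ℕ) : ℝ :=
  EQ K i (fun Q => Real.log (dfc F Q))

/-- Neighbours of `x` in colour `a`. -/
def nbr {n K : ℕ} (c : Sym2 (Fin n) → Fin K) (x : Fin n) (a : Fin K) : Finset (Fin n) :=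
  univ.filter (fun y => y ≠ x ∧ c s(x, y) = a)

open Classical in
/-- Auxiliary recursion for `reach`. -/
noncomputable def reachN {n K : ℕ} (c : Sym2 (Fin n) → Fin K)
    (P : Fin K → Matrix (Fin n) (Fin n) ℝ) (θ : ℝ) (x : Fin n) :
    ℕ → Finset (Fin K) → Finset (Fin n)
  | 0, _ => ∅
  | 1, Q => univ.filter (fun y => y ≠ x ∧ c s(x, y) ∈ Q)
  | (k + 2), Q => univ.filter (fun y => ∃ a ∈ Q, θ < app P a (reachN c P θ x (k + 1) (Q.erase a)) y)

/-- The vertices reached from `x` by many paths using each colour of `Q` exactly once. -/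
noncomputable def reach {n K : ℕ} (c : Sym2 (Fin n) → Fin K)
    (P : Fin K → Matrix (Fin n) (Fin n) ℝ) (θ : ℝ) (x : Fin n) (Q : Finset (Fin K)) :
    Finset (Fin n) := reachN c P θ x Q.card Q

/-- A rainbow closed walk with `l` different vertices (a rainbow cycle of length `l ≥ 3`). -/
def HasRainbowCycle {n K : ℕ} (c : Sym2 (Fin n) → Fin K) (l : ℕ) : Prop :=
  ∃ z : ℕ → Fin n, z l = z 0 ∧ (∀ i j, i < l → j < l → z i = z j → i = j) ∧
    ∀ i j, i < l → j < l → c s(z i, z (i + 1)) = c s(z j, z (j + 1)) → i = j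

end Pool.Agent.Lib.MP_b1acb3_co.Uni
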