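import Pool.Agent.Lib.MP_b1acb3_co.Uni.Stmts

/-!
(G2) Rainbow cycles from the sets `reach`.
-/

namespace Pool.Agent.Lib.MP_b1acb3_co.Uni

open Finset

theorem thmG2 (h : StG1) : StG2 := by
  classical
  intro K θ hK hθ
  obtain ⟨δ, hδ, hv⟩ := h K θ hK hθ
  obtain ⟨n₁, hn₁⟩ := hv (K + 1)
  obtain ⟨n₂, hn₂⟩ := exists_nat_gt (1 / θ)
  refine ⟨δ, hδ, max n₁ n₂ + 1, ?_⟩
  intro n hn c B hB0 hB x U U' hU hU' hdis hmu
  have hnn₁ : n₁ ≤ n := (le_max_left n₁ n₂).trans (by omega)
  have hnn₂ : n₂ ≤ n := (le_max_right n₁ n₂).trans (by omega)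
  have hn0 : 0 < n := by omega
  have hnR : (0 : ℝ) < n := by exact_mod_cast hn0
  set S := reach c (Cyc.nrm B) θ x U ∩ reach c (Cyc.nrm B) θ x U' with hS
  have hcard : 1 < S.card := by
    unfold mu at hmu
    rw [lt_div_iff₀ hnR] at hmu
    rw [div_lt_iff₀ hθ] at hn₂
    have h2 : (n₂ : ℝ) ≤ n := by exact_mod_cast hnn₂
    have h3 : (1 : ℝ) < S.card := by
      have := mul_le_mul_of_nonneg_right h2 hθ.le
      linarith
    exact_mod_cast h3
  obtain ⟨y, hyS, hyx⟩ : ∃ y ∈ S, y ≠ x := by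
    by_contra hcon
    push Not at hcon
    have h2 : S ⊆ {x} := fun y hy => mem_singleton.2 (hcon y hy)
    have h3 := card_le_card h2
    rw [card_singleton] at h3
    omega
  rw [hS, mem_inter] at hyS
  have hUK : U.card ≤ K := by
    have := card_le_univ U
    rwa [Fintype.card_fin] at this
  obtain ⟨z1, h10, h1u, h1c, h1i, _, h1inj⟩ := hn₁ n hnn₁ c B hB0 hB x U y ∅ hU hyx hyS.1
    (by simp)
  set Z2 := (range (U.card + 1)).image z1 with hZ2
  obtain ⟨z2, h20, h2u, h2c, h2i, h2Z, h2inj⟩ := hn₁ n hnn₁ c B hB0 hB x U' y Z2 hU' hyx hyS.2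
    (card_image_le.trans (by rw [card_range]; omega))
  have hu0 : 0 < U.card := card_pos.2 hU
  have hu0' : 0 < U'.card := card_pos.2 hU'
  set u := U.card with hu
  set u' := U'.card with hu'
  set z : ℕ → Fin n := fun i => if i ≤ u then z1 i else z2 (u + u' - i) with hz
  have hz1 : ∀ i, i ≤ u → z i = z1 i := by
    intro i hi
    simp only [hz, if_pos hi]
  have hz2 : ∀ i, u ≤ i → z i = z2 (u + u' - i) := by
    intro i hi
    rcases Nat.eq_or_lt_of_le hi with h2 | h2
    · rw [← h2, hz1 u le_rfl, h1u, show u + u' - u = u' by omega, h2u]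
    · simp only [hz]
      rw [if_neg (by omega)]
  have hcol1 : ∀ i, i < u → c s(z i, z (i + 1)) = c s(z1 i, z1 (i + 1)) := by
    intro i hi
    rw [hz1 i (by omega), hz1 (i + 1) (by omega)]
  have hcol2 : ∀ i, u ≤ i → i < u + u' →
      c s(z i, z (i + 1)) = c s(z2 (u + u' - i - 1), z2 (u + u' - i - 1 + 1)) := by
    intro i hi hi2
    rw [hz2 i hi, hz2 (i + 1) (by omega), show u + u' - (i + 1) = u + u' - i - 1 by omega,
      show u + u' - i - 1 + 1 = u + u' - i by omega, Sym2.eq_swap]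
  have hm1 : ∀ i, i < u → c s(z i, z (i + 1)) ∈ U := by
    intro i hi
    rw [hcol1 i hi]
    exact h1c i hi
  have hm2 : ∀ i, u ≤ i → i < u + u' → c s(z i, z (i + 1)) ∈ U' := by
    intro i hi hi2
    rw [hcol2 i hi hi2]
    exact h2c _ (by omega)
  refine ⟨z, ?_, ?_, ?_⟩
  · rw [hz2 (u + u') (by omega), hz1 0 (by omega), h10, show u + u' - (u + u') = 0 by omega, h20]
  · intro i j hi hj hij
    rcases Nat.lt_or_ge u i with h3 | h3
    · rcases Nat.lt_or_ge u j with h4 | h4
      · rw [hz2 i (by omega), hz2 j (by omega)] at hij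
        have := h2inj _ _ (by omega) (by omega) hij
        omega
      · exfalso
        rw [hz2 i (by omega), hz1 j h4] at hij
        apply h2Z (u + u' - i) (by omega) (by omega)
        rw [hij, hZ2]
        exact mem_image_of_mem z1 (mem_range.2 (by omega))
    · rcases Nat.lt_or_ge u j with h4 | h4
      · exfalso
        rw [hz1 i h3, hz2 j (by omega)] at hij
        apply h2Z (u + u' - j) (by omega) (by omega)
        rw [← hij, hZ2]
        exact mem_image_of_mem z1 (mem_range.2 (by omega))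
      · rw [hz1 i h3, hz1 j h4] at hij
        exact h1inj i j h3 h4 hij
  · intro i j hi hj hij
    rcases Nat.lt_or_ge i u with h3 | h3
    · rcases Nat.lt_or_ge j u with h4 | h4
      · rw [hcol1 i h3, hcol1 j h4] at hij
        exact h1i i j h3 h4 hij
      · exfalso
        exact disjoint_left.1 hdis (hm1 i h3) (hij ▸ hm2 j h4 hj)
    · rcases Nat.lt_or_ge j u with h4 | h4
      · exfalso
        exact disjoint_left.1 hdis (hm1 j h4) (hij ▸ hm2 i h3 hi)
      · rw [hcol2 i h3 hi, hcol2 j h4 hj] at hij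
        have := h2i _ _ (by omega) (by omega) hij
        omega

end Pool.Agent.Lib.MP_b1acb3_co.Uni
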